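import Pool.Agent.H502R2.Words

/-!
Kernel friendly evaluation: definitions.
-/

namespace Pool.Agent.H502R2

/-! polynomials as coefficient lists -/

/-- sum of coefficient lists -/
def addL : List ℕ → List ℕ → List ℕ
  | [], m => m
  | a :: l, [] => a :: l
  | a :: l, b :: m => (a + b) :: addL l m

/-- multiplication by a power of the variable -/
def shL : ℕ → List ℕ → List ℕ
  | 0, l => l
  | k + 1, l => 0 :: shL k l

/-- finite sums -/
def sumR : ℕ → (ℕ → List ℕ) → List ℕ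
  | 0, _ => []
  | n + 1, f => addL (sumR n f) (f n)

/-- rows -/
def mapR {α : Type} : ℕ → (ℕ → α) → List α
  | 0, _ => []
  | n + 1, f => f 0 :: mapR n (fun i => f (i + 1))

/-- table lookup -/
def lk (M : List (List (List ℕ))) (c d : ℕ) : List ℕ := (M.getD c []).getD d []

/-- one transfer step on tables -/
def stepT (L : ℕ) (M : List (List (List ℕ))) : List (List (List ℕ)) :=
  mapR L fun p => mapR L fun r => sumR L fun c => sumR L fun d =>
    if L ≤ c + d + 2 ∧ c ≤ p + 1 ∧ r ≤ d + 1 then shL (c + d + 2) (lk M c d) else []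

/-- head functional on tables -/
def headT (L : ℕ) (X : ℕ → Bool) (M : List (List (List ℕ))) : List ℕ :=
  sumR L fun c => sumR L fun d =>
    if L ≤ c + d + 2 ∧ X c = true then shL (c + d + 2) (lk M c d) else []

/-- initial table, pairs of classes -/
def tabC (L : ℕ) (Y : ℕ → Bool) : List (List (List ℕ)) :=
  mapR L fun _ => mapR L fun r => if Y r = true then [1] else []

/-- initial table, even self-paired class -/
def tabE (L : ℕ) : List (List (List ℕ)) :=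
  mapR L fun p => mapR L fun r => if r ≤ p + 1 then [1] else []

/-- initial table, odd self-paired class -/
def tabO (L : ℕ) : List (List (List ℕ)) :=
  mapR L fun p => mapR L fun r => sumR L fun k =>
    if L ≤ 2 * k + 2 ∧ k ≤ p + 1 ∧ r ≤ k + 1 then shL (k + 1) [1] else []

/-- initial terms -/
def inits (L : ℕ) (X : ℕ → Bool) : ℕ → List (List (List ℕ)) → List (List ℕ)
  | 0, _ => []
  | n + 1, M => headT L X M :: inits L X n (stepT L M)

/-! evaluation -/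

/-- Horner -/
def evN (x : ℕ) : List ℕ → ℕ
  | [] => 0
  | a :: l => a + x * evN x l

/-- one step of a linear recurrence of order six -/
def rec6 (K c1 c2 c3 c4 c5 c6 s0 s1 s2 s3 s4 s5 : ℕ) : ℕ :=
  Nat.land (Nat.add (Nat.add (Nat.mul c1 s5) (Nat.add (Nat.mul c3 s3) (Nat.mul c5 s1)))
    (Nat.sub (Nat.add K 1) (Nat.land (Nat.add (Nat.mul c2 s4) (Nat.add (Nat.mul c4 s2) (Nat.mul c6 s0))) K))) K

/-- list of terms of a linear recurrent sequence -/
def tab6 (K c1 c2 c3 c4 c5 c6 : ℕ) : ℕ → ℕ → ℕ → ℕ → ℕ → ℕ → ℕ → List ℕ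
  | 0, _, _, _, _, _, _ => []
  | n + 1, s0, s1, s2, s3, s4, s5 =>
    s0 :: tab6 K c1 c2 c3 c4 c5 c6 n s1 s2 s3 s4 s5 (rec6 K c1 c2 c3 c4 c5 c6 s0 s1 s2 s3 s4 s5)

/-- interleaving -/
def inter : List ℕ → List ℕ → List ℕ
  | a :: l, b :: m => a :: b :: inter l m
  | _, _ => []

/-- masked product -/
def mm (K a b : ℕ) : ℕ := Nat.land (Nat.mul a b) K

/-- add the contributions of one class length, free region -/
def rowF (K A a c1 c0 u1 u2 v1 : ℕ) : List ℕ → ℕ → ℕ → ℕ → ℕ → List ℕ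
  | s1 :: s2 :: S, d, k', k, p =>
    if a * d ≤ A then
      Nat.add s1 (Nat.land (Nat.add (Nat.mul u1 k) (Nat.mul u2 k')) K) ::
      (if a * (d + 1) ≤ A then Nat.add s2 (mm K v1 k) else s2) ::
      rowF K A a c1 c0 u1 u2 v1 S (d + 2) k (Nat.land (Nat.add (Nat.mul c0 k) (mm K c1 p)) K) (mm K c1 p)
    else s1 :: s2 :: S
  | S, _, _, _, _ => S

/-- add the contributions of one class length, flagged region -/
def rowG (K A a c1 c0 u2 u3 v1 v2 v3 : ℕ) : List ℕ → ℕ → ℕ → ℕ → ℕ → List ℕ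
  | s1 :: s2 :: S, d, k', k, p =>
    if a * d ≤ A then
      Nat.add s1 (Nat.land (Nat.add (Nat.mul u3 p) (Nat.mul u2 k')) K) ::
      (if a * (d + 1) ≤ A then Nat.add s2
        (Nat.land (Nat.add (Nat.mul v1 k) (Nat.add (Nat.mul v2 k') (Nat.mul v3 p))) K) else s2) ::
      rowG K A a c1 c0 u2 u3 v1 v2 v3 S (d + 2) k (Nat.land (Nat.add (Nat.mul c0 k) (mm K c1 p)) K) (mm K c1 p)
    else s1 :: s2 :: S
  | S, _, _, _, _ => S

/-- skip the first terms -/
def pre (K c1 c0 : ℕ) : ℕ → ℕ → ℕ → ℕ → (ℕ → ℕ → ℕ → List ℕ) → List ℕ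
  | 0, k', k, p, f => f k' k p
  | n + 1, _, k, p, f =>
    pre K c1 c0 n k (Nat.land (Nat.add (Nat.mul c0 k) (mm K c1 p)) K) (mm K c1 p) f

/-- all class lengths, free region -/
def rowsF (K A k0 : ℕ) : ℕ → ℕ → List ℕ → List ℕ → List ℕ → List ℕ
  | n + 1, a, c0 :: c1 :: C, d0 :: d1 :: D, S =>
    rowsF K A k0 n (a + 1) (c1 :: C) (d1 :: D)
      (pre K c1 c0 k0 0 1 1 fun k' k p =>
        rowF K A a c1 c0 d0 (mm K c0 d1) (Nat.add c0 (mm K d0 d1)) S (2 * k0 + 1) k' k p)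
  | _, _, _, _, S => S

/-- all class lengths, flagged region; `E` terms of self-paired flagged classes, `F` of pairs -/
def rowsG (K A k0 : ℕ) : ℕ → ℕ → List ℕ → List ℕ → List ℕ → List ℕ → List ℕ → List ℕ
  | n + 1, a, c0 :: c1 :: C, d0 :: d1 :: D, e :: E, f :: F, S =>
    rowsG K A k0 n (a + 1) (c1 :: C) (d1 :: D) E F
      (pre K c1 c0 k0 0 1 1 fun k' k p =>
        rowG K A a c1 c0 (mm K f (Nat.add d0 d1)) e f (mm K f (mm K d0 d1)) (mm K e d1) S
          (2 * k0 + 1) k' k p)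
  | _, _, _, _, _, _, S => S

/-- zeros -/
def zeros : ℕ → List ℕ
  | 0 => []
  | n + 1 => 0 :: zeros n

/-- final sum -/
def dotB (K w1 w P : ℕ) : List ℕ → List ℕ → ℕ → ℕ → ℕ → ℕ → ℕ
  | sa :: Sa, sg :: Sg, b, y0, y1, acc =>
    dotB K w1 w P Sa Sg (Nat.land (Nat.add (Nat.mul w b) y0) K) y1 (mm K P y0)
      (Nat.add acc (mm K (Nat.add sa (Nat.mul w1 b)) sg))
  | _, _, _, _, _, acc => acc

/-- prefix weights, advance -/
def preB (K w P : ℕ) : ℕ → ℕ → ℕ → ℕ → (ℕ → ℕ → ℕ → ℕ) → ℕ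
  | 0, b, y0, y1, f => f b y0 y1
  | n + 1, b, y0, y1, f =>
    preB K w P n (Nat.land (Nat.add (Nat.mul w b) y0) K) y1 (mm K P y0) f

/-- sequence from coefficient lists -/
def seqT (K x : ℕ) (cs : List (List ℕ)) (n : ℕ) (is : List (List ℕ)) : List ℕ :=
  tab6 K (evN x (cs.getD 0 [])) (evN x (cs.getD 1 [])) (evN x (cs.getD 2 []))
    (evN x (cs.getD 3 [])) (evN x (cs.getD 4 [])) (evN x (cs.getD 5 [])) n
    (evN x (is.getD 0 [])) (evN x (is.getD 1 [])) (evN x (is.getD 2 []))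
    (evN x (is.getD 3 [])) (evN x (is.getD 4 [])) (evN x (is.getD 5 []))

/-- recurrence coefficients, depth three, pairs -/
def rc3 : List (List ℕ) := [[0,0,0,2,3,2,1],[0,0,0,0,0,0,0,2,3,4,2],[0,0,0,0,0,0,0,0,0,0,0,0,1,2,1]]
/-- recurrence coefficients, depth three, self-paired -/
def rd3 : List (List ℕ) := [[0,0,0,2,2,2,1],[0,0,0,0,0,0,0,0,1,2,1]]
/-- recurrence coefficients, depth four -/
def rc4 : List (List ℕ) := [shL 4 [3,4,3,2,1], shL 8 [1,6,9,12,10,6,2], shL 14 [2,8,13,14,10,4,1],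
  shL 20 [1,2,3,2,1]]
/-- recurrence coefficients, depth five, pairs -/
def rc5 : List (List ℕ) := [shL 5 [4,5,4,3,2,1], shL 10 [3,12,18,24,23,20,12,6,2],
  shL 16 [3,12,31,48,60,60,48,32,14,4,1], shL 23 [4,16,32,52,64,67,52,29,12,3],
  shL 31 [4,11,22,32,32,24,12,3], shL 40 [2,6,7,4,1]]
/-- recurrence coefficients, depth five, self-paired -/
def rd5 : List (List ℕ) := [shL 5 [3,3,3,2,2,1], shL 11 [3,6,9,10,10,6,3,1],
  shL 18 [4,5,9,10,9,6,2], shL 27 [2,4,3,1]]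

/-- recurrence coefficients by depth, pairs -/
def rcL (L : ℕ) : List (List ℕ) := if L = 3 then rc3 else if L = 4 then rc4 else rc5
/-- recurrence coefficients by depth, self-paired -/
def rdL (L : ℕ) : List (List ℕ) := if L = 3 then rd3 else if L = 4 then rc4 else rd5

/-- weights of pairs of classes, lengths `0, ..., n` -/
def Ctab (K x L : ℕ) (X Y : ℕ → Bool) (n : ℕ) : List ℕ :=
  1 :: evN x (headT L X (tabC L Y)) :: evN x (headT L X (stepT L (tabC L Y))) ::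
    seqT K x (rcL L) (n - 2) (inits L X 6 (stepT L (stepT L (tabC L Y))))

/-- centre list -/
def cen1 (L : ℕ) (X : ℕ → Bool) : List ℕ :=
  sumR L fun k => if L ≤ 2 * k + 2 ∧ X k = true then shL (k + 1) [1] else []

/-- weights of self-paired classes, lengths `0, ..., n` -/
def Dtab (K x L : ℕ) (X : ℕ → Bool) (n : ℕ) : List ℕ :=
  1 :: evN x (cen1 L X) ::
    inter (seqT K x (rdL L) (n / 2) (inits L X 6 (tabE L)))
      (seqT K x (rdL L) (n / 2) (inits L X 6 (tabO L)))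

/-- pair list -/
def pairL (L : ℕ) (Z : ℕ → ℕ → Bool) : List ℕ :=
  sumR L fun c => sumR L fun d => if Z c d = true then shL (c + d + 2) [1] else []
/-- centre list -/
def cenL (L : ℕ) (Z : ℕ → Bool) : List ℕ :=
  sumR L fun k => if Z k = true then shL (k + 1) [1] else []

/-- value of a block: distances `2 k0 + 1, ..., 2 k1` -/
def blk (q B G k0 k1 : ℕ) : ℕ :=
  let x := Nat.pow 2 B
  let K := Nat.sub (Nat.pow 2 (B * (G + 1))) 1
  let Ag := 2 * G / (q - 1)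
  let Aa := 2 * G / q
  let ng := Ag / (2 * k0 + 1) + 1
  let na := Aa / (2 * k0 + 1) + 1
  let Sg := rowsF K Ag k0 ng 0 (Ctab K x (q - 1) tt tt (ng + 1)) (Dtab K x (q - 1) tt (ng + 2))
    (zeros (2 * (k1 - k0)))
  let Sa := rowsG K Aa k0 na 1 ((Ctab K x q t2 t2 (na + 2)).tail) ((Dtab K x q t2 (na + 4)).tail)
    ((Dtab K x q e1 (na + 4)).tail) ((Ctab K x q t2 e1 (na + 2)).tail)
    (zeros (2 * (k1 - k0)))
  let P := evN x (pairL q (zr2 q))
  preB K (evN x (pairL (q - 1) (zl2 (q - 1)))) P (2 * k0) 0 1 (evN x (cenL q (zc2 q))) fun b y0 y1 =>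
    dotB K (evN x (pairL (q - 1) (zl1 (q - 1)))) (evN x (pairL (q - 1) (zl2 (q - 1)))) P Sa Sg b y0 y1 0

/-- sums of reflection words -/
def geoN (K P : ℕ) : ℕ → ℕ → ℕ → ℕ → ℕ
  | 0, _, _, acc => acc
  | n + 1, y0, y1, acc => geoN K P n y1 (mm K P y0) (Nat.add acc y0)

/-- case III -/
def thr (q B G : ℕ) : ℕ :=
  let x := Nat.pow 2 B
  let K := Nat.sub (Nat.pow 2 (B * (G + 1))) 1
  mm K (geoN K (evN x (pairL q (zr2 q))) (2 * G / q + 1) 1 (evN x (cenL q (zc2 q))) 0)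
    (geoN K (evN x (pairL (q - 1) (zl2 (q - 1)))) (2 * G / (q - 1) + 1) 1
      (evN x (cenL (q - 1) (zc (q - 1)))) 0)

/-- no chains -/
def vvq (q B G : ℕ) : ℕ :=
  let x := Nat.pow 2 B
  let K := Nat.sub (Nat.pow 2 (B * (G + 1))) 1
  mm K (geoN K (evN x (pairL q (zr q))) (2 * G / q + 1) 1 (evN x (cenL q (zc q))) 0)
    (geoN K (evN x (pairL (q - 1) (zr (q - 1)))) (2 * G / (q - 1) + 1) 1
      (evN x (cenL (q - 1) (zc (q - 1)))) 0)

/-- sum of the parts without chains -/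
def restN (B G : ℕ) : ℕ → ℕ → ℕ → ℕ
  | 0, _, acc => acc
  | n + 1, q, acc => restN B G n (q + 1) (Nat.add acc (Nat.mul (Nat.pow (Nat.pow 2 B) q) (vvq q B G)))

/-- combination of the blocks -/
def totN (B G a4 b4 a5 b5 : ℕ) : ℕ :=
  Nat.land (Nat.add (Nat.mul (Nat.pow (Nat.pow 2 B) 4) (Nat.add (Nat.add a4 b4) (thr 4 B G)))
    (Nat.add (Nat.mul (Nat.pow (Nat.pow 2 B) 5) (Nat.add (Nat.add a5 b5) (thr 5 B G)))
      (restN B G 9 6 0))) (Nat.sub (Nat.pow 2 (B * (G + 1))) 1)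

/-- comparison of the digits with a Fibonacci type sequence -/
def lp (b : ℕ) : ℕ → ℕ → ℕ → ℕ → ℕ → ℕ → Bool
  | 0, _, _, _, _, _ => true
  | n + 1, N, s, t, u, v =>
    Nat.ble (Nat.succ (Nat.add (Nat.mul (Nat.mod N b) v) u)) (Nat.mul s v) &&
      lp b n (Nat.div N b) t (Nat.add s t) (Nat.mul 8 u) (Nat.mul 5 v)

/-- comparison of the digits with a list, then with a Fibonacci type sequence -/
def lpl (b n s t : ℕ) : List ℕ → ℕ → ℕ → ℕ → Bool
  | [], N, u, v => lp b n N s t u v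
  | a :: l, N, u, v =>
    Nat.ble (Nat.succ (Nat.add (Nat.mul (Nat.mod N b) v) u)) (Nat.mul a v) &&
      lpl b n s t l (Nat.div N b) (Nat.mul 8 u) (Nat.mul 5 v)

/-- small values -/
def tl : List ℕ := [1, 1, 2, 4, 6, 11, 20, 33, 57, 99, 168, 287, 487, 824, 1395, 2351, 3954, 6636,
  11116, 18593]

/-- the final comparison -/
def finB (B G n a4 b4 a5 b5 : ℕ) : Bool :=
  lpl (Nat.pow 2 B) n 31042 49635 tl
    (Nat.div (totN B G a4 b4 a5 b5) (Nat.pow 2 B)) (103 * 8) (10000 * 5)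

end Pool.Agent.H502R2
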