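import Pool.Agent.H502R2.ListPoly

/-!
Correctness of the kernel friendly evaluation.
-/

namespace Pool.Agent.H502R2

open Finset

section
variable {R : Type*} [CommRing R]

/-- entries of a list are the terms of a sequence, starting from an index -/
def Sp (f : ℕ → R) : ℕ → List ℕ → Prop
  | _, [] => True
  | i, a :: l => (a : R) = f i ∧ Sp f (i + 1) l

theorem Sp_congr {f g : ℕ → R} {i : ℕ} {l : List ℕ} (h : Sp f i l)
    (hfg : ∀ j, i ≤ j → f j = g j) : Sp g i l := by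
  induction l generalizing i with
  | nil => trivial
  | cons a l ih => exact ⟨h.1.trans (hfg i le_rfl), ih h.2 fun j hj => hfg j (by omega)⟩

theorem Sp_shift {f : ℕ → R} {i c : ℕ} {l : List ℕ} (h : Sp (fun n => f (n + c)) i l) :
    Sp f (i + c) l := by
  induction l generalizing i with
  | nil => trivial
  | cons a l ih =>
    refine ⟨h.1, ?_⟩
    have := ih h.2
    rwa [show i + 1 + c = i + c + 1 by ring] at this

theorem evN_cast (x : ℕ) (l : List ℕ) : ((evN x l : ℕ) : R) = ev (x : R) l := by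
  induction l with
  | nil => simp [evN]
  | cons a l ih => simp [evN, ih]

/-- mask -/
structure Msk (R : Type*) [CommRing R] (K : ℕ) : Prop where
  ex : ∃ N, K = 2 ^ N - 1 ∧ ((2 ^ N : ℕ) : R) = 0

theorem Msk.succ {K : ℕ} (hK : Msk R K) : ((Nat.add K 1 : ℕ) : R) = 0 := by
  obtain ⟨N, rfl, h⟩ := hK.ex
  have e : Nat.add (2 ^ N - 1) 1 = 2 ^ N := Nat.sub_add_cancel Nat.one_le_two_pow
  rw [e, h]

theorem Msk.land {K : ℕ} (hK : Msk R K) (a : ℕ) : ((Nat.land a K : ℕ) : R) = a := by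
  obtain ⟨N, rfl, h⟩ := hK.ex
  have e : Nat.land a (2 ^ N - 1) = a % 2 ^ N := Nat.and_two_pow_sub_one_eq_mod a N
  rw [e]
  conv_rhs => rw [← Nat.div_add_mod a (2 ^ N)]
  rw [Nat.cast_add, Nat.cast_mul, h, zero_mul, zero_add]

theorem Msk.land_le {K : ℕ} (a : ℕ) : Nat.land a K ≤ K := Nat.and_le_right

theorem Msk.mm {K : ℕ} (hK : Msk R K) (a b : ℕ) : ((mm K a b : ℕ) : R) = a * b := by
  rw [H502R2.mm, hK.land]
  exact Nat.cast_mul a b

theorem cadd (a b : ℕ) : ((Nat.add a b : ℕ) : R) = a + b := Nat.cast_add a b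
theorem cmul (a b : ℕ) : ((Nat.mul a b : ℕ) : R) = a * b := Nat.cast_mul a b

theorem rec6_spec {K : ℕ} (hK : Msk R K) (c1 c2 c3 c4 c5 c6 s0 s1 s2 s3 s4 s5 : ℕ) :
    ((rec6 K c1 c2 c3 c4 c5 c6 s0 s1 s2 s3 s4 s5 : ℕ) : R) =
    c1 * s5 + (c3 * s3 + c5 * s1) - (c2 * s4 + (c4 * s2 + c6 * s0)) := by
  rw [rec6, hK.land, cadd, cadd, cadd, cmul, cmul, cmul]
  have h1 : Nat.land (Nat.add (Nat.mul c2 s4) (Nat.add (Nat.mul c4 s2) (Nat.mul c6 s0))) K ≤
      Nat.add K 1 := (Msk.land_le _).trans (Nat.le_succ K)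
  have h2 : (Nat.sub (Nat.add K 1) (Nat.land (Nat.add (Nat.mul c2 s4)
      (Nat.add (Nat.mul c4 s2) (Nat.mul c6 s0))) K)) = (Nat.add K 1) -
      (Nat.land (Nat.add (Nat.mul c2 s4) (Nat.add (Nat.mul c4 s2) (Nat.mul c6 s0))) K) := rfl
  rw [h2, Nat.cast_sub h1, hK.succ, hK.land, cadd, cadd, cmul, cmul, cmul]
  ring

theorem tab6_spec {K : ℕ} (hK : Msk R K) {x : R} {cs : List (List ℕ)} {f : ℕ → R}
    (hf : Rec6 x cs f) {c1 c2 c3 c4 c5 c6 : ℕ}
    (h1 : (c1 : R) = ev x (cs.getD 0 [])) (h2 : (c2 : R) = ev x (cs.getD 1 []))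
    (h3 : (c3 : R) = ev x (cs.getD 2 [])) (h4 : (c4 : R) = ev x (cs.getD 3 []))
    (h5 : (c5 : R) = ev x (cs.getD 4 [])) (h6 : (c6 : R) = ev x (cs.getD 5 []))
    (n : ℕ) : ∀ (i s0 s1 s2 s3 s4 s5 : ℕ), (s0 : R) = f i → (s1 : R) = f (i + 1) →
    (s2 : R) = f (i + 2) → (s3 : R) = f (i + 3) → (s4 : R) = f (i + 4) → (s5 : R) = f (i + 5) →
    Sp f i (tab6 K c1 c2 c3 c4 c5 c6 n s0 s1 s2 s3 s4 s5) := by
  induction n with
  | zero => intro i s0 s1 s2 s3 s4 s5 _ _ _ _ _ _; trivial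
  | succ n ih =>
    intro i s0 s1 s2 s3 s4 s5 e0 e1 e2 e3 e4 e5
    refine ⟨e0, ih (i + 1) _ _ _ _ _ _ e1 ?_ ?_ ?_ ?_ ?_⟩
    · rw [e2]
    · rw [e3]
    · rw [e4]
    · rw [e5]
    · rw [rec6_spec hK, h1, h2, h3, h4, h5, h6, e0, e1, e2, e3, e4, e5]
      have := hf i
      have e : i + 1 + 5 = i + 6 := by ring
      rw [e]
      linear_combination -this

theorem tab6_length (K c1 c2 c3 c4 c5 c6 n : ℕ) : ∀ s0 s1 s2 s3 s4 s5 : ℕ,
    (tab6 K c1 c2 c3 c4 c5 c6 n s0 s1 s2 s3 s4 s5).length = n := by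
  induction n with
  | zero => intros; rfl
  | succ n ih => intros; rw [tab6, List.length_cons, ih]

theorem seqT_spec {K : ℕ} (hK : Msk R K) (x : ℕ) {L : ℕ} {cs : List (List ℕ)}
    {M : List (List (List ℕ))} (h : chkT L cs M = true) {V : ℕ → ℕ → R}
    (hV : Agr L (evT (x : R) M) V) (X : ℕ → Bool) (n : ℕ) :
    Sp (fun n => HH L (x : R) X (It L (x : R) V n)) 0 (seqT K x cs n (inits L X 6 M)) := by
  refine tab6_spec hK (rec_HH h (x : R) hV X) (evN_cast _ _) (evN_cast _ _) (evN_cast _ _)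
    (evN_cast _ _) (evN_cast _ _) (evN_cast _ _) n 0 _ _ _ _ _ _ ?_ ?_ ?_ ?_ ?_ ?_ <;>
  · rw [evN_cast]
    exact inits_getD L (x : R) X 6 hV _ (by omega)

theorem seqT_length (K x : ℕ) (cs : List (List ℕ)) (n : ℕ) (is : List (List ℕ)) :
    (seqT K x cs n is).length = n := tab6_length _ _ _ _ _ _ _ _ _ _ _ _ _ _

theorem Ctab_spec {K : ℕ} (hK : Msk R K) (x : ℕ) {L : ℕ} {Y : ℕ → Bool}
    (h : chkT L (rcL L) (stepT L (stepT L (tabC L Y))) = true) (X : ℕ → Bool) (n : ℕ) :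
    Sp (Cp L (x : R) X Y) 0 (Ctab K x L X Y n) := by
  have h0 := tabC_agr L (x : R) Y
  have h1 : Agr L (evT (x : R) (stepT L (tabC L Y))) (It L (x : R) (VC Y) 1) :=
    evT_stepN L (x : R) h0 1
  have h2 : Agr L (evT (x : R) (stepT L (stepT L (tabC L Y)))) (It L (x : R) (VC Y) 2) :=
    evT_stepN L (x : R) h0 2
  refine ⟨by simp [Cp], ?_, ?_, ?_⟩
  · rw [evN_cast, ev_headT]; exact HH_congr _ X h0
  · rw [evN_cast, ev_headT]; exact HH_congr _ X h1
  · refine Sp_shift (f := Cp L (x : R) X Y) (i := 0) (c := 3) ?_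
    refine Sp_congr (seqT_spec hK x h h2 X (n - 2)) fun j _ => ?_
    rw [It_add, add_comm 2 j]
    rfl

theorem Ctab_length (K x L : ℕ) (X Y : ℕ → Bool) (n : ℕ) (hn : 2 ≤ n) :
    (Ctab K x L X Y n).length = n + 1 := by
  rw [Ctab, List.length_cons, List.length_cons, List.length_cons, seqT_length]
  omega

theorem inter_spec {f g h : ℕ → R} {l m : List ℕ} {i c : ℕ} (hl : Sp f i l) (hm : Sp g i m)
    (hf : ∀ j, h (2 * j + c) = f j) (hg : ∀ j, h (2 * j + c + 1) = g j) :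
    Sp h (2 * i + c) (inter l m) := by
  induction l generalizing i m with
  | nil => trivial
  | cons a l ih =>
    cases m with
    | nil => trivial
    | cons b m =>
      refine ⟨?_, ?_, ?_⟩
      · rw [hf]; exact hl.1
      · rw [hg]; exact hm.1
      · have := ih hl.2 hm.2
        rwa [show 2 * (i + 1) + c = 2 * i + c + 1 + 1 by ring] at this

theorem inter_length (l m : List ℕ) (h : l.length = m.length) :
    (inter l m).length = 2 * l.length := by
  induction l generalizing m with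
  | nil => rfl
  | cons a l ih =>
    cases m with
    | nil => simp at h
    | cons b m =>
      rw [inter, List.length_cons, List.length_cons, ih m (by simpa using h), List.length_cons]
      ring

theorem DIt_even (L : ℕ) (x : R) (m : ℕ) : DIt L x (2 * m) = It L x VE m := by
  induction m with
  | zero => rfl
  | succ m ih =>
    rw [show 2 * (m + 1) = 2 * m + 2 by ring, DIt, ih]; rfl

theorem DIt_odd (L : ℕ) (x : R) (m : ℕ) : DIt L x (2 * m + 1) = It L x (VO L x) m := by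
  induction m with
  | zero => rfl
  | succ m ih =>
    rw [show 2 * (m + 1) + 1 = (2 * m + 1) + 2 by ring, DIt, ih]; rfl

theorem Dtab_spec {K : ℕ} (hK : Msk R K) (x : ℕ) {L : ℕ}
    (hE : chkT L (rdL L) (tabE L) = true) (hO : chkT L (rdL L) (tabO L) = true)
    (X : ℕ → Bool) (n : ℕ) :
    Sp (Dp L (x : R) X) 0 (Dtab K x L X n) := by
  refine ⟨by simp [Dp], ?_, ?_⟩
  · rw [evN_cast, cen1, ev_sumR]
    show _ = ∑ k ∈ range L, if L ≤ 2 * k + 2 ∧ X k = true then (x : R) ^ (k + 1) else 0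
    refine Finset.sum_congr rfl fun k _ => ?_
    split_ifs with h
    · rw [ev_shL]; simp
    · rfl
  · refine inter_spec (i := 0) (c := 2) (seqT_spec hK x hE (tabE_agr L (x : R)) X (n / 2))
      (seqT_spec hK x hO (tabO_agr L (x : R)) X (n / 2)) ?_ ?_
    · intro j
      show HH L (x : R) X (DIt L (x : R) (2 * j)) = _
      rw [DIt_even]
    · intro j
      show HH L (x : R) X (DIt L (x : R) (2 * j + 1)) = _
      rw [DIt_odd]

theorem Dtab_length (K x L : ℕ) (X : ℕ → Bool) (n : ℕ) :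
    n + 1 ≤ (Dtab K x L X n).length := by
  rw [Dtab, List.length_cons, List.length_cons, inter_length _ _ (by rw [seqT_length, seqT_length]),
    seqT_length]
  omega

/-! closed forms for the regions -/

/-- complete homogeneous sums -/
def Kk (c1 c0 : R) : ℕ → R
  | 0 => 1
  | k + 1 => c0 * Kk c1 c0 k + c1 ^ (k + 1)

/-- shifted -/
def Kp (c1 c0 : R) : ℕ → R
  | 0 => 0
  | k + 1 => Kk c1 c0 k

theorem Kk_eq (c1 c0 : R) (k : ℕ) : Kk c1 c0 k = c0 * Kp c1 c0 k + c1 ^ k := by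
  cases k with
  | zero => simp [Kk, Kp]
  | succ k => rfl

/-- convolution -/
def QQ (c1 d1 c0 d0 : R) (d : ℕ) : R :=
  ∑ b ∈ range (d + 1), (c1 ^ (b / 2) * d1 ^ (b % 2)) * (c0 ^ ((d - b) / 2) * d0 ^ ((d - b) % 2))

theorem QQ_two (c1 d1 c0 d0 : R) (d : ℕ) :
    QQ c1 d1 c0 d0 (d + 2) = c0 * QQ c1 d1 c0 d0 d +
      (c1 ^ ((d + 1) / 2) * d1 ^ ((d + 1) % 2)) * d0 + c1 ^ ((d + 2) / 2) * d1 ^ ((d + 2) % 2) := by
  rw [QQ, Finset.sum_range_succ, Finset.sum_range_succ, QQ, Finset.mul_sum]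
  congr 1
  · congr 1
    · refine Finset.sum_congr rfl fun b hb => ?_
      rw [Finset.mem_range] at hb
      have e1 : (d + 2 - b) / 2 = (d - b) / 2 + 1 := by omega
      have e2 : (d + 2 - b) % 2 = (d - b) % 2 := by omega
      rw [e1, e2, pow_succ]; ring
    · have e1 : d + 2 - (d + 1) = 1 := by omega
      rw [e1]; simp
  · simp

theorem QQ_spec (c1 d1 c0 d0 : R) (k : ℕ) :
    QQ c1 d1 c0 d0 (2 * k) = Kk c1 c0 k + d0 * d1 * Kp c1 c0 k ∧
    QQ c1 d1 c0 d0 (2 * k + 1) = (d0 + d1) * Kk c1 c0 k := by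
  induction k with
  | zero =>
    constructor
    · simp [QQ, Kk, Kp]
    · simp [QQ, Kk, Finset.sum_range_succ]
  | succ k ih =>
    have a1 : (2 * k + 1) / 2 = k := by omega
    have a2 : (2 * k + 1) % 2 = 1 := by omega
    have a3 : (2 * k + 2) / 2 = k + 1 := by omega
    have a4 : (2 * k + 2) % 2 = 0 := by omega
    have a5 : (2 * k + 1 + 1) / 2 = k + 1 := by omega
    have a6 : (2 * k + 1 + 1) % 2 = 0 := by omega
    have a7 : (2 * k + 1 + 2) / 2 = k + 1 := by omega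
    have a8 : (2 * k + 1 + 2) % 2 = 1 := by omega
    constructor
    · rw [show 2 * (k + 1) = 2 * k + 2 by ring, QQ_two, ih.1, a1, a2, a3, a4]
      have := Kk_eq c1 c0 k
      show _ = c0 * Kk c1 c0 k + c1 ^ (k + 1) + d0 * d1 * Kk c1 c0 k
      linear_combination (-d0 * d1) * this
    · rw [show 2 * (k + 1) + 1 = 2 * k + 1 + 2 by ring, QQ_two, ih.2, a5, a6, a7, a8]
      show _ = (d0 + d1) * (c0 * Kk c1 c0 k + c1 ^ (k + 1))
      ring

theorem Fg_QQ (L : ℕ) (x : R) (a d : ℕ) :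
    Fg L x a d + Grp L x tt (a + 1) d = QQ (Cp L x tt tt (a + 1)) (Dp L x tt (a + 1))
      (Cp L x tt tt a) (Dp L x tt a) d := by
  rw [QQ, Finset.sum_range_succ, Fg]
  congr 1
  rw [Grp]; simp

theorem Fg_odd (L : ℕ) (x : R) (a k : ℕ) :
    Fg L x a (2 * k + 1) = Dp L x tt a * Kk (Cp L x tt tt (a + 1)) (Cp L x tt tt a) k +
      (Cp L x tt tt a * Dp L x tt (a + 1)) * Kp (Cp L x tt tt (a + 1)) (Cp L x tt tt a) k := by
  have h := Fg_QQ L x a (2 * k + 1)
  rw [(QQ_spec _ _ _ _ k).2, Grp] at h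
  have a1 : (2 * k + 1) / 2 = k := by omega
  have a2 : (2 * k + 1) % 2 = 1 := by omega
  rw [a1, a2] at h
  have := Kk_eq (Cp L x tt tt (a + 1)) (Cp L x tt tt a) k
  linear_combination h + Dp L x tt (a + 1) * this

theorem Fg_even (L : ℕ) (x : R) (a k : ℕ) :
    Fg L x a (2 * k + 2) = (Cp L x tt tt a + Dp L x tt a * Dp L x tt (a + 1)) *
      Kk (Cp L x tt tt (a + 1)) (Cp L x tt tt a) k := by
  have h := Fg_QQ L x a (2 * k + 2)
  rw [show 2 * k + 2 = 2 * (k + 1) by ring, (QQ_spec _ _ _ _ (k + 1)).1, Grp] at h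
  have a1 : (2 * (k + 1)) / 2 = k + 1 := by omega
  have a2 : (2 * (k + 1)) % 2 = 0 := by omega
  rw [a1, a2] at h
  have e : Kk (Cp L x tt tt (a + 1)) (Cp L x tt tt a) (k + 1) = Cp L x tt tt a *
    Kk (Cp L x tt tt (a + 1)) (Cp L x tt tt a) k + Cp L x tt tt (a + 1) ^ (k + 1) := rfl
  have e' : Kp (Cp L x tt tt (a + 1)) (Cp L x tt tt a) (k + 1) =
    Kk (Cp L x tt tt (a + 1)) (Cp L x tt tt a) k := rfl
  rw [e, e'] at h
  rw [show 2 * k + 2 = 2 * (k + 1) by ring]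
  linear_combination h

theorem Fa_two (L : ℕ) (x : R) (a d : ℕ) :
    Fa L x a (d + 2) = Cp L x t2 e1 a * QQ (Cp L x t2 t2 (a + 1)) (Dp L x t2 (a + 1))
      (Cp L x t2 t2 a) (Dp L x t2 a) d + Grp L x t2 (a + 1) (d + 1) * Dp L x e1 a := by
  rw [Fa, Finset.sum_range_succ, QQ, Finset.mul_sum]
  congr 1
  · refine Finset.sum_congr rfl fun b hb => ?_
    rw [Finset.mem_range] at hb
    have e1 : d + 2 - b = (d - b) + 2 := by omega
    rw [e1, GrpS, Grp, Grp]; ring
  · have e1 : d + 2 - (d + 1) = 1 := by omega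
    rw [e1, GrpS]

theorem Fa_odd (L : ℕ) (x : R) (a k : ℕ) :
    Fa L x a (2 * k + 1) = Dp L x e1 a * Cp L x t2 t2 (a + 1) ^ k +
      (Cp L x t2 e1 a * (Dp L x t2 a + Dp L x t2 (a + 1))) *
        Kp (Cp L x t2 t2 (a + 1)) (Cp L x t2 t2 a) k := by
  cases k with
  | zero => simp [Fa, Kp, Grp, GrpS]
  | succ k =>
    rw [show 2 * (k + 1) + 1 = (2 * k + 1) + 2 by ring, Fa_two, (QQ_spec _ _ _ _ k).2, Grp]
    have a1 : (2 * k + 1 + 1) / 2 = k + 1 := by omega
    have a2 : (2 * k + 1 + 1) % 2 = 0 := by omega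
    rw [a1, a2, Kp]; ring

theorem Fa_even (L : ℕ) (x : R) (a k : ℕ) :
    Fa L x a (2 * k + 2) = Cp L x t2 e1 a * Kk (Cp L x t2 t2 (a + 1)) (Cp L x t2 t2 a) k +
      ((Cp L x t2 e1 a * (Dp L x t2 a * Dp L x t2 (a + 1))) *
        Kp (Cp L x t2 t2 (a + 1)) (Cp L x t2 t2 a) k +
      (Dp L x e1 a * Dp L x t2 (a + 1)) * Cp L x t2 t2 (a + 1) ^ k) := by
  rw [Fa_two, (QQ_spec _ _ _ _ k).1, Grp]
  have a1 : (2 * k + 1) / 2 = k := by omega
  have a2 : (2 * k + 1) % 2 = 1 := by omega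
  rw [a1, a2]; ring

/-! rows -/

/-- indicator -/
def ind (A a d : ℕ) (t : R) : R := if a * d ≤ A then t else 0

theorem rowF_length (K A a c1 c0 u1 u2 v1 : ℕ) (m : ℕ) : ∀ (S : List ℕ) (d k' k p : ℕ),
    S.length = 2 * m → (rowF K A a c1 c0 u1 u2 v1 S d k' k p).length = S.length := by
  induction m with
  | zero =>
    intro S d k' k p h
    rw [List.length_eq_zero_iff.mp h]; rfl
  | succ m ih =>
    intro S d k' k p h
    match S, h with
    | [], h => simp at h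
    | [s], h => simp at h; omega
    | s1 :: s2 :: S, h =>
      rw [rowF]
      split_ifs
      · simp only [List.length_cons] at h ⊢
        rw [ih S _ _ _ _ (by omega)]
      · simp only [List.length_cons] at h ⊢
        rw [ih S _ _ _ _ (by omega)]
      · rfl

theorem rowF_spec {K : ℕ} (hK : Msk R K) (A a : ℕ) {c1 c0 u1 u2 v1 : ℕ} {C1 C0 : R} {F : ℕ → R}
    (h1 : (c1 : R) = C1) (h0 : (c0 : R) = C0)
    (hodd : ∀ k, F (2 * k + 1) = u1 * Kk C1 C0 k + u2 * Kp C1 C0 k)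
    (heven : ∀ k, F (2 * k + 2) = v1 * Kk C1 C0 k) (f : ℕ → R) (m : ℕ) :
    ∀ (S : List ℕ) (j k' k p : ℕ), S.length = 2 * m → (k' : R) = Kp C1 C0 j →
      (k : R) = Kk C1 C0 j → (p : R) = C1 ^ j → Sp f (2 * j + 1) S →
      Sp (fun d => f d + ind A a d (F d)) (2 * j + 1) (rowF K A a c1 c0 u1 u2 v1 S (2 * j + 1) k' k p) := by
  induction m with
  | zero =>
    intro S j k' k p h _ _ _ _
    rw [List.length_eq_zero_iff.mp h]; trivial
  | succ m ih =>
    intro S j k' k p h e1 e2 e3 hS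
    match S, h, hS with
    | [], h, _ => simp at h
    | [s], h, _ => simp at h; omega
    | s1 :: s2 :: S, h, ⟨g1, g2, g3⟩ =>
      rw [rowF]
      have hl : S.length = 2 * m := by simp only [List.length_cons] at h; omega
      have n1 : ((Nat.land (Nat.add (Nat.mul c0 k) (mm K c1 p)) K : ℕ) : R) = Kk C1 C0 (j + 1) := by
        rw [hK.land, cadd, cmul, hK.mm, h0, h1, e2, e3, Kk]; ring
      have n2 : ((mm K c1 p : ℕ) : R) = C1 ^ (j + 1) := by rw [hK.mm, h1, e3]; ring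
      have n3 := ih S (j + 1) k (Nat.land (Nat.add (Nat.mul c0 k) (mm K c1 p)) K) (mm K c1 p) hl e2
        n1 n2 g3
      split_ifs with h5 h6
      · refine ⟨?_, ?_, n3⟩
        · change _ = f (2 * j + 1) + ind A a (2 * j + 1) (F (2 * j + 1))
          rw [cadd, hK.land, cadd, cmul, cmul, g1, e1, e2, ind, if_pos h5, hodd]
        · change _ = f (2 * j + 2) + ind A a (2 * j + 2) (F (2 * j + 2))
          have h6' : a * (2 * j + 2) ≤ A := h6
          have g2' : (s2 : R) = f (2 * j + 2) := g2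
          rw [cadd, hK.mm, g2', e2, ind, if_pos h6', heven]
      · refine ⟨?_, ?_, n3⟩
        · change _ = f (2 * j + 1) + ind A a (2 * j + 1) (F (2 * j + 1))
          rw [cadd, hK.land, cadd, cmul, cmul, g1, e1, e2, ind, if_pos h5, hodd]
        · change _ = f (2 * j + 2) + ind A a (2 * j + 2) (F (2 * j + 2))
          have h6' : ¬ a * (2 * j + 2) ≤ A := h6
          have g2' : (s2 : R) = f (2 * j + 2) := g2
          rw [g2', ind, if_neg h6', add_zero]
      · refine Sp_congr (f := f) ⟨g1, g2, g3⟩ fun d hd => ?_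
        rw [ind, if_neg, add_zero]
        have := Nat.mul_le_mul_left a hd
        omega

theorem rowG_length (K A a c1 c0 u2 u3 v1 v2 v3 : ℕ) (m : ℕ) : ∀ (S : List ℕ) (d k' k p : ℕ),
    S.length = 2 * m → (rowG K A a c1 c0 u2 u3 v1 v2 v3 S d k' k p).length = S.length := by
  induction m with
  | zero =>
    intro S d k' k p h
    rw [List.length_eq_zero_iff.mp h]; rfl
  | succ m ih =>
    intro S d k' k p h
    match S, h with
    | [], h => simp at h
    | [s], h => simp at h; omega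
    | s1 :: s2 :: S, h =>
      rw [rowG]
      split_ifs
      · simp only [List.length_cons] at h ⊢
        rw [ih S _ _ _ _ (by omega)]
      · simp only [List.length_cons] at h ⊢
        rw [ih S _ _ _ _ (by omega)]
      · rfl

theorem rowG_spec {K : ℕ} (hK : Msk R K) (A a : ℕ) {c1 c0 u2 u3 v1 v2 v3 : ℕ} {C1 C0 : R}
    {F : ℕ → R} (h1 : (c1 : R) = C1) (h0 : (c0 : R) = C0)
    (hodd : ∀ k, F (2 * k + 1) = u3 * C1 ^ k + u2 * Kp C1 C0 k)
    (heven : ∀ k, F (2 * k + 2) = v1 * Kk C1 C0 k + (v2 * Kp C1 C0 k + v3 * C1 ^ k))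
    (f : ℕ → R) (m : ℕ) :
    ∀ (S : List ℕ) (j k' k p : ℕ), S.length = 2 * m → (k' : R) = Kp C1 C0 j →
      (k : R) = Kk C1 C0 j → (p : R) = C1 ^ j → Sp f (2 * j + 1) S →
      Sp (fun d => f d + ind A a d (F d)) (2 * j + 1)
        (rowG K A a c1 c0 u2 u3 v1 v2 v3 S (2 * j + 1) k' k p) := by
  induction m with
  | zero =>
    intro S j k' k p h _ _ _ _
    rw [List.length_eq_zero_iff.mp h]; trivial
  | succ m ih =>
    intro S j k' k p h e1 e2 e3 hS
    match S, h, hS with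
    | [], h, _ => simp at h
    | [s], h, _ => simp at h; omega
    | s1 :: s2 :: S, h, ⟨g1, g2, g3⟩ =>
      rw [rowG]
      have hl : S.length = 2 * m := by simp only [List.length_cons] at h; omega
      have n1 : ((Nat.land (Nat.add (Nat.mul c0 k) (mm K c1 p)) K : ℕ) : R) = Kk C1 C0 (j + 1) := by
        rw [hK.land, cadd, cmul, hK.mm, h0, h1, e2, e3, Kk]; ring
      have n2 : ((mm K c1 p : ℕ) : R) = C1 ^ (j + 1) := by rw [hK.mm, h1, e3]; ring
      have n3 := ih S (j + 1) k (Nat.land (Nat.add (Nat.mul c0 k) (mm K c1 p)) K) (mm K c1 p) hl e2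
        n1 n2 g3
      split_ifs with h5 h6
      · refine ⟨?_, ?_, n3⟩
        · change _ = f (2 * j + 1) + ind A a (2 * j + 1) (F (2 * j + 1))
          rw [cadd, hK.land, cadd, cmul, cmul, g1, e1, e3, ind, if_pos h5, hodd]
        · change _ = f (2 * j + 2) + ind A a (2 * j + 2) (F (2 * j + 2))
          have h6' : a * (2 * j + 2) ≤ A := h6
          have g2' : (s2 : R) = f (2 * j + 2) := g2
          rw [cadd, hK.land, cadd, cadd, cmul, cmul, cmul, g2', e1, e2, e3, ind, if_pos h6', heven]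
      · refine ⟨?_, ?_, n3⟩
        · change _ = f (2 * j + 1) + ind A a (2 * j + 1) (F (2 * j + 1))
          rw [cadd, hK.land, cadd, cmul, cmul, g1, e1, e3, ind, if_pos h5, hodd]
        · change _ = f (2 * j + 2) + ind A a (2 * j + 2) (F (2 * j + 2))
          have h6' : ¬ a * (2 * j + 2) ≤ A := h6
          have g2' : (s2 : R) = f (2 * j + 2) := g2
          rw [g2', ind, if_neg h6', add_zero]
      · refine Sp_congr (f := f) ⟨g1, g2, g3⟩ fun d hd => ?_
        rw [ind, if_neg, add_zero]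
        have := Nat.mul_le_mul_left a hd
        omega

theorem pre_spec {K : ℕ} (hK : Msk R K) {c1 c0 : ℕ} {C1 C0 : R}
    (h1 : (c1 : R) = C1) (h0 : (c0 : R) = C0) (P : List ℕ → Prop) (n : ℕ) :
    ∀ (j k' k p : ℕ) (f : ℕ → ℕ → ℕ → List ℕ), (k' : R) = Kp C1 C0 j →
      (k : R) = Kk C1 C0 j → (p : R) = C1 ^ j →
      (∀ k' k p : ℕ, (k' : R) = Kp C1 C0 (j + n) → (k : R) = Kk C1 C0 (j + n) →
        (p : R) = C1 ^ (j + n) → P (f k' k p)) → P (pre K c1 c0 n k' k p f) := by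
  induction n with
  | zero => intro j k' k p f e1 e2 e3 h; exact h k' k p e1 e2 e3
  | succ n ih =>
    intro j k' k p f e1 e2 e3 h
    rw [pre]
    have n1 : ((Nat.land (Nat.add (Nat.mul c0 k) (mm K c1 p)) K : ℕ) : R) = Kk C1 C0 (j + 1) := by
      rw [hK.land, cadd, cmul, hK.mm, h0, h1, e2, e3, Kk]; ring
    have n2 : ((mm K c1 p : ℕ) : R) = C1 ^ (j + 1) := by rw [hK.mm, h1, e3]; ring
    refine ih (j + 1) k _ _ f e2 n1 n2 ?_
    rw [show j + 1 + n = j + (n + 1) by ring]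
    exact h

theorem rowsF_spec {K : ℕ} (hK : Msk R K) (A k0 L : ℕ) (x : R) (m : ℕ) (n : ℕ) :
    ∀ (a : ℕ) (C D S : List ℕ) (f : ℕ → R), n + 1 ≤ C.length → n + 1 ≤ D.length →
      Sp (Cp L x tt tt) a C → Sp (Dp L x tt) a D → S.length = 2 * m → Sp f (2 * k0 + 1) S →
      Sp (fun d => f d + ∑ i ∈ range n, ind A (a + i) d (Fg L x (a + i) d)) (2 * k0 + 1)
        (rowsF K A k0 n a C D S) ∧ (rowsF K A k0 n a C D S).length = 2 * m := by
  induction n with
  | zero =>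
    intro a C D S f _ _ _ _ hm hS
    have e : rowsF K A k0 0 a C D S = S := by
      rw [rowsF]; intros; omega
    rw [e]
    exact ⟨Sp_congr hS fun d _ => by simp, hm⟩
  | succ n ih =>
    intro a C D S f hC hD sC sD hm hS
    match C, D, hC, hD, sC, sD with
    | c0 :: c1 :: C, d0 :: d1 :: D, hC, hD, ⟨g0, g1, g2⟩, ⟨q0, q1, q2⟩ =>
      have key : Sp (fun d => f d + ind A a d (Fg L x a d)) (2 * k0 + 1)
          (pre K c1 c0 k0 0 1 1 fun k' k p =>
            rowF K A a c1 c0 d0 (mm K c0 d1) (Nat.add c0 (mm K d0 d1)) S (2 * k0 + 1) k' k p) ∧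
          (pre K c1 c0 k0 0 1 1 fun k' k p =>
            rowF K A a c1 c0 d0 (mm K c0 d1) (Nat.add c0 (mm K d0 d1)) S (2 * k0 + 1) k' k p).length
            = 2 * m := by
        refine pre_spec hK g1 g0 (fun l => Sp (fun d => f d + ind A a d (Fg L x a d))
          (2 * k0 + 1) l ∧ l.length = 2 * m) k0 0 0 1 1 _ (by simp [Kp]) (by simp [Kk]) (by simp) ?_
        intro k' k p e1 e2 e3
        rw [Nat.zero_add] at e1 e2 e3
        refine ⟨?_, ?_⟩
        · refine rowF_spec hK A a (F := Fg L x a) g1 g0 ?_ ?_ f m S k0 k' k p hm e1 e2 e3 hS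
          · intro j
            rw [Fg_odd, hK.mm, q0, g0, q1]
          · intro j
            rw [Fg_even, cadd, hK.mm, q0, g0, q1]
        · rw [rowF_length K A a c1 c0 _ _ _ m S _ _ _ _ hm, hm]
      obtain ⟨r1, r2⟩ := ih (a + 1) (c1 :: C) (d1 :: D) _ _ (by simpa using hC) (by simpa using hD)
        ⟨g1, g2⟩ ⟨q1, q2⟩ key.2 key.1
      refine ⟨Sp_congr r1 fun d _ => ?_, r2⟩
      rw [Finset.sum_range_succ', add_zero, add_assoc]
      congr 1
      rw [add_comm]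
      congr 1
      refine Finset.sum_congr rfl fun i _ => ?_
      rw [show a + 1 + i = a + (i + 1) by ring]

theorem rowsG_spec {K : ℕ} (hK : Msk R K) (A k0 L : ℕ) (x : R) (m : ℕ) (n : ℕ) :
    ∀ (a : ℕ) (C D E F S : List ℕ) (f : ℕ → R), n + 1 ≤ C.length → n + 1 ≤ D.length →
      n ≤ E.length → n ≤ F.length →
      Sp (Cp L x t2 t2) a C → Sp (Dp L x t2) a D → Sp (Dp L x e1) a E → Sp (Cp L x t2 e1) a F →
      S.length = 2 * m → Sp f (2 * k0 + 1) S →
      Sp (fun d => f d + ∑ i ∈ range n, ind A (a + i) d (Fa L x (a + i) d)) (2 * k0 + 1)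
        (rowsG K A k0 n a C D E F S) ∧ (rowsG K A k0 n a C D E F S).length = 2 * m := by
  induction n with
  | zero =>
    intro a C D E F S f _ _ _ _ _ _ _ _ hm hS
    have e : rowsG K A k0 0 a C D E F S = S := by
      rw [rowsG]; intros; omega
    rw [e]
    exact ⟨Sp_congr hS fun d _ => by simp, hm⟩
  | succ n ih =>
    intro a C D E F S f hC hD hE hF sC sD sE sF hm hS
    match C, D, E, F, hC, hD, hE, hF, sC, sD, sE, sF with
    | c0 :: c1 :: C, d0 :: d1 :: D, e0 :: E, f0 :: F, hC, hD, hE, hF, ⟨g0, g1, g2⟩, ⟨q0, q1, q2⟩,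
        ⟨y0, y1⟩, ⟨z0, z1⟩ =>
      have key : Sp (fun d => f d + ind A a d (Fa L x a d)) (2 * k0 + 1)
          (pre K c1 c0 k0 0 1 1 fun k' k p =>
            rowG K A a c1 c0 (mm K f0 (Nat.add d0 d1)) e0 f0 (mm K f0 (mm K d0 d1)) (mm K e0 d1) S
              (2 * k0 + 1) k' k p) ∧
          (pre K c1 c0 k0 0 1 1 fun k' k p =>
            rowG K A a c1 c0 (mm K f0 (Nat.add d0 d1)) e0 f0 (mm K f0 (mm K d0 d1)) (mm K e0 d1) S
              (2 * k0 + 1) k' k p).length = 2 * m := by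
        refine pre_spec hK g1 g0 (fun l => Sp (fun d => f d + ind A a d (Fa L x a d))
          (2 * k0 + 1) l ∧ l.length = 2 * m) k0 0 0 1 1 _ (by simp [Kp]) (by simp [Kk]) (by simp) ?_
        intro k' k p e1' e2 e3
        rw [Nat.zero_add] at e1' e2 e3
        refine ⟨?_, ?_⟩
        · refine rowG_spec hK A a (F := Fa L x a) g1 g0 ?_ ?_ f m S k0 k' k p hm e1' e2 e3 hS
          · intro j
            rw [Fa_odd, hK.mm, cadd, q0, q1, y0, z0]
          · intro j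
            rw [Fa_even, hK.mm, hK.mm, hK.mm, q0, q1, y0, z0]
        · rw [rowG_length K A a c1 c0 _ _ _ _ _ m S _ _ _ _ hm, hm]
      obtain ⟨r1, r2⟩ := ih (a + 1) (c1 :: C) (d1 :: D) E F _ _ (by simpa using hC)
        (by simpa using hD) (by simpa using hE) (by simpa using hF)
        ⟨g1, g2⟩ ⟨q1, q2⟩ y1 z1 key.2 key.1
      refine ⟨Sp_congr r1 fun d _ => ?_, r2⟩
      rw [Finset.sum_range_succ', add_zero, add_assoc]
      congr 1
      rw [add_comm]
      congr 1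
      refine Finset.sum_congr rfl fun i _ => ?_
      rw [show a + 1 + i = a + (i + 1) by ring]

theorem zeros_length (n : ℕ) : (zeros n).length = n := by
  induction n with
  | zero => rfl
  | succ n ih => rw [zeros, List.length_cons, ih]

theorem zeros_spec (n : ℕ) : ∀ i, Sp (fun _ => (0 : R)) i (zeros n) := by
  induction n with
  | zero => intro i; trivial
  | succ n ih => intro i; exact ⟨by simp, ih _⟩

/-! final sums -/

theorem BB_succ (q : ℕ) (x : R) (d : ℕ) :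
    BB q x (d + 2) = Pp (q - 1) x (zl2 (q - 1)) * BB q x (d + 1) + yy q x d := by
  rw [BB, BB, show d + 2 - 1 = d + 1 by omega, show d + 1 - 1 = d by omega,
    Finset.sum_range_succ, Finset.mul_sum]
  congr 1
  · refine Finset.sum_congr rfl fun r hr => ?_
    rw [Finset.mem_range] at hr
    rw [show d + 2 - 2 - r = (d + 1 - 2 - r) + 1 by omega, pow_succ]; ring
  · rw [show d + 2 - 2 - d = 0 by omega]; simp

theorem yy_two (q : ℕ) (x : R) (d : ℕ) : yy q x (d + 2) = Pp q x (zr2 q) * yy q x d := by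
  rw [yy, yy, show (d + 2) / 2 = d / 2 + 1 by omega, show (d + 2) % 2 = d % 2 by omega, pow_succ]
  ring

theorem ev_pairL (L : ℕ) (x : R) (Z : ℕ → ℕ → Bool) : ev x (pairL L Z) = Pp L x Z := by
  rw [pairL, ev_sumR, Pp, Finset.sum_product]
  refine Finset.sum_congr rfl fun c _ => ?_
  rw [ev_sumR]
  refine Finset.sum_congr rfl fun d _ => ?_
  split_ifs with h
  · rw [ev_shL]; simp
  · rfl

theorem ev_cenL (L : ℕ) (x : R) (Z : ℕ → Bool) : ev x (cenL L Z) = Cn L x Z := by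
  rw [cenL, ev_sumR, Cn]
  refine Finset.sum_congr rfl fun c _ => ?_
  split_ifs with h
  · rw [ev_shL]; simp
  · rfl

theorem dotB_spec {K : ℕ} (hK : Msk R K) {q : ℕ} {x : R} {w1 w P : ℕ}
    (hw1 : (w1 : R) = Pp (q - 1) x (zl1 (q - 1))) (hw : (w : R) = Pp (q - 1) x (zl2 (q - 1)))
    (hP : (P : R) = Pp q x (zr2 q)) {f g : ℕ → R} (n : ℕ) :
    ∀ (i : ℕ) (Sa Sg : List ℕ) (b y0 y1 acc : ℕ), Sa.length = n → Sg.length = n →
      Sp f (i + 1) Sa → Sp g (i + 1) Sg → (b : R) = BB q x (i + 1) → (y0 : R) = yy q x i →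
      (y1 : R) = yy q x (i + 1) →
      ((dotB K w1 w P Sa Sg b y0 y1 acc : ℕ) : R) = acc + ∑ j ∈ range n,
        (f (i + 1 + j) + Pp (q - 1) x (zl1 (q - 1)) * BB q x (i + 1 + j)) * g (i + 1 + j) := by
  induction n with
  | zero =>
    intro i Sa Sg b y0 y1 acc h1 h2 _ _ _ _ _
    rw [List.length_eq_zero_iff.mp h1, List.length_eq_zero_iff.mp h2]
    simp [dotB]
  | succ n ih =>
    intro i Sa Sg b y0 y1 acc h1 h2 s1 s2 hb hy0 hy1
    match Sa, Sg, h1, h2, s1, s2 with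
    | sa :: Sa, sg :: Sg, h1, h2, ⟨r1, r2⟩, ⟨t1, t2⟩ =>
      rw [dotB, ih (i + 1) Sa Sg _ _ _ _ (by simpa using h1) (by simpa using h2) r2 t2
        (by rw [hK.land, cadd, cmul, hb, hw, hy0, ← BB_succ]) hy1
        (by rw [hK.mm, hP, hy0, ← yy_two]), Finset.sum_range_succ']
      rw [cadd, hK.mm, cadd, cmul, hw1, hb, r1, t1, add_zero]
      have : ∀ j, i + 1 + 1 + j = i + 1 + (j + 1) := fun j => by ring
      simp only [this]
      ring

theorem preB_spec {K : ℕ} (hK : Msk R K) {q : ℕ} {x : R} {w P : ℕ}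
    (hw : (w : R) = Pp (q - 1) x (zl2 (q - 1)))
    (hP : (P : R) = Pp q x (zr2 q)) (T : ℕ → Prop) (n : ℕ) :
    ∀ (i b y0 y1 : ℕ) (f : ℕ → ℕ → ℕ → ℕ), (b : R) = BB q x (i + 1) → (y0 : R) = yy q x i →
      (y1 : R) = yy q x (i + 1) → (∀ b y0 y1 : ℕ, (b : R) = BB q x (i + n + 1) →
      (y0 : R) = yy q x (i + n) → (y1 : R) = yy q x (i + n + 1) → T (f b y0 y1)) →
      T (preB K w P n b y0 y1 f) := by
  induction n with
  | zero => intro i b y0 y1 f h1 h2 h3 h; exact h b y0 y1 h1 h2 h3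
  | succ n ih =>
    intro i b y0 y1 f h1 h2 h3 h
    rw [preB]
    refine ih (i + 1) _ _ _ f (by rw [hK.land, cadd, cmul, h1, hw, h2, ← BB_succ]) h3
      (by rw [hK.mm, hP, h2, ← yy_two]) ?_
    rw [show i + 1 + n = i + (n + 1) by ring]
    exact h

end

end Pool.Agent.H502R2
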