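import Pool.Agent.H502R2.Bounds

/-!
Upper bound for the value at `5/8`.
-/

namespace Pool.Agent.H502R2

open Finset

/-! nonnegativity -/

theorem TT_nn {L : ℕ} {V : ℕ → ℕ → ℚ} (h : ∀ p r, 0 ≤ V p r) (p r : ℕ) :
    0 ≤ TT L (5 / 8 : ℚ) V p r := by
  rw [TT]
  refine Finset.sum_nonneg fun c _ => ?_
  split_ifs
  · exact mul_nonneg (by positivity) (h _ _)
  · exact le_rfl

theorem HH_nn {L : ℕ} (X : ℕ → Bool) {V : ℕ → ℕ → ℚ} (h : ∀ p r, 0 ≤ V p r) :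
    0 ≤ HH L (5 / 8 : ℚ) X V := by
  rw [HH]
  refine Finset.sum_nonneg fun c _ => ?_
  split_ifs
  · exact mul_nonneg (by positivity) (h _ _)
  · exact le_rfl

theorem It_nn {L : ℕ} {V : ℕ → ℕ → ℚ} (h : ∀ p r, 0 ≤ V p r) (n : ℕ) :
    ∀ p r, 0 ≤ It L (5 / 8 : ℚ) V n p r := by
  induction n with
  | zero => exact h
  | succ n ih => exact TT_nn ih

theorem VC_nn (Y : ℕ → Bool) (p r : ℕ) : (0 : ℚ) ≤ VC Y p r := by
  rw [VC]; split_ifs <;> norm_num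

theorem VE_nn (p r : ℕ) : (0 : ℚ) ≤ VE p r := by
  rw [VE]; split_ifs <;> norm_num

theorem VO_nn (L p r : ℕ) : (0 : ℚ) ≤ VO L (5 / 8 : ℚ) p r := by
  rw [VO]
  refine Finset.sum_nonneg fun c _ => ?_
  split_ifs
  · positivity
  · exact le_rfl

theorem Cp_nn (L : ℕ) (X Y : ℕ → Bool) (a : ℕ) : 0 ≤ Cp L (5 / 8 : ℚ) X Y a := by
  cases a with
  | zero => simp [Cp]
  | succ a => exact HH_nn X (It_nn (VC_nn Y) a)

theorem Dp_nn (L : ℕ) (X : ℕ → Bool) (a : ℕ) : 0 ≤ Dp L (5 / 8 : ℚ) X a := by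
  match a with
  | 0 => simp [Dp]
  | 1 =>
    show 0 ≤ ∑ k ∈ range L, if L ≤ 2 * k + 2 ∧ X k = true then (5 / 8 : ℚ) ^ (k + 1) else 0
    refine Finset.sum_nonneg fun c _ => ?_
    split_ifs
    · positivity
    · exact le_rfl
  | n + 2 =>
    show 0 ≤ HH L (5 / 8 : ℚ) X (DIt L (5 / 8 : ℚ) n)
    rcases Nat.even_or_odd' n with ⟨m, rfl | rfl⟩
    · rw [DIt_even]; exact HH_nn X (It_nn VE_nn m)
    · rw [DIt_odd]; exact HH_nn X (It_nn (VO_nn L) m)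

theorem Grp_nn (L : ℕ) (X : ℕ → Bool) (a s : ℕ) : 0 ≤ Grp L (5 / 8 : ℚ) X a s :=
  mul_nonneg (pow_nonneg (Cp_nn _ _ _ _) _) (pow_nonneg (Dp_nn _ _ _) _)

theorem GrpS_nn (L : ℕ) (X Z : ℕ → Bool) (a s : ℕ) : 0 ≤ GrpS L (5 / 8 : ℚ) X Z a s := by
  match s with
  | 0 => simp [GrpS]
  | 1 => exact Dp_nn _ _ _
  | s + 2 => exact mul_nonneg (Cp_nn _ _ _ _) (Grp_nn _ _ _ _)

theorem Pp_nn (L : ℕ) (Z : ℕ → ℕ → Bool) : 0 ≤ Pp L (5 / 8 : ℚ) Z := by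
  rw [Pp]
  refine Finset.sum_nonneg fun c _ => ?_
  split_ifs
  · positivity
  · exact le_rfl

theorem Cn_nn (L : ℕ) (Z : ℕ → Bool) : 0 ≤ Cn L (5 / 8 : ℚ) Z := by
  rw [Cn]
  refine Finset.sum_nonneg fun c _ => ?_
  split_ifs
  · positivity
  · exact le_rfl

/-! powers -/

theorem pw_le {C D t : ℚ} (hC0 : 0 ≤ C) (hD0 : 0 ≤ D) (ht : 0 ≤ t) (hC : C ≤ t ^ 2) (hD : D ≤ t)
    (s : ℕ) : C ^ (s / 2) * D ^ (s % 2) ≤ t ^ s := by
  calc C ^ (s / 2) * D ^ (s % 2) ≤ (t ^ 2) ^ (s / 2) * t ^ (s % 2) :=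
        mul_le_mul (pow_le_pow_left₀ hC0 hC _) (pow_le_pow_left₀ hD0 hD _) (pow_nonneg hD0 _)
          (by positivity)
    _ = t ^ s := by
        rw [← pow_mul, ← pow_add, Nat.div_add_mod]

theorem GrpS_le {L a : ℕ} {t σ : ℚ} (ht : 0 ≤ t) (hσ : 0 ≤ σ)
    (hC : Cp L (5 / 8 : ℚ) t2 t2 a ≤ t ^ 2) (hD : Dp L (5 / 8 : ℚ) t2 a ≤ t)
    (hC1 : Cp L (5 / 8 : ℚ) t2 e1 a ≤ σ * t ^ 2) (hD1 : Dp L (5 / 8 : ℚ) e1 a ≤ σ * t)
    (s : ℕ) (hs : 1 ≤ s) : GrpS L (5 / 8 : ℚ) t2 e1 a s ≤ σ * t ^ s := by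
  match s, hs with
  | 1, _ => simpa [GrpS] using hD1
  | s + 2, _ =>
    show Cp L (5 / 8 : ℚ) t2 e1 a * Grp L (5 / 8 : ℚ) t2 a s ≤ _
    calc Cp L (5 / 8 : ℚ) t2 e1 a * Grp L (5 / 8 : ℚ) t2 a s
        ≤ (σ * t ^ 2) * t ^ s := mul_le_mul hC1
          (pw_le (Cp_nn _ _ _ _) (Dp_nn _ _ _) ht hC hD s) (Grp_nn _ _ _ _) (by positivity)
      _ = σ * t ^ (s + 2) := by ring

/-! geometric sums -/

theorem gs1 (θ : ℚ) (m d : ℕ) : (1 - θ) * ∑ b ∈ range d, θ ^ (m + b) = θ ^ m - θ ^ (m + d) := by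
  induction d with
  | zero => simp
  | succ d ih => rw [Finset.sum_range_succ, mul_add, ih]; ring

theorem gs2 (θ : ℚ) (d n : ℕ) :
    (1 - θ) * ∑ a ∈ range n, ∑ b ∈ range d, θ ^ (a * d + b) = 1 - θ ^ (n * d) := by
  induction n with
  | zero => simp
  | succ n ih =>
    rw [Finset.sum_range_succ, mul_add, ih, gs1, show n * d + d = (n + 1) * d by ring]; ring

theorem gs2_le {θ : ℚ} (h0 : 0 ≤ θ) (h1 : θ < 1) (d n : ℕ) :
    ∑ a ∈ range n, ∑ b ∈ range d, θ ^ (a * d + b) ≤ 1 / (1 - θ) := by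
  rw [le_div_iff₀ (by linarith), mul_comm, gs2]
  have := pow_nonneg h0 (n * d)
  linarith

theorem gs_le {θ : ℚ} (h0 : 0 ≤ θ) (h1 : θ < 1) (n : ℕ) :
    ∑ b ∈ range n, θ ^ b ≤ 1 / (1 - θ) := by
  have h := gs1 θ 0 n
  simp only [Nat.zero_add, pow_zero] at h
  rw [le_div_iff₀ (by linarith), mul_comm, h]
  have := pow_nonneg h0 n
  linarith

theorem gs_half {w : ℚ} (h0 : 0 ≤ w) (h1 : w < 1) (n : ℕ) :
    ∑ b ∈ range n, w ^ (b / 2) ≤ 2 / (1 - w) := by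
  have h2 : ∀ m, ∑ b ∈ range (2 * m), w ^ (b / 2) = 2 * ∑ b ∈ range m, w ^ b := by
    intro m
    induction m with
    | zero => simp
    | succ m ih =>
      rw [show 2 * (m + 1) = 2 * m + 1 + 1 by ring, Finset.sum_range_succ, Finset.sum_range_succ,
        ih, Finset.sum_range_succ, show (2 * m) / 2 = m by omega,
        show (2 * m + 1) / 2 = m by omega]
      ring
  calc ∑ b ∈ range n, w ^ (b / 2) ≤ ∑ b ∈ range (2 * n), w ^ (b / 2) :=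
        Finset.sum_le_sum_of_subset_of_nonneg (Finset.range_subset_range.mpr (by omega))
          fun _ _ _ => pow_nonneg h0 _
    _ = 2 * ∑ b ∈ range n, w ^ b := h2 n
    _ ≤ 2 * (1 / (1 - w)) := mul_le_mul_of_nonneg_left (gs_le h0 h1 n) (by norm_num)
    _ = 2 / (1 - w) := by ring

/-! regions -/

theorem Sg_le {L : ℕ} {κ θ : ℚ} (hκ : 0 ≤ κ) (h0 : 0 ≤ θ) (h1 : θ < 1)
    (hC : ∀ a, Cp L (5 / 8 : ℚ) tt tt a ≤ (κ * θ ^ a) ^ 2)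
    (hD : ∀ a, Dp L (5 / 8 : ℚ) tt a ≤ κ * θ ^ a) (A d : ℕ) :
    Sg L (5 / 8 : ℚ) A d ≤ κ ^ d / (1 - θ) := by
  have hF : ∀ a, Fg L (5 / 8 : ℚ) a d ≤ κ ^ d * ∑ b ∈ range d, θ ^ (a * d + b) := by
    intro a
    rw [Fg, Finset.mul_sum]
    refine Finset.sum_le_sum fun b hb => ?_
    rw [Finset.mem_range] at hb
    calc Grp L (5 / 8 : ℚ) tt (a + 1) b * Grp L (5 / 8 : ℚ) tt a (d - b)
        ≤ (κ * θ ^ (a + 1)) ^ b * (κ * θ ^ a) ^ (d - b) :=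
          mul_le_mul (pw_le (Cp_nn _ _ _ _) (Dp_nn _ _ _) (by positivity) (hC _) (hD _) b)
            (pw_le (Cp_nn _ _ _ _) (Dp_nn _ _ _) (by positivity) (hC _) (hD _) (d - b))
            (Grp_nn _ _ _ _) (by positivity)
      _ = κ ^ d * θ ^ (a * d + b) := by
          obtain ⟨e, rfl⟩ := Nat.exists_eq_add_of_lt hb
          rw [show b + e + 1 - b = e + 1 by omega]
          ring
  rw [Sg]
  calc ∑ a ∈ range (A + 1), (if a * d ≤ A then Fg L (5 / 8 : ℚ) a d else 0)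
      ≤ ∑ a ∈ range (A + 1), κ ^ d * ∑ b ∈ range d, θ ^ (a * d + b) := by
        refine Finset.sum_le_sum fun a _ => ?_
        split_ifs
        · exact hF a
        · exact mul_nonneg (pow_nonneg hκ _) (Finset.sum_nonneg fun _ _ => pow_nonneg h0 _)
    _ = κ ^ d * ∑ a ∈ range (A + 1), ∑ b ∈ range d, θ ^ (a * d + b) := by rw [Finset.mul_sum]
    _ ≤ κ ^ d * (1 / (1 - θ)) :=
        mul_le_mul_of_nonneg_left (gs2_le h0 h1 d _) (pow_nonneg hκ _)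
    _ = κ ^ d / (1 - θ) := by ring

theorem Sg_nn (L A d : ℕ) : 0 ≤ Sg L (5 / 8 : ℚ) A d := by
  rw [Sg]
  refine Finset.sum_nonneg fun a _ => ?_
  split_ifs
  · exact Finset.sum_nonneg fun b _ => mul_nonneg (Grp_nn _ _ _ _) (Grp_nn _ _ _ _)
  · exact le_rfl

theorem Sa_nn (L A d : ℕ) : 0 ≤ Sa L (5 / 8 : ℚ) A d := by
  rw [Sa]
  refine Finset.sum_nonneg fun a _ => ?_
  split_ifs
  · exact Finset.sum_nonneg fun b _ => mul_nonneg (Grp_nn _ _ _ _) (GrpS_nn _ _ _ _ _)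
  · exact le_rfl

theorem Sa_le {L : ℕ} {c ν σ : ℚ} (hc : 0 ≤ c) (hσ : 0 ≤ σ) (h0 : 0 ≤ ν) (h1 : ν < 1)
    (hC2 : ∀ a, 1 ≤ a → Cp L (5 / 8 : ℚ) t2 t2 a ≤ (c * ν ^ (a - 2)) ^ 2)
    (hD2 : ∀ a, 1 ≤ a → Dp L (5 / 8 : ℚ) t2 a ≤ c * ν ^ (a - 2))
    (hC1 : ∀ a, 1 ≤ a → Cp L (5 / 8 : ℚ) t2 e1 a ≤ σ * (c * ν ^ (a - 2)) ^ 2)
    (hD1 : ∀ a, 1 ≤ a → Dp L (5 / 8 : ℚ) e1 a ≤ σ * (c * ν ^ (a - 2))) (A d : ℕ) :
    Sa L (5 / 8 : ℚ) A d ≤ σ * c ^ d * (d + 1 / (1 - ν)) := by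
  have hF : ∀ a, 1 ≤ a → Fa L (5 / 8 : ℚ) a d ≤
      ∑ b ∈ range d, (c * ν ^ (a + 1 - 2)) ^ b * (σ * (c * ν ^ (a - 2)) ^ (d - b)) := by
    intro a ha
    rw [Fa]
    refine Finset.sum_le_sum fun b hb => ?_
    rw [Finset.mem_range] at hb
    exact mul_le_mul (pw_le (Cp_nn _ _ _ _) (Dp_nn _ _ _) (by positivity)
      (hC2 _ (by omega)) (hD2 _ (by omega)) b)
      (GrpS_le (by positivity) hσ (hC2 a ha) (hD2 a ha) (hC1 a ha) (hD1 a ha) (d - b) (by omega))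
      (GrpS_nn _ _ _ _ _) (by positivity)
  have hF1 : Fa L (5 / 8 : ℚ) 1 d ≤ σ * c ^ d * d := by
    refine (hF 1 le_rfl).trans (le_of_eq ?_)
    have : ∀ b ∈ range d, (c * ν ^ (1 + 1 - 2)) ^ b * (σ * (c * ν ^ (1 - 2)) ^ (d - b)) =
        σ * c ^ d := by
      intro b hb
      rw [Finset.mem_range] at hb
      obtain ⟨e, rfl⟩ := Nat.exists_eq_add_of_lt hb
      rw [show b + e + 1 - b = e + 1 by omega]
      simp only [Nat.reduceAdd, Nat.sub_self, Nat.reduceSub, pow_zero, mul_one]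
      ring
    rw [Finset.sum_congr rfl this, Finset.sum_const, Finset.card_range, nsmul_eq_mul]
    ring
  have hF2 : ∀ a, Fa L (5 / 8 : ℚ) (a + 2) d ≤ σ * c ^ d * ∑ b ∈ range d, ν ^ (a * d + b) := by
    intro a
    refine (hF (a + 2) (by omega)).trans (le_of_eq ?_)
    rw [Finset.mul_sum]
    refine Finset.sum_congr rfl fun b hb => ?_
    rw [Finset.mem_range] at hb
    obtain ⟨e, rfl⟩ := Nat.exists_eq_add_of_lt hb
    rw [show b + e + 1 - b = e + 1 by omega, show a + 2 + 1 - 2 = a + 1 by omega,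
      show a + 2 - 2 = a by omega]
    ring
  have hs : (0 : ℚ) ≤ σ * c ^ d := by positivity
  let f : ℕ → ℚ := fun a => if 1 ≤ a then Fa L (5 / 8 : ℚ) a d else 0
  have hFn : ∀ a, 0 ≤ Fa L (5 / 8 : ℚ) a d := fun a =>
    Finset.sum_nonneg fun b _ => mul_nonneg (Grp_nn _ _ _ _) (GrpS_nn _ _ _ _ _)
  have hf0 : ∀ a, 0 ≤ f a := by
    intro a
    show 0 ≤ if 1 ≤ a then Fa L (5 / 8 : ℚ) a d else 0
    split_ifs
    · exact hFn a
    · exact le_rfl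
  rw [Sa]
  calc ∑ a ∈ range (A + 1), (if 1 ≤ a ∧ a * d ≤ A then Fa L (5 / 8 : ℚ) a d else 0)
      ≤ ∑ a ∈ range (A + 1), f a := by
        refine Finset.sum_le_sum fun a _ => ?_
        show _ ≤ if 1 ≤ a then Fa L (5 / 8 : ℚ) a d else 0
        by_cases h : 1 ≤ a
        · rw [if_pos h]
          split_ifs
          · exact le_rfl
          · exact hFn a
        · rw [if_neg h, if_neg (fun h' => h h'.1)]
    _ ≤ ∑ a ∈ range (A + 1 + 1 + 1), f a :=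
        Finset.sum_le_sum_of_subset_of_nonneg (Finset.range_subset_range.mpr (by omega))
          fun a _ _ => hf0 a
    _ = ∑ a ∈ range (A + 1), f (a + 2) + f 1 + f 0 := by
        rw [Finset.sum_range_succ', Finset.sum_range_succ']
    _ ≤ ∑ a ∈ range (A + 1), σ * c ^ d * ∑ b ∈ range d, ν ^ (a * d + b) + σ * c ^ d * d + 0 := by
        refine add_le_add (add_le_add (Finset.sum_le_sum fun a _ => ?_) ?_) ?_
        · exact hF2 a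
        · exact hF1
        · exact le_rfl
    _ = σ * c ^ d * ∑ a ∈ range (A + 1), ∑ b ∈ range d, ν ^ (a * d + b) + σ * c ^ d * d := by
        rw [Finset.mul_sum]; ring
    _ ≤ σ * c ^ d * (1 / (1 - ν)) + σ * c ^ d * d :=
        add_le_add (mul_le_mul_of_nonneg_left (gs2_le h0 h1 d _) hs) le_rfl
    _ = σ * c ^ d * (d + 1 / (1 - ν)) := by ring

/-! potentials -/

theorem pot1 {r ρ A B : ℚ} (hA : A * (1 - r) = 1) (hB : B * (1 - r) = ρ + r * A) (n : ℕ) :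
    ∑ d ∈ Icc 1 n, ((d : ℚ) + ρ) * r ^ d = (A + B) * r - (A * (n + 1) + B) * r ^ (n + 1) := by
  induction n with
  | zero => simp
  | succ n ih =>
    rw [Finset.sum_Icc_succ_top (by omega), ih]
    push_cast
    have e1 : r ^ (n + 1 + 1) = r ^ (n + 1) * r := pow_succ _ _
    rw [e1]
    linear_combination (-(((n : ℚ) + 1) * r ^ (n + 1))) * hA - r ^ (n + 1) * hB

theorem yy_le {q : ℕ} {y : ℚ} (hy : 0 ≤ y) (hP : Pp q (5 / 8 : ℚ) (zr2 q) ≤ y ^ 2)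
    (hc : Cn q (5 / 8 : ℚ) (zc2 q) ≤ y) (n : ℕ) : yy q (5 / 8 : ℚ) n ≤ y ^ n :=
  pw_le (Pp_nn _ _) (Cn_nn _ _) hy hP hc n

theorem yy_nn (q n : ℕ) : 0 ≤ yy q (5 / 8 : ℚ) n :=
  mul_nonneg (pow_nonneg (Pp_nn _ _) _) (pow_nonneg (Cn_nn _ _) _)

theorem BB_nn (q d : ℕ) : 0 ≤ BB q (5 / 8 : ℚ) d :=
  Finset.sum_nonneg fun r _ => mul_nonneg (yy_nn _ _) (pow_nonneg (Pp_nn _ _) _)

theorem pot2 {q : ℕ} {κ w y a e : ℚ} (hκ : 0 ≤ κ) (ha : 0 ≤ a) (hy : 0 ≤ y)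
    (hW : Pp (q - 1) (5 / 8 : ℚ) (zl2 (q - 1)) ≤ w) (hyy : ∀ n, yy q (5 / 8 : ℚ) n ≤ y ^ n)
    (h1 : 1 + a * κ * w = a) (h2 : a * κ + e * κ * y = e) (n : ℕ) :
    ∑ d ∈ Icc 1 n, BB q (5 / 8 : ℚ) d * κ ^ d + a * BB q (5 / 8 : ℚ) (n + 1) * κ ^ (n + 1) +
      e * y ^ n * κ ^ (n + 1) ≤ e * κ := by
  induction n with
  | zero => simp [BB]
  | succ n ih =>
    rw [Finset.sum_Icc_succ_top (by omega)]
    have hB : BB q (5 / 8 : ℚ) (n + 1 + 1) ≤ w * BB q (5 / 8 : ℚ) (n + 1) + y ^ n := by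
      rw [show n + 1 + 1 = n + 2 by ring, BB_succ]
      exact add_le_add (mul_le_mul_of_nonneg_right hW (BB_nn _ _)) (hyy n)
    have hk : 0 ≤ a * κ ^ (n + 1 + 1) := by positivity
    have h3 := mul_le_mul_of_nonneg_left hB hk
    have e1 : κ ^ (n + 1 + 1) = κ ^ (n + 1) * κ := pow_succ _ _
    have e2 : y ^ (n + 1) = y ^ n * y := pow_succ _ _
    rw [e1] at h3 ⊢
    rw [e2]
    have h4 : BB q (5 / 8 : ℚ) (n + 1) * κ ^ (n + 1) * (1 + a * κ * w) =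
      BB q (5 / 8 : ℚ) (n + 1) * κ ^ (n + 1) * a := by rw [h1]
    have h5 : y ^ n * κ ^ (n + 1) * (a * κ + e * κ * y) = y ^ n * κ ^ (n + 1) * e := by rw [h2]
    nlinarith

theorem Uq_le {q : ℕ} {κ θ c ν σ y w w1 : ℚ} (h : Bd q κ θ c ν σ y w w1)
    (hκ : 0 < κ) (hθ0 : 0 ≤ θ) (hθ : θ < 1) (hc : 0 ≤ c) (hν0 : 0 ≤ ν) (hν : ν < 1) (hσ : 0 ≤ σ)
    (hy0 : 0 ≤ y) (hy : y < 1) (hw0 : 0 ≤ w) (hw : w < 1) (hw1 : 0 ≤ w1) (hκc : κ * c < 1)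
    (hκy : κ * y < 1) (hκw : κ * w < 1) (G : ℕ) :
    Uq q (5 / 8 : ℚ) G ≤ (5 / 8) ^ q * (σ / (1 - θ) *
      ((κ * c) / (1 - κ * c) ^ 2 + 1 / (1 - ν) * ((κ * c) / (1 - κ * c))) +
      w1 * (κ ^ 2 / ((1 - κ * w) * (1 - κ * y)) / (1 - θ)) + 1 / (1 - y) * (2 / (1 - w))) := by
  have t1 : 0 < 1 - θ := by linarith
  have t2' : 0 < 1 - κ * c := by linarith
  have t3 : 0 < 1 - κ * w := by linarith
  have t4 : 0 < 1 - κ * y := by linarith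
  have t5 : 0 < 1 - ν := by linarith
  have t6 : 0 < 1 - y := by linarith
  have t7 : 0 < 1 - w := by linarith
  have hSg : ∀ A d, Sg (q - 1) (5 / 8 : ℚ) A d ≤ κ ^ d / (1 - θ) :=
    fun A d => Sg_le hκ.le hθ0 hθ h.C h.D A d
  have hSa : ∀ A d, Sa q (5 / 8 : ℚ) A d ≤ σ * c ^ d * (d + 1 / (1 - ν)) :=
    fun A d => Sa_le hc hσ hν0 hν h.C2 h.D2 h.C1 h.D1 A d
  -- part one
  have p1 : ∀ n, ∑ d ∈ Icc 1 n, Sa q (5 / 8 : ℚ) (2 * G / q) d *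
      Sg (q - 1) (5 / 8 : ℚ) (2 * G / (q - 1)) d ≤ σ / (1 - θ) *
      ((κ * c) / (1 - κ * c) ^ 2 + 1 / (1 - ν) * ((κ * c) / (1 - κ * c))) := by
    intro n
    have hA : (1 / (1 - κ * c)) * (1 - κ * c) = 1 := by field_simp
    have hB : ((1 / (1 - ν) + κ * c * (1 / (1 - κ * c))) / (1 - κ * c)) * (1 - κ * c) =
      1 / (1 - ν) + κ * c * (1 / (1 - κ * c)) := by field_simp
    have hp := pot1 hA hB n
    calc ∑ d ∈ Icc 1 n, Sa q (5 / 8 : ℚ) (2 * G / q) d *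
          Sg (q - 1) (5 / 8 : ℚ) (2 * G / (q - 1)) d
        ≤ ∑ d ∈ Icc 1 n, σ / (1 - θ) * (((d : ℚ) + 1 / (1 - ν)) * (κ * c) ^ d) := by
          refine Finset.sum_le_sum fun d _ => ?_
          calc Sa q (5 / 8 : ℚ) (2 * G / q) d * Sg (q - 1) (5 / 8 : ℚ) (2 * G / (q - 1)) d
              ≤ (σ * c ^ d * (d + 1 / (1 - ν))) * (κ ^ d / (1 - θ)) :=
                mul_le_mul (hSa _ d) (hSg _ d) (Sg_nn _ _ _) (by positivity)
            _ = σ / (1 - θ) * (((d : ℚ) + 1 / (1 - ν)) * (κ * c) ^ d) := by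
                rw [mul_pow]; ring
      _ = σ / (1 - θ) * ∑ d ∈ Icc 1 n, ((d : ℚ) + 1 / (1 - ν)) * (κ * c) ^ d := by
          rw [Finset.mul_sum]
      _ ≤ σ / (1 - θ) * ((κ * c) / (1 - κ * c) ^ 2 + 1 / (1 - ν) * ((κ * c) / (1 - κ * c))) := by
          refine mul_le_mul_of_nonneg_left ?_ (by positivity)
          rw [hp]
          have e1 : (1 / (1 - κ * c) + (1 / (1 - ν) + κ * c * (1 / (1 - κ * c))) / (1 - κ * c)) *
              (κ * c) = (κ * c) / (1 - κ * c) ^ 2 + 1 / (1 - ν) * ((κ * c) / (1 - κ * c)) := by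
            field_simp
            ring
          rw [e1]
          have : 0 ≤ (1 / (1 - κ * c) * (n + 1) + (1 / (1 - ν) + κ * c * (1 / (1 - κ * c))) /
              (1 - κ * c)) * (κ * c) ^ (n + 1) := by positivity
          linarith
  -- part two
  have p2 : ∀ n, ∑ d ∈ Icc 2 n, BB q (5 / 8 : ℚ) d * Sg (q - 1) (5 / 8 : ℚ) (2 * G / (q - 1)) d
      ≤ κ ^ 2 / ((1 - κ * w) * (1 - κ * y)) / (1 - θ) := by
    intro n
    have ha : (0 : ℚ) ≤ 1 / (1 - κ * w) := by positivity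
    have h1 : 1 + 1 / (1 - κ * w) * κ * w = 1 / (1 - κ * w) := by
      field_simp; ring
    have h2 : 1 / (1 - κ * w) * κ + (1 / (1 - κ * w) * κ / (1 - κ * y)) * κ * y =
        1 / (1 - κ * w) * κ / (1 - κ * y) := by
      field_simp; ring
    have hp := pot2 hκ.le ha hy0 h.W (yy_le hy0 h.P2 h.c2) h1 h2 n
    calc ∑ d ∈ Icc 2 n, BB q (5 / 8 : ℚ) d * Sg (q - 1) (5 / 8 : ℚ) (2 * G / (q - 1)) d
        ≤ ∑ d ∈ Icc 1 n, BB q (5 / 8 : ℚ) d * Sg (q - 1) (5 / 8 : ℚ) (2 * G / (q - 1)) d :=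
          Finset.sum_le_sum_of_subset_of_nonneg
            (fun d hd => by rw [Finset.mem_Icc] at hd ⊢; omega)
            fun d _ _ => mul_nonneg (BB_nn _ _) (Sg_nn _ _ _)
      _ ≤ ∑ d ∈ Icc 1 n, BB q (5 / 8 : ℚ) d * (κ ^ d / (1 - θ)) :=
          Finset.sum_le_sum fun d _ => mul_le_mul_of_nonneg_left (hSg _ d) (BB_nn _ _)
      _ = (∑ d ∈ Icc 1 n, BB q (5 / 8 : ℚ) d * κ ^ d) / (1 - θ) := by
          rw [Finset.sum_div]
          exact Finset.sum_congr rfl fun d _ => by ring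
      _ ≤ κ ^ 2 / ((1 - κ * w) * (1 - κ * y)) / (1 - θ) := by
          refine div_le_div_of_nonneg_right ?_ t1.le
          have q1 : 0 ≤ 1 / (1 - κ * w) * BB q (5 / 8 : ℚ) (n + 1) * κ ^ (n + 1) :=
            mul_nonneg (mul_nonneg ha (BB_nn _ _)) (by positivity)
          have q2 : 0 ≤ (1 / (1 - κ * w) * κ / (1 - κ * y)) * y ^ n * κ ^ (n + 1) := by
            positivity
          have q3 : (1 / (1 - κ * w) * κ / (1 - κ * y)) * κ =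
            κ ^ 2 / ((1 - κ * w) * (1 - κ * y)) := by field_simp
          linarith
  -- part three
  have p3 : ∀ m n, (∑ r ∈ range m, yy q (5 / 8 : ℚ) r) * ∑ k ∈ range n, ww (q - 1) (5 / 8 : ℚ) k
      ≤ 1 / (1 - y) * (2 / (1 - w)) := by
    intro m n
    refine mul_le_mul ?_ ?_ (Finset.sum_nonneg fun k _ => ?_) (by positivity)
    · exact (Finset.sum_le_sum fun r _ => yy_le hy0 h.P2 h.c2 r).trans (gs_le hy0 hy m)
    · refine (Finset.sum_le_sum fun k _ => ?_).trans (gs_half hw0 hw n)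
      rw [ww]
      calc Pp (q - 1) (5 / 8 : ℚ) (zl2 (q - 1)) ^ (k / 2) *
            Cn (q - 1) (5 / 8 : ℚ) (zc (q - 1)) ^ (k % 2) ≤ w ^ (k / 2) * 1 :=
            mul_le_mul (pow_le_pow_left₀ (Pp_nn _ _) h.W _)
              (pow_le_one₀ (Cn_nn _ _) h.cW) (pow_nonneg (Cn_nn _ _) _) (by positivity)
        _ = w ^ (k / 2) := mul_one _
    · exact mul_nonneg (pow_nonneg (Pp_nn _ _) _) (pow_nonneg (Cn_nn _ _) _)
  rw [Uq]
  refine mul_le_mul_of_nonneg_left ?_ (by positivity)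
  refine add_le_add (add_le_add (p1 _) ?_) (p3 _ _)
  refine mul_le_mul h.W1 (p2 _) (Finset.sum_nonneg fun d _ => mul_nonneg (BB_nn _ _) (Sg_nn _ _ _))
    hw1

end Pool.Agent.H502R2
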