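import Pool.Agent.H502R2.AlgoSpec

/-!
Values of the blocks.
-/

namespace Pool.Agent.H502R2

open Finset

/-- verified recurrences for a depth -/
structure Good (q : ℕ) : Prop where
  hC : chkT (q - 1) (rcL (q - 1)) (stepT (q - 1) (stepT (q - 1) (tabC (q - 1) tt))) = true
  hE : chkT (q - 1) (rdL (q - 1)) (tabE (q - 1)) = true
  hO : chkT (q - 1) (rdL (q - 1)) (tabO (q - 1)) = true
  hC2 : chkT q (rcL q) (stepT q (stepT q (tabC q t2))) = true
  hC1 : chkT q (rcL q) (stepT q (stepT q (tabC q e1))) = true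
  hE' : chkT q (rdL q) (tabE q) = true
  hO' : chkT q (rdL q) (tabO q) = true

theorem good4 : Good 4 := ⟨chk3C, chk3E, chk3O, chk4C2, chk4C1, chk4E, chk4O⟩
theorem good5 : Good 5 := ⟨chk4C, chk4E, chk4O, chk5C2, chk5C1, chk5E, chk5O⟩

section
variable {R : Type*} [CommRing R]

theorem Sp_tail {f : ℕ → R} {i : ℕ} {l : List ℕ} (h : Sp f i l) : Sp f (i + 1) l.tail := by
  cases l with
  | nil => trivial
  | cons a l => exact h.2

theorem sum_ind0 (A k0 d : ℕ) (hd : 2 * k0 + 1 ≤ d) (F : ℕ → R) :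
    ∑ i ∈ range (A / (2 * k0 + 1) + 1), ind A (0 + i) d (F (0 + i)) =
      ∑ a ∈ range (A + 1), if a * d ≤ A then F a else 0 := by
  simp only [Nat.zero_add]
  refine Finset.sum_subset ?_ ?_
  · intro a ha
    rw [Finset.mem_range] at ha ⊢
    have := Nat.div_le_self A (2 * k0 + 1)
    omega
  · intro a _ ha
    rw [Finset.mem_range] at ha
    have h1 : A / (2 * k0 + 1) < a := by omega
    have h2 : A < a * (2 * k0 + 1) := by
      rwa [Nat.div_lt_iff_lt_mul (by omega)] at h1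
    have h3 := Nat.mul_le_mul_left a hd
    rw [ind, if_neg (by omega)]

theorem sum_ind1 (A k0 d : ℕ) (hd : 2 * k0 + 1 ≤ d) (F : ℕ → R) :
    ∑ i ∈ range (A / (2 * k0 + 1) + 1), ind A (1 + i) d (F (1 + i)) =
      ∑ a ∈ range (A + 1), if 1 ≤ a ∧ a * d ≤ A then F a else 0 := by
  have h1 : ∑ i ∈ range (A / (2 * k0 + 1) + 1), ind A (1 + i) d (F (1 + i)) =
      ∑ a ∈ range (A / (2 * k0 + 1) + 1 + 1), if 1 ≤ a ∧ a * d ≤ A then F a else 0 := by
    rw [Finset.sum_range_succ' (fun a => if 1 ≤ a ∧ a * d ≤ A then F a else 0)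
      (A / (2 * k0 + 1) + 1)]
    have e0 : (if 1 ≤ 0 ∧ 0 * d ≤ A then F 0 else 0) = 0 := by
      rw [if_neg]; omega
    rw [e0, add_zero]
    refine Finset.sum_congr rfl fun i _ => ?_
    rw [ind, add_comm 1 i]
    simp
  rw [h1]
  symm
  rcases Nat.le_total (A + 1) (A / (2 * k0 + 1) + 1 + 1) with h2 | h2
  · refine Finset.sum_subset (Finset.range_subset_range.mpr h2) ?_
    intro a _ ha
    rw [Finset.mem_range] at ha
    rw [if_neg]
    rintro ⟨_, h4⟩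
    have : a ≤ a * d := Nat.le_mul_of_pos_right a (by omega)
    omega
  · symm
    refine Finset.sum_subset (Finset.range_subset_range.mpr h2) ?_
    intro a _ ha
    rw [Finset.mem_range] at ha
    have h1 : A / (2 * k0 + 1) < a := by omega
    have h2 : A < a * (2 * k0 + 1) := by
      rwa [Nat.div_lt_iff_lt_mul (by omega)] at h1
    have h3 := Nat.mul_le_mul_left a hd
    rw [if_neg]
    rintro ⟨_, h4⟩
    omega

theorem msk_of (B G : ℕ) (hR : ((2 ^ (B * (G + 1)) : ℕ) : R) = 0) :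
    Msk R (Nat.sub (Nat.pow 2 (B * (G + 1))) 1) := ⟨B * (G + 1), rfl, hR⟩

theorem blk_spec {q : ℕ} (hq : Good q) (B G k0 k1 : ℕ) (hk : k0 ≤ k1)
    (hR : ((2 ^ (B * (G + 1)) : ℕ) : R) = 0) :
    ((blk q B G k0 k1 : ℕ) : R) = ∑ d ∈ Ico (2 * k0 + 1) (2 * k1 + 1),
      (Sa q ((2 ^ B : ℕ) : R) (2 * G / q) d + Pp (q - 1) ((2 ^ B : ℕ) : R) (zl1 (q - 1)) *
        BB q ((2 ^ B : ℕ) : R) d) * Sg (q - 1) ((2 ^ B : ℕ) : R) (2 * G / (q - 1)) d := by
  have hK := msk_of (R := R) B G hR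
  have hx : ((Nat.pow 2 B : ℕ) : R) = ((2 ^ B : ℕ) : R) := rfl
  rw [blk]
  set K := Nat.sub (Nat.pow 2 (B * (G + 1))) 1 with hKdef
  set x := Nat.pow 2 B with hxdef
  set Ag := 2 * G / (q - 1)
  set Aa := 2 * G / q
  set ng := Ag / (2 * k0 + 1) + 1 with hng
  set na := Aa / (2 * k0 + 1) + 1 with hna
  rw [← hx]
  have hng1 : 1 ≤ ng := Nat.le_add_left 1 _
  have hna1 : 1 ≤ na := Nat.le_add_left 1 _
  have hng2 : 2 ≤ ng + 1 := Nat.succ_le_succ hng1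
  have hna2 : 2 ≤ na + 2 := Nat.le_add_left 2 _
  obtain ⟨g1, g2⟩ := rowsF_spec hK Ag k0 (q - 1) (x : R) (k1 - k0) ng 0
    (Ctab K x (q - 1) tt tt (ng + 1)) (Dtab K x (q - 1) tt (ng + 2)) (zeros (2 * (k1 - k0)))
    (fun _ => 0) (by rw [Ctab_length _ _ _ _ _ _ hng2]; exact Nat.le_succ _)
    (by have := Dtab_length K x (q - 1) tt (ng + 2); omega)
    (Ctab_spec hK x hq.hC tt _) (Dtab_spec hK x hq.hE hq.hO tt _) (zeros_length _)
    (zeros_spec _ _)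
  obtain ⟨a1, a2⟩ := rowsG_spec hK Aa k0 q (x : R) (k1 - k0) na 1
    ((Ctab K x q t2 t2 (na + 2)).tail) ((Dtab K x q t2 (na + 4)).tail)
    ((Dtab K x q e1 (na + 4)).tail) ((Ctab K x q t2 e1 (na + 2)).tail) (zeros (2 * (k1 - k0)))
    (fun _ => 0) (by rw [List.length_tail, Ctab_length _ _ _ _ _ _ hna2]; omega)
    (by rw [List.length_tail]; have := Dtab_length K x q t2 (na + 4); omega)
    (by rw [List.length_tail]; have := Dtab_length K x q e1 (na + 4); omega)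
    (by rw [List.length_tail, Ctab_length _ _ _ _ _ _ hna2]; omega)
    (Sp_tail (Ctab_spec hK x hq.hC2 t2 _)) (Sp_tail (Dtab_spec hK x hq.hE' hq.hO' t2 _))
    (Sp_tail (Dtab_spec hK x hq.hE' hq.hO' e1 _)) (Sp_tail (Ctab_spec hK x hq.hC1 t2 _))
    (zeros_length _) (zeros_spec _ _)
  have g1' : Sp (Sg (q - 1) (x : R) Ag) (2 * k0 + 1) (rowsF K Ag k0 ng 0
      (Ctab K x (q - 1) tt tt (ng + 1)) (Dtab K x (q - 1) tt (ng + 2))
      (zeros (2 * (k1 - k0)))) := Sp_congr g1 fun d hd => by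
    rw [zero_add, sum_ind0 Ag k0 d hd (fun a => Fg (q - 1) (x : R) a d)]; rfl
  have a1' : Sp (Sa q (x : R) Aa) (2 * k0 + 1) (rowsG K Aa k0 na 1
      ((Ctab K x q t2 t2 (na + 2)).tail) ((Dtab K x q t2 (na + 4)).tail)
      ((Dtab K x q e1 (na + 4)).tail) ((Ctab K x q t2 e1 (na + 2)).tail)
      (zeros (2 * (k1 - k0)))) := Sp_congr a1 fun d hd => by
    rw [zero_add, sum_ind1 Aa k0 d hd (fun a => Fa q (x : R) a d)]; rfl
  refine preB_spec hK (q := q) (x := (x : R)) (by rw [evN_cast, ev_pairL])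
    (by rw [evN_cast, ev_pairL]) (fun n => (n : R) = _) (2 * k0) 0 0 1 _ _ ?_ ?_ ?_ ?_
  · simp [BB]
  · simp [yy]
  · rw [evN_cast, ev_cenL]; simp [yy]
  · intro b y0 y1 h1 h2 h3
    rw [Nat.zero_add] at h1 h2 h3
    rw [dotB_spec hK (q := q) (x := (x : R)) (by rw [evN_cast, ev_pairL])
      (by rw [evN_cast, ev_pairL]) (by rw [evN_cast, ev_pairL]) (2 * (k1 - k0)) (2 * k0) _ _ b y0
      y1 0 a2 g2 a1' g1' h1 h2 h3, Finset.sum_Ico_eq_sum_range]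
    have e : 2 * k1 + 1 - (2 * k0 + 1) = 2 * (k1 - k0) := by omega
    rw [e]
    simp

theorem geoN_spec {K : ℕ} (hK : Msk R K) {P : ℕ} {p c : R} (hP : (P : R) = p) (n : ℕ) :
    ∀ (i y0 y1 acc : ℕ), (y0 : R) = p ^ (i / 2) * c ^ (i % 2) →
      (y1 : R) = p ^ ((i + 1) / 2) * c ^ ((i + 1) % 2) →
      ((geoN K P n y0 y1 acc : ℕ) : R) = acc + ∑ j ∈ range n,
        p ^ ((i + j) / 2) * c ^ ((i + j) % 2) := by
  induction n with
  | zero => intro i y0 y1 acc _ _; simp [geoN]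
  | succ n ih =>
    intro i y0 y1 acc h0 h1
    rw [geoN, ih (i + 1) _ _ _ h1, Finset.sum_range_succ', cadd, h0]
    · have : ∀ j, i + 1 + j = i + (j + 1) := fun j => by ring
      simp only [this, add_zero]
      ring
    · rw [hK.mm, hP, h0, show (i + 1 + 1) / 2 = i / 2 + 1 by omega,
        show (i + 1 + 1) % 2 = i % 2 by omega, pow_succ]
      ring

theorem thr_spec (q B G : ℕ) (hR : ((2 ^ (B * (G + 1)) : ℕ) : R) = 0) :
    ((thr q B G : ℕ) : R) = (∑ r ∈ range (2 * G / q + 1), yy q ((2 ^ B : ℕ) : R) r) *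
      ∑ n ∈ range (2 * G / (q - 1) + 1), ww (q - 1) ((2 ^ B : ℕ) : R) n := by
  have hK := msk_of (R := R) B G hR
  have hx : ((Nat.pow 2 B : ℕ) : R) = ((2 ^ B : ℕ) : R) := rfl
  rw [thr]
  rw [hK.mm, ← hx, geoN_spec hK (p := Pp q ((Nat.pow 2 B : ℕ) : R) (zr2 q))
    (c := Cn q ((Nat.pow 2 B : ℕ) : R) (zc2 q)) (by rw [evN_cast, ev_pairL]) _ 0 _ _ _ (by simp)
    (by rw [evN_cast, ev_cenL]; simp),
    geoN_spec hK (p := Pp (q - 1) ((Nat.pow 2 B : ℕ) : R) (zl2 (q - 1)))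
    (c := Cn (q - 1) ((Nat.pow 2 B : ℕ) : R) (zc (q - 1))) (by rw [evN_cast, ev_pairL]) _ 0 _ _ _
    (by simp) (by rw [evN_cast, ev_cenL]; simp)]
  simp only [Nat.cast_zero, zero_add]
  rfl

theorem vvq_spec (q B G : ℕ) (hR : ((2 ^ (B * (G + 1)) : ℕ) : R) = 0) :
    ((vvq q B G : ℕ) : R) = (∑ r ∈ range (2 * G / q + 1), rr q ((2 ^ B : ℕ) : R) r) *
      ∑ n ∈ range (2 * G / (q - 1) + 1), rr (q - 1) ((2 ^ B : ℕ) : R) n := by
  have hK := msk_of (R := R) B G hR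
  have hx : ((Nat.pow 2 B : ℕ) : R) = ((2 ^ B : ℕ) : R) := rfl
  rw [vvq]
  rw [hK.mm, ← hx, geoN_spec hK (p := Pp q ((Nat.pow 2 B : ℕ) : R) (zr q))
    (c := Cn q ((Nat.pow 2 B : ℕ) : R) (zc q)) (by rw [evN_cast, ev_pairL]) _ 0 _ _ _ (by simp)
    (by rw [evN_cast, ev_cenL]; simp),
    geoN_spec hK (p := Pp (q - 1) ((Nat.pow 2 B : ℕ) : R) (zr (q - 1)))
    (c := Cn (q - 1) ((Nat.pow 2 B : ℕ) : R) (zc (q - 1))) (by rw [evN_cast, ev_pairL]) _ 0 _ _ _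
    (by simp) (by rw [evN_cast, ev_cenL]; simp)]
  simp only [Nat.cast_zero, zero_add]
  rfl

end

end Pool.Agent.H502R2
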