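import Pool.Agent.H502R2.Cert
import Pool.Agent.H502R2.BlockSpec

/-!
Explicit constants at `5/8`.
-/

namespace Pool.Agent.H502R2

open Finset

/-- all the estimates needed for depth `q` -/
structure Bd (q : ℕ) (κ θ c ν σ y w w1 : ℚ) : Prop where
  C : ∀ a, Cp (q - 1) (5 / 8 : ℚ) tt tt a ≤ (κ * θ ^ a) ^ 2
  D : ∀ a, Dp (q - 1) (5 / 8 : ℚ) tt a ≤ κ * θ ^ a
  C2 : ∀ a, 1 ≤ a → Cp q (5 / 8 : ℚ) t2 t2 a ≤ (c * ν ^ (a - 2)) ^ 2
  D2 : ∀ a, 1 ≤ a → Dp q (5 / 8 : ℚ) t2 a ≤ c * ν ^ (a - 2)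
  C1 : ∀ a, 1 ≤ a → Cp q (5 / 8 : ℚ) t2 e1 a ≤ σ * (c * ν ^ (a - 2)) ^ 2
  D1 : ∀ a, 1 ≤ a → Dp q (5 / 8 : ℚ) e1 a ≤ σ * (c * ν ^ (a - 2))
  P2 : Pp q (5 / 8 : ℚ) (zr2 q) ≤ y ^ 2
  c2 : Cn q (5 / 8 : ℚ) (zc2 q) ≤ y
  W : Pp (q - 1) (5 / 8 : ℚ) (zl2 (q - 1)) ≤ w
  cW : Cn (q - 1) (5 / 8 : ℚ) (zc (q - 1)) ≤ 1
  W1 : Pp (q - 1) (5 / 8 : ℚ) (zl1 (q - 1)) ≤ w1

theorem pC {L : ℕ} {b lam κ θ : ℚ}
    (h : ∀ k, HH L (5 / 8 : ℚ) tt (It L (5 / 8 : ℚ) (VC tt) k) ≤ b * lam ^ k)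
    (hb : b = κ ^ 2 * θ ^ 2) (hl : lam = θ ^ 2) (hκ : 1 ≤ κ) (a : ℕ) :
    Cp L (5 / 8 : ℚ) tt tt a ≤ (κ * θ ^ a) ^ 2 := by
  cases a with
  | zero => simp only [Cp, pow_zero, mul_one]; nlinarith
  | succ a =>
    refine (h a).trans (le_of_eq ?_)
    rw [hb, hl]; ring

theorem pD {L : ℕ} {X : ℕ → Bool} {f : ℕ → ℚ} (h1 : Dp L (5 / 8 : ℚ) X 1 ≤ f 1)
    (he : ∀ k, HH L (5 / 8 : ℚ) X (It L (5 / 8 : ℚ) VE k) ≤ f (2 * k + 2))
    (ho : ∀ k, HH L (5 / 8 : ℚ) X (It L (5 / 8 : ℚ) (VO L (5 / 8 : ℚ)) k) ≤ f (2 * k + 3))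
    (a : ℕ) (ha : 1 ≤ a) : Dp L (5 / 8 : ℚ) X a ≤ f a := by
  match a, ha with
  | 1, _ => exact h1
  | n + 2, _ =>
    show HH L (5 / 8 : ℚ) X (DIt L (5 / 8 : ℚ) n) ≤ _
    rcases Nat.even_or_odd' n with ⟨m, rfl | rfl⟩
    · rw [DIt_even]; exact he m
    · rw [DIt_odd]; exact ho m

theorem pC2 {L : ℕ} {Y : ℕ → Bool} {b lam c ν s : ℚ}
    (h1 : HH L (5 / 8 : ℚ) t2 (VC Y) ≤ s * c ^ 2)
    (h : ∀ k, HH L (5 / 8 : ℚ) t2 (It L (5 / 8 : ℚ) (TT L (5 / 8 : ℚ) (VC Y)) k) ≤ b * lam ^ k)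
    (hb : b = s * c ^ 2) (hl : lam = ν ^ 2) (a : ℕ) (ha : 1 ≤ a) :
    Cp L (5 / 8 : ℚ) t2 Y a ≤ s * (c * ν ^ (a - 2)) ^ 2 := by
  match a, ha with
  | 1, _ =>
    show HH L (5 / 8 : ℚ) t2 (VC Y) ≤ _
    simpa using h1
  | n + 2, _ =>
    show HH L (5 / 8 : ℚ) t2 (It L (5 / 8 : ℚ) (VC Y) (n + 1)) ≤ _
    rw [It_succ']
    refine (h n).trans (le_of_eq ?_)
    rw [hb, hl, show n + 2 - 2 = n by omega]; ring

theorem hh_qC {L : ℕ} {X Y : ℕ → Bool} {b : ℚ} {n : ℕ} (hn : headQ L X (qC L Y) = n)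
    (hb : (n : ℚ) ≤ 8 ^ (2 * L) * b) : HH L (5 / 8 : ℚ) X (VC Y) ≤ b := by
  have h := (agC L Y).head X
  rw [hn, one_mul] at h
  rw [h] at hb
  exact le_of_mul_le_mul_left hb (by positivity)

theorem dp1 {L : ℕ} {X : ℕ → Bool} {l : List ℕ} (h : cen1 L X = l) {b : ℚ}
    (hb : ev (5 / 8 : ℚ) l ≤ b) : Dp L (5 / 8 : ℚ) X 1 ≤ b := by
  have : Dp L (5 / 8 : ℚ) X 1 = ev (5 / 8 : ℚ) (cen1 L X) := by
    rw [cen1, ev_sumR]
    show (∑ k ∈ range L, if L ≤ 2 * k + 2 ∧ X k = true then (5 / 8 : ℚ) ^ (k + 1) else 0) = _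
    refine Finset.sum_congr rfl fun k _ => ?_
    split_ifs with h
    · rw [ev_shL]; simp
    · rfl
  rw [this, h]; exact hb

theorem pp1 {L : ℕ} {Z : ℕ → ℕ → Bool} {l : List ℕ} (h : pairL L Z = l) {b : ℚ}
    (hb : ev (5 / 8 : ℚ) l ≤ b) : Pp L (5 / 8 : ℚ) Z ≤ b := by
  rw [← ev_pairL, h]; exact hb

theorem cn1 {L : ℕ} {Z : ℕ → Bool} {l : List ℕ} (h : cenL L Z = l) {b : ℚ}
    (hb : ev (5 / 8 : ℚ) l ≤ b) : Cn L (5 / 8 : ℚ) Z ≤ b := by
  rw [← ev_cenL, h]; exact hb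

/-! certificates, depth four -/

theorem k4C : cert 3 tt 982081 1000000 3 ((11226 * 991) ^ 2) ((10 ^ 7) ^ 2) (qC 3 tt) = true := by
  decide +kernel
theorem k4E : cert 3 tt 982081 1000000 3 (11226 * 991 ^ 2) (10 ^ 10) (qE 3) = true := by
  decide +kernel
theorem k4O : cert 3 tt 982081 1000000 3 (11226 * 991 ^ 3 * 8 ^ 6) (10 ^ 13) (qO 3) = true := by
  decide +kernel
theorem k4C2 : cert 4 t2 (9081 ^ 2) (10 ^ 8) 3 (8264 ^ 2 * 8 ^ 8) (10 ^ 8)
    (stepQ 4 (qC 4 t2)) = true := by decide +kernel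
theorem k4C1 : cert 4 t2 (9081 ^ 2) (10 ^ 8) 4 (3632 * 8264 ^ 2 * 8 ^ 8) (10 ^ 12)
    (stepQ 4 (qC 4 e1)) = true := by decide +kernel
theorem k4E2 : cert 4 t2 (9081 ^ 2) (10 ^ 8) 3 8264 (10 ^ 4) (qE 4) = true := by decide +kernel
theorem k4O2 : cert 4 t2 (9081 ^ 2) (10 ^ 8) 3 (8264 * 9081 * 8 ^ 8) (10 ^ 8) (qO 4) = true := by
  decide +kernel
theorem k4E1 : cert 4 e1 (9081 ^ 2) (10 ^ 8) 3 (3632 * 8264) (10 ^ 8) (qE 4) = true := by
  decide +kernel
theorem k4O1 : cert 4 e1 (9081 ^ 2) (10 ^ 8) 3 (3632 * 8264 * 9081 * 8 ^ 8) (10 ^ 12)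
    (qO 4) = true := by decide +kernel

/-! certificates, depth five -/

theorem k5C : cert 4 tt (96 ^ 2) (10 ^ 4) 3 ((11004 * 96) ^ 2) ((10 ^ 6) ^ 2) (qC 4 tt) = true := by
  decide +kernel
theorem k5E : cert 4 tt (96 ^ 2) (10 ^ 4) 3 (11004 * 96 ^ 2) (10 ^ 8) (qE 4) = true := by
  decide +kernel
theorem k5O : cert 4 tt (96 ^ 2) (10 ^ 4) 3 (11004 * 96 ^ 3 * 8 ^ 8) (10 ^ 10) (qO 4) = true := by
  decide +kernel
theorem k5C2 : cert 5 t2 (718 ^ 2) (10 ^ 6) 5 (7916 ^ 2 * 8 ^ 10) (10 ^ 8)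
    (stepQ 5 (qC 5 t2)) = true := by decide +kernel
theorem k5C1 : cert 5 t2 (718 ^ 2) (10 ^ 6) 9 (2474 * 7916 ^ 2 * 8 ^ 10) (10 ^ 12)
    (stepQ 5 (qC 5 e1)) = true := by decide +kernel
theorem k5E2 : cert 5 t2 (718 ^ 2) (10 ^ 6) 4 7916 (10 ^ 4) (qE 5) = true := by decide +kernel
theorem k5O2 : cert 5 t2 (718 ^ 2) (10 ^ 6) 4 (7916 * 718 * 8 ^ 10) (10 ^ 7) (qO 5) = true := by
  decide +kernel
theorem k5E1 : cert 5 e1 (718 ^ 2) (10 ^ 6) 4 (2474 * 7916) (10 ^ 8) (qE 5) = true := by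
  decide +kernel
theorem k5O1 : cert 5 e1 (718 ^ 2) (10 ^ 6) 4 (2474 * 7916 * 718 * 8 ^ 10) (10 ^ 11)
    (qO 5) = true := by decide +kernel

theorem bd4 : Bd 4 (11226 / 10000) (991 / 1000) (8264 / 10000) (9081 / 10000) (3632 / 10000)
    (7874 / 10000) (7997 / 10000) (39673 / 100000) where
  C := pC (cert_spec (by norm_num) _ _ _ _ 1 _ (by norm_num) (by norm_num) (agC 3 tt) k4C)
    (by norm_num) (by norm_num) (by norm_num)
  D := by
    intro a
    rcases Nat.eq_zero_or_pos a with h | h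
    · rw [h]; simp only [Dp, pow_zero]; norm_num
    · refine pD (f := fun a => (11226 / 10000 : ℚ) * (991 / 1000) ^ a) ?_ ?_ ?_ a h
      · exact dp1 (l := [0, 0, 1, 1]) (by decide +kernel) (by norm_num [ev])
      · intro k
        refine (cert_spec (by norm_num) _ _ _ _ 1 _ (by norm_num) (by norm_num) (agE 3) k4E
          k).trans (le_of_eq ?_)
        rw [pow_add, pow_mul]; norm_num; ring
      · intro k
        refine (cert_spec (by norm_num) _ _ _ _ (8 ^ 6) _ (by norm_num) (by norm_num) (agO 3) k4O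
          k).trans (le_of_eq ?_)
        rw [pow_add, pow_mul]; norm_num; ring
  C2 := by
    intro a ha
    have := pC2 (L := 4) (Y := t2) (s := 1) (c := 8264 / 10000) (ν := 9081 / 10000)
      (hh_qC (n := headQ 4 t2 (qC 4 t2)) rfl (by
        have : headQ 4 t2 (qC 4 t2) = 10400625 := by decide +kernel
        rw [this]; norm_num))
      (cert_spec (by norm_num) _ _ _ _ (8 ^ 8) _ (by norm_num) (by norm_num)
        (by have := (agC 4 t2).step; simpa using this) k4C2) (by norm_num) (by norm_num) a ha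
    simpa using this
  D2 := by
    intro a ha
    refine pD (f := fun a => (8264 / 10000 : ℚ) * (9081 / 10000) ^ (a - 2)) ?_ ?_ ?_ a ha
    · exact dp1 (l := [0, 0, 1, 1, 1]) (by decide +kernel) (by norm_num [ev])
    · intro k
      refine (cert_spec (by norm_num) _ _ _ _ 1 _ (by norm_num) (by norm_num) (agE 4) k4E2
        k).trans (le_of_eq ?_)
      rw [show 2 * k + 2 - 2 = 2 * k by omega, pow_mul]; norm_num
    · intro k
      refine (cert_spec (by norm_num) _ _ _ _ (8 ^ 8) _ (by norm_num) (by norm_num) (agO 4) k4O2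
        k).trans (le_of_eq ?_)
      rw [show 2 * k + 3 - 2 = 2 * k + 1 by omega, pow_add, pow_mul]; norm_num; ring
  C1 := by
    intro a ha
    exact pC2 (L := 4) (Y := e1) (s := 3632 / 10000) (c := 8264 / 10000) (ν := 9081 / 10000)
      (hh_qC (n := headQ 4 t2 (qC 4 e1)) rfl (by
        have : headQ 4 t2 (qC 4 e1) = 4160000 := by decide +kernel
        rw [this]; norm_num))
      (cert_spec (by norm_num) _ _ _ _ (8 ^ 8) _ (by norm_num) (by norm_num)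
        (by have := (agC 4 e1).step; simpa using this) k4C1) (by norm_num) (by norm_num) a ha
  D1 := by
    intro a ha
    refine pD (f := fun a => (3632 / 10000 : ℚ) * (8264 / 10000 * (9081 / 10000) ^ (a - 2)))
      ?_ ?_ ?_ a ha
    · exact dp1 (l := []) (by decide +kernel) (by norm_num [ev])
    · intro k
      refine (cert_spec (by norm_num) _ _ _ _ 1 _ (by norm_num) (by norm_num) (agE 4) k4E1
        k).trans (le_of_eq ?_)
      rw [show 2 * k + 2 - 2 = 2 * k by omega, pow_mul]; norm_num; ring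
    · intro k
      refine (cert_spec (by norm_num) _ _ _ _ (8 ^ 8) _ (by norm_num) (by norm_num) (agO 4) k4O1
        k).trans (le_of_eq ?_)
      rw [show 2 * k + 3 - 2 = 2 * k + 1 by omega, pow_add, pow_mul]; norm_num; ring
  P2 := pp1 (l := [0, 0, 0, 0, 1, 2, 3, 2, 1]) (by decide +kernel) (by norm_num [ev])
  c2 := cn1 (l := [0, 0, 1, 1, 1]) (by decide +kernel) (by norm_num [ev])
  W := pp1 (l := [0, 0, 0, 1, 2, 2, 1]) (by decide +kernel) (by norm_num [ev])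
  cW := cn1 (l := [0, 0, 1, 1]) (by decide +kernel) (by norm_num [ev])
  W1 := pp1 (l := [0, 0, 0, 1, 1]) (by decide +kernel) (by norm_num [ev])

theorem bd5 : Bd 5 (11004 / 10000) (96 / 100) (7916 / 10000) (718 / 1000) (2474 / 10000)
    (7916 / 10000) (8679 / 10000) (24796 / 100000) where
  C := pC (cert_spec (by norm_num) _ _ _ _ 1 _ (by norm_num) (by norm_num) (agC 4 tt) k5C)
    (by norm_num) (by norm_num) (by norm_num)
  D := by
    intro a
    rcases Nat.eq_zero_or_pos a with h | h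
    · rw [h]; simp only [Dp, pow_zero]; norm_num
    · refine pD (f := fun a => (11004 / 10000 : ℚ) * (96 / 100) ^ a) ?_ ?_ ?_ a h
      · exact dp1 (l := [0, 0, 1, 1, 1]) (by decide +kernel) (by norm_num [ev])
      · intro k
        refine (cert_spec (by norm_num) _ _ _ _ 1 _ (by norm_num) (by norm_num) (agE 4) k5E
          k).trans (le_of_eq ?_)
        rw [pow_add, pow_mul]; norm_num; ring
      · intro k
        refine (cert_spec (by norm_num) _ _ _ _ (8 ^ 8) _ (by norm_num) (by norm_num) (agO 4) k5O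
          k).trans (le_of_eq ?_)
        rw [pow_add, pow_mul]; norm_num; ring
  C2 := by
    intro a ha
    have := pC2 (L := 5) (Y := t2) (s := 1) (c := 7916 / 10000) (ν := 718 / 1000)
      (hh_qC (n := headQ 5 t2 (qC 5 t2)) rfl (by
        have : headQ 5 t2 (qC 5 t2) = 672815625 := by decide +kernel
        rw [this]; norm_num))
      (cert_spec (by norm_num) _ _ _ _ (8 ^ 10) _ (by norm_num) (by norm_num)
        (by have := (agC 5 t2).step; simpa using this) k5C2) (by norm_num) (by norm_num) a ha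
    simpa using this
  D2 := by
    intro a ha
    refine pD (f := fun a => (7916 / 10000 : ℚ) * (718 / 1000) ^ (a - 2)) ?_ ?_ ?_ a ha
    · exact dp1 (l := [0, 0, 0, 1, 1, 1]) (by decide +kernel) (by norm_num [ev])
    · intro k
      refine (cert_spec (by norm_num) _ _ _ _ 1 _ (by norm_num) (by norm_num) (agE 5) k5E2
        k).trans (le_of_eq ?_)
      rw [show 2 * k + 2 - 2 = 2 * k by omega, pow_mul]; norm_num
    · intro k
      refine (cert_spec (by norm_num) _ _ _ _ (8 ^ 10) _ (by norm_num) (by norm_num) (agO 5) k5O2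
        k).trans (le_of_eq ?_)
      rw [show 2 * k + 3 - 2 = 2 * k + 1 by omega, pow_add, pow_mul]; norm_num; ring
  C1 := by
    intro a ha
    exact pC2 (L := 5) (Y := e1) (s := 2474 / 10000) (c := 7916 / 10000) (ν := 718 / 1000)
      (hh_qC (n := headQ 5 t2 (qC 5 e1)) rfl (by
        have : headQ 5 t2 (qC 5 e1) = 166400000 := by decide +kernel
        rw [this]; norm_num))
      (cert_spec (by norm_num) _ _ _ _ (8 ^ 10) _ (by norm_num) (by norm_num)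
        (by have := (agC 5 e1).step; simpa using this) k5C1) (by norm_num) (by norm_num) a ha
  D1 := by
    intro a ha
    refine pD (f := fun a => (2474 / 10000 : ℚ) * (7916 / 10000 * (718 / 1000) ^ (a - 2)))
      ?_ ?_ ?_ a ha
    · exact dp1 (l := []) (by decide +kernel) (by norm_num [ev])
    · intro k
      refine (cert_spec (by norm_num) _ _ _ _ 1 _ (by norm_num) (by norm_num) (agE 5) k5E1
        k).trans (le_of_eq ?_)
      rw [show 2 * k + 2 - 2 = 2 * k by omega, pow_mul]; norm_num; ring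
    · intro k
      refine (cert_spec (by norm_num) _ _ _ _ (8 ^ 10) _ (by norm_num) (by norm_num) (agO 5) k5O1
        k).trans (le_of_eq ?_)
      rw [show 2 * k + 3 - 2 = 2 * k + 1 by omega, pow_add, pow_mul]; norm_num; ring
  P2 := pp1 (l := [0, 0, 0, 0, 0, 2, 3, 4, 3, 2, 1]) (by decide +kernel) (by norm_num [ev])
  c2 := cn1 (l := [0, 0, 0, 1, 1, 1]) (by decide +kernel) (by norm_num [ev])
  W := pp1 (l := [0, 0, 0, 0, 2, 3, 3, 2, 1]) (by decide +kernel) (by norm_num [ev])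
  cW := cn1 (l := [0, 0, 1, 1, 1]) (by decide +kernel) (by norm_num [ev])
  W1 := pp1 (l := [0, 0, 0, 0, 1, 1]) (by decide +kernel) (by norm_num [ev])

end Pool.Agent.H502R2
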