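import Pool.Agent.H502R2.ListPoly

/-!
Certified geometric bounds at `5/8`.
-/

namespace Pool.Agent.H502R2

open Finset

/-- finite sums -/
def sumQ : ℕ → (ℕ → ℕ) → ℕ
  | 0, _ => 0
  | n + 1, f => sumQ n f + f n

/-- lookup -/
def lkQ (M : List (List ℕ)) (c d : ℕ) : ℕ := (M.getD c []).getD d 0

/-- integer weight of `x ^ e` at scale `2 L` -/
def wq (L e : ℕ) : ℕ := 5 ^ e * 8 ^ (2 * L - e)

/-- transfer step -/
def stepQ (L : ℕ) (M : List (List ℕ)) : List (List ℕ) :=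
  mapR L fun p => mapR L fun r => sumQ L fun c => sumQ L fun d =>
    if L ≤ c + d + 2 ∧ c ≤ p + 1 ∧ r ≤ d + 1 then wq L (c + d + 2) * lkQ M c d else 0

/-- head functional -/
def headQ (L : ℕ) (X : ℕ → Bool) (M : List (List ℕ)) : ℕ :=
  sumQ L fun c => sumQ L fun d =>
    if L ≤ c + d + 2 ∧ X c = true then wq L (c + d + 2) * lkQ M c d else 0

/-- ratio test -/
def ratQ (L ln ld : ℕ) (M : List (List ℕ)) : Bool :=
  allR L fun p => allR L fun r =>
    Nat.ble (lkQ (stepQ L M) p r * ld) (ln * 8 ^ (2 * L) * lkQ M p r)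

/-- certificate for a geometric bound -/
def cert (L : ℕ) (X : ℕ → Bool) (ln ld : ℕ) : ℕ → ℕ → ℕ → List (List ℕ) → Bool
  | 0, cn, cd, M => Nat.ble (headQ L X M * cd) (cn * 8 ^ (2 * L)) && ratQ L ln ld M
  | n + 1, cn, cd, M => Nat.ble (headQ L X M * cd) (cn * 8 ^ (2 * L)) &&
      cert L X ln ld n (cn * ln * 8 ^ (2 * L)) (cd * ld) (stepQ L M)

/-- initial tables -/
def qC (L : ℕ) (Y : ℕ → Bool) : List (List ℕ) :=
  mapR L fun _ => mapR L fun r => if Y r = true then 1 else 0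
/-- initial tables -/
def qE (L : ℕ) : List (List ℕ) :=
  mapR L fun p => mapR L fun r => if r ≤ p + 1 then 1 else 0
/-- initial tables -/
def qO (L : ℕ) : List (List ℕ) :=
  mapR L fun p => mapR L fun r => sumQ L fun k =>
    if L ≤ 2 * k + 2 ∧ k ≤ p + 1 ∧ r ≤ k + 1 then wq L (k + 1) else 0

theorem cast_sumQ (n : ℕ) (f : ℕ → ℕ) : ((sumQ n f : ℕ) : ℚ) = ∑ i ∈ range n, (f i : ℚ) := by
  induction n with
  | zero => simp [sumQ]
  | succ n ih => rw [sumQ, Nat.cast_add, ih, Finset.sum_range_succ]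

theorem lkQ_mapR (L : ℕ) (f : ℕ → ℕ → ℕ) {p r : ℕ} (hp : p < L) (hr : r < L) :
    lkQ (mapR L fun p => mapR L fun r => f p r) p r = f p r := by
  rw [lkQ, mapR_getD _ _ _ hp, mapR_getD _ _ _ hr]

theorem wq_cast {L e : ℕ} (h : e ≤ 2 * L) : ((wq L e : ℕ) : ℚ) = 8 ^ (2 * L) * (5 / 8 : ℚ) ^ e := by
  rw [wq]
  push_cast
  rw [div_pow]
  have h8 : (8 : ℚ) ^ (2 * L) = 8 ^ (2 * L - e) * 8 ^ e := by
    rw [← pow_add]; congr 1; omega
  rw [h8]
  field_simp

/-- scaled agreement -/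
def AgQ (L : ℕ) (S : ℚ) (M : List (List ℕ)) (V : ℕ → ℕ → ℚ) : Prop :=
  ∀ p < L, ∀ r < L, (lkQ M p r : ℚ) = S * V p r

theorem AgQ.step {L : ℕ} {S : ℚ} {M : List (List ℕ)} {V : ℕ → ℕ → ℚ} (h : AgQ L S M V) :
    AgQ L (S * 8 ^ (2 * L)) (stepQ L M) (TT L (5 / 8 : ℚ) V) := by
  intro p hp r hr
  rw [stepQ, lkQ_mapR L _ hp hr, cast_sumQ, TT, Finset.sum_product, Finset.mul_sum]
  refine Finset.sum_congr rfl fun c hc => ?_
  rw [cast_sumQ, Finset.mul_sum]
  refine Finset.sum_congr rfl fun d hd => ?_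
  rw [Finset.mem_range] at hc hd
  split_ifs with h1
  · rw [Nat.cast_mul, wq_cast (by omega), h c hc d hd]; ring
  · simp

theorem AgQ.head {L : ℕ} {S : ℚ} {M : List (List ℕ)} {V : ℕ → ℕ → ℚ} (h : AgQ L S M V)
    (X : ℕ → Bool) : ((headQ L X M : ℕ) : ℚ) = S * 8 ^ (2 * L) * HH L (5 / 8 : ℚ) X V := by
  rw [headQ, cast_sumQ, HH, Finset.sum_product, Finset.mul_sum]
  refine Finset.sum_congr rfl fun c hc => ?_
  rw [cast_sumQ, Finset.mul_sum]
  refine Finset.sum_congr rfl fun d hd => ?_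
  rw [Finset.mem_range] at hc hd
  split_ifs with h1
  · rw [Nat.cast_mul, wq_cast (by omega), h c hc d hd]; ring
  · simp

theorem TT_mono {L : ℕ} {V W : ℕ → ℕ → ℚ} (h : ∀ p < L, ∀ r < L, V p r ≤ W p r) (p r : ℕ) :
    TT L (5 / 8 : ℚ) V p r ≤ TT L (5 / 8 : ℚ) W p r := by
  rw [TT, TT]
  refine Finset.sum_le_sum fun c hc => ?_
  rw [Finset.mem_product, Finset.mem_range, Finset.mem_range] at hc
  split_ifs
  · exact mul_le_mul_of_nonneg_left (h _ hc.1 _ hc.2) (by positivity)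
  · exact le_rfl

theorem HH_mono {L : ℕ} (X : ℕ → Bool) {V W : ℕ → ℕ → ℚ} (h : ∀ p < L, ∀ r < L, V p r ≤ W p r) :
    HH L (5 / 8 : ℚ) X V ≤ HH L (5 / 8 : ℚ) X W := by
  rw [HH, HH]
  refine Finset.sum_le_sum fun c hc => ?_
  rw [Finset.mem_product, Finset.mem_range, Finset.mem_range] at hc
  split_ifs
  · exact mul_le_mul_of_nonneg_left (h _ hc.1 _ hc.2) (by positivity)
  · exact le_rfl

theorem It_succ' (L : ℕ) (x : ℚ) (V : ℕ → ℕ → ℚ) (k : ℕ) :
    It L x V (k + 1) = It L x (TT L x V) k := by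
  induction k with
  | zero => rfl
  | succ k ih => rw [It, ih]; rfl

theorem cert_spec {L : ℕ} {X : ℕ → Bool} {ln ld : ℕ} (hld : 0 < ld) (n : ℕ) :
    ∀ (cn cd : ℕ) (M : List (List ℕ)) (S : ℚ) (V : ℕ → ℕ → ℚ), 0 < cd → 0 < S → AgQ L S M V →
      cert L X ln ld n cn cd M = true → ∀ k,
      HH L (5 / 8 : ℚ) X (It L (5 / 8 : ℚ) V k) ≤ cn / (cd * S) * (ln / ld) ^ k := by
  have hld' : (0 : ℚ) < ld := by exact_mod_cast hld
  have hln' : (0 : ℚ) ≤ ln := by positivity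
  have head : ∀ (cn cd : ℕ) (M : List (List ℕ)) (S : ℚ) (V : ℕ → ℕ → ℚ), 0 < cd → 0 < S →
      AgQ L S M V → Nat.ble (headQ L X M * cd) (cn * 8 ^ (2 * L)) = true →
      HH L (5 / 8 : ℚ) X V ≤ cn / (cd * S) := by
    intro cn cd M S V hcd hS hA h
    have h1 : headQ L X M * cd ≤ cn * 8 ^ (2 * L) := Nat.le_of_ble_eq_true h
    have h2 : ((headQ L X M * cd : ℕ) : ℚ) ≤ ((cn * 8 ^ (2 * L) : ℕ) : ℚ) := by exact_mod_cast h1
    rw [Nat.cast_mul, hA.head X] at h2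
    push_cast at h2
    have hcd' : (0 : ℚ) < cd := by exact_mod_cast hcd
    rw [le_div_iff₀ (by positivity)]
    have h8 : (0 : ℚ) < 8 ^ (2 * L) := by positivity
    have h3 : 8 ^ (2 * L) * (HH L (5 / 8 : ℚ) X V * (cd * S)) ≤ 8 ^ (2 * L) * cn := by
      linarith
    exact le_of_mul_le_mul_left h3 h8
  induction n with
  | zero =>
    intro cn cd M S V hcd hS hA h k
    rw [cert, Bool.and_eq_true] at h
    have h0 := head cn cd M S V hcd hS hA h.1
    have hr : ∀ p < L, ∀ r < L, TT L (5 / 8 : ℚ) V p r ≤ (ln / ld) * V p r := by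
      intro p hp r hr
      have h1 := Nat.le_of_ble_eq_true (allR_spec (allR_spec h.2 p hp) r hr)
      have h2 : ((lkQ (stepQ L M) p r * ld : ℕ) : ℚ) ≤
        ((ln * 8 ^ (2 * L) * lkQ M p r : ℕ) : ℚ) := by exact_mod_cast h1
      rw [Nat.cast_mul, Nat.cast_mul, hA.step p hp r hr, hA p hp r hr] at h2
      push_cast at h2
      have h8 : (0 : ℚ) < S * 8 ^ (2 * L) * ld := by positivity
      have h3 : S * 8 ^ (2 * L) * ld * TT L (5 / 8 : ℚ) V p r ≤
          S * 8 ^ (2 * L) * ld * ((ln / ld) * V p r) := by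
        have : S * 8 ^ (2 * L) * ld * ((ln / ld) * V p r) = ln * 8 ^ (2 * L) * (S * V p r) := by
          field_simp
        rw [this]; linarith
      exact le_of_mul_le_mul_left h3 h8
    have hk : ∀ k, ∀ p < L, ∀ r < L, It L (5 / 8 : ℚ) V k p r ≤ (ln / ld) ^ k * V p r := by
      intro k
      induction k with
      | zero => intro p _ r _; simp [It]
      | succ k ih =>
        intro p hp r hr'
        calc It L (5 / 8 : ℚ) V (k + 1) p r = TT L (5 / 8 : ℚ) (It L (5 / 8 : ℚ) V k) p r := rfl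
          _ ≤ TT L (5 / 8 : ℚ) (fun p r => (ln / ld) ^ k * V p r) p r := TT_mono ih p r
          _ = (ln / ld) ^ k * TT L (5 / 8 : ℚ) V p r := TT_mul _ _ _ _ _ _
          _ ≤ (ln / ld) ^ k * ((ln / ld) * V p r) :=
            mul_le_mul_of_nonneg_left (hr p hp r hr') (by positivity)
          _ = (ln / ld) ^ (k + 1) * V p r := by ring
    calc HH L (5 / 8 : ℚ) X (It L (5 / 8 : ℚ) V k)
        ≤ HH L (5 / 8 : ℚ) X (fun p r => (ln / ld) ^ k * V p r) := HH_mono X (hk k)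
      _ = (ln / ld) ^ k * HH L (5 / 8 : ℚ) X V := HH_mul _ _ _ _ _
      _ ≤ (ln / ld) ^ k * (cn / (cd * S)) := mul_le_mul_of_nonneg_left h0 (by positivity)
      _ = cn / (cd * S) * (ln / ld) ^ k := by ring
  | succ n ih =>
    intro cn cd M S V hcd hS hA h k
    rw [cert, Bool.and_eq_true] at h
    have h0 := head cn cd M S V hcd hS hA h.1
    cases k with
    | zero => simpa [It] using h0
    | succ k =>
      have h1 := ih (cn * ln * 8 ^ (2 * L)) (cd * ld) (stepQ L M) (S * 8 ^ (2 * L)) _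
        (Nat.mul_pos hcd hld) (by positivity) hA.step h.2 k
      rw [It_succ']
      refine h1.trans (le_of_eq ?_)
      have hcd' : (0 : ℚ) < cd := by exact_mod_cast hcd
      push_cast
      rw [pow_succ]
      field_simp

theorem agC (L : ℕ) (Y : ℕ → Bool) : AgQ L 1 (qC L Y) (VC Y) := by
  intro p hp r hr
  rw [qC, lkQ_mapR L (fun _ r => if Y r = true then 1 else 0) hp hr, VC]
  split_ifs <;> simp

theorem agE (L : ℕ) : AgQ L 1 (qE L) VE := by
  intro p hp r hr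
  rw [qE, lkQ_mapR L (fun p r => if r ≤ p + 1 then 1 else 0) hp hr, VE]
  split_ifs <;> simp

theorem agO (L : ℕ) : AgQ L (8 ^ (2 * L)) (qO L) (VO L (5 / 8 : ℚ)) := by
  intro p hp r hr
  rw [qO, lkQ_mapR L (fun p r => sumQ L fun k =>
    if L ≤ 2 * k + 2 ∧ k ≤ p + 1 ∧ r ≤ k + 1 then wq L (k + 1) else 0) hp hr, VO, cast_sumQ,
    Finset.mul_sum]
  refine Finset.sum_congr rfl fun k hk => ?_
  rw [Finset.mem_range] at hk
  split_ifs with h1
  · rw [wq_cast (by omega)]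
  · simp

end Pool.Agent.H502R2
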