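import Pool.Agent.H502R2.GF

/-!
Transfer recursions and the sets they count.
-/

namespace Pool.Agent.H502R2

open Polynomial Finset

section defs
variable {R : Type*} [CommSemiring R]

/-- transfer operator -/
def TT (L : ℕ) (x : R) (V : ℕ → ℕ → R) (p r : ℕ) : R :=
  ∑ c ∈ range L ×ˢ range L,
    if L ≤ c.1 + c.2 + 2 ∧ c.1 ≤ p + 1 ∧ r ≤ c.2 + 1 then x ^ (c.1 + c.2 + 2) * V c.1 c.2 else 0

/-- head functional -/
def HH (L : ℕ) (x : R) (X : ℕ → Bool) (V : ℕ → ℕ → R) : R :=
  ∑ c ∈ range L ×ˢ range L,
    if L ≤ c.1 + c.2 + 2 ∧ X c.1 = true then x ^ (c.1 + c.2 + 2) * V c.1 c.2 else 0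

/-- terminal vector with end flag -/
def VC (Y : ℕ → Bool) : ℕ → ℕ → R := fun _ r => if Y r = true then 1 else 0

/-- terminal vector, even self-paired class -/
def VE : ℕ → ℕ → R := fun p r => if r ≤ p + 1 then 1 else 0

/-- terminal vector, odd self-paired class -/
def VO (L : ℕ) (x : R) : ℕ → ℕ → R := fun p r =>
  ∑ k ∈ range L, if L ≤ 2 * k + 2 ∧ k ≤ p + 1 ∧ r ≤ k + 1 then x ^ (k + 1) else 0

/-- iterates -/
def It (L : ℕ) (x : R) (V : ℕ → ℕ → R) : ℕ → ℕ → ℕ → R
  | 0 => V
  | n + 1 => TT L x (It L x V n)

/-- two step iteration for self-paired classes -/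
def DIt (L : ℕ) (x : R) : ℕ → ℕ → ℕ → R
  | 0 => VE
  | 1 => VO L x
  | n + 2 => TT L x (DIt L x n)

/-- pair of classes of length `l` -/
def Cp (L : ℕ) (x : R) (X Y : ℕ → Bool) : ℕ → R
  | 0 => 1
  | n + 1 => HH L x X (It L x (VC Y) n)

/-- self-paired class of length `l` -/
def Dp (L : ℕ) (x : R) (X : ℕ → Bool) : ℕ → R
  | 0 => 1
  | 1 => ∑ k ∈ range L, if L ≤ 2 * k + 2 ∧ X k = true then x ^ (k + 1) else 0
  | n + 2 => HH L x X (DIt L x n)

end defs

/-- chain condition -/
def Ch {n : ℕ} (P : Fin n → ℕ) : Prop := ∀ i j : Fin n, (j : ℕ) = i + 1 → P j ≤ P i + 1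

/-- weight of a pair of columns -/
def wt2 {n : ℕ} (a : (Fin n → ℕ) × (Fin n → ℕ)) : ℕ := wt a.1 + wt a.2

open Classical in
/-- pairs of columns, given outer neighbours -/
noncomputable def PS (L n p r : ℕ) (Y : ℕ → Bool) : Finset ((Fin n → ℕ) × (Fin n → ℕ)) :=
  ((Wd L n) ×ˢ (Wd L n)).filter fun a => Ch a.1 ∧ Ch a.2 ∧
    (∀ j, L ≤ a.1 j + a.2 (Fin.rev j) + 2) ∧ (∀ i : Fin n, (i : ℕ) = 0 → a.1 i ≤ p + 1) ∧
    (∀ i : Fin n, (i : ℕ) = 0 → Y (a.2 i) = true) ∧
    (∀ i : Fin n, (i : ℕ) + 1 = n → r ≤ a.2 i + 1) ∧ (n = 0 → Y r = true)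

theorem wt_succ {n : ℕ} (f : Fin (n + 1) → ℕ) :
    wt f = (f 0 + 1) + wt (fun i : Fin n => f i.succ) := by
  rw [wt, Fin.sum_univ_succ]; rfl

theorem wt_castSucc {n : ℕ} (f : Fin (n + 1) → ℕ) :
    wt f = (f (Fin.last n) + 1) + wt (fun i : Fin n => f i.castSucc) := by
  rw [wt, Fin.sum_univ_castSucc, add_comm]; rfl

theorem PS_le (L : ℕ) (Y : ℕ → Bool) (n : ℕ) : ∀ p r : ℕ,
    PLE (GF (PS L n p r Y) wt2) (It L (X : ℕ[X]) (VC Y) n p r) := by
  classical
  induction n with
  | zero =>
    intro p r
    show PLE _ (VC Y p r)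
    rw [VC]
    split_ifs with h
    · apply GF_subsingleton
      intro a _
      simp [wt2, wt]
    · rw [GF_empty]
      · exact PLE.zero_le _
      · intro a ha
        simp only [PS, Finset.mem_filter] at ha
        exact h (ha.2.2.2.2.2.2.2 trivial)
  | succ n ih =>
    intro p r
    show PLE _ (TT L X (It L (X : ℕ[X]) (VC Y) n) p r)
    rw [TT]
    refine GF_fiber _ (fun a => (a.1 0, a.2 (Fin.last n))) ?_ _ ?_
    · intro a ha
      simp only [PS, Finset.mem_filter, Finset.mem_product, mem_Wd] at ha
      simp only [Finset.mem_product, Finset.mem_range]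
      exact ⟨ha.1.1 _, ha.1.2 _⟩
    · rintro ⟨c, d⟩ _
      split_ifs with h
      · refine (GF_shift (T := PS L n c d Y) (w' := wt2) (c + d + 2)
          (fun a => (fun i => a.1 i.succ, fun i => a.2 i.castSucc)) ?_ ?_ ?_).trans
          ((PLE.refl _).mul (ih c d))
        · intro a ha
          simp only [PS, Finset.mem_filter, Finset.mem_product, mem_Wd, Prod.mk.injEq] at ha
          obtain ⟨⟨⟨hP, hQ⟩, c1, c2, hpair, h0, hY, hl, _⟩, rfl, rfl⟩ := ha
          simp only [PS, Finset.mem_filter, Finset.mem_product, mem_Wd]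
          refine ⟨⟨fun i => hP _, fun i => hQ _⟩, ?_, ?_, ?_, ?_, ?_, ?_, ?_⟩
          · intro i j hij
            exact c1 _ _ (by simp [hij])
          · intro i j hij
            exact c2 _ _ (by simp [hij])
          · intro j
            have := hpair j.succ
            rwa [Fin.rev_succ] at this
          · intro i hi
            exact c1 _ _ (by simp [hi])
          · intro i hi
            exact hY _ (by simpa using hi)
          · intro i hi
            exact c2 _ _ (by simp [hi])
          · intro hn
            subst hn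
            exact hY _ (by simp)
        · intro a ha b hb hab
          simp only [PS, Finset.coe_filter, Set.mem_ofPred_eq, Prod.mk.injEq] at ha hb
          obtain ⟨_, ha1, ha2⟩ := ha
          obtain ⟨_, hb1, hb2⟩ := hb
          simp only [Prod.mk.injEq] at hab
          ext i
          · refine Fin.cases ?_ (fun i => ?_) i
            · rw [ha1, hb1]
            · exact congrFun hab.1 i
          · refine Fin.lastCases ?_ (fun i => ?_) i
            · rw [ha2, hb2]
            · exact congrFun hab.2 i
        · intro a ha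
          simp only [PS, Finset.mem_filter, Prod.mk.injEq] at ha
          obtain ⟨_, ha1, ha2⟩ := ha
          rw [wt2, wt_succ a.1, wt_castSucc a.2, ha1, ha2, wt2]
          ring
      · rw [GF_empty]
        · exact PLE.zero_le _
        · intro a ha
          simp only [PS, Finset.mem_filter, Finset.mem_product, mem_Wd, Prod.mk.injEq] at ha
          obtain ⟨⟨⟨hP, hQ⟩, c1, c2, hpair, h0, hY, hl, _⟩, rfl, rfl⟩ := ha
          apply h
          refine ⟨?_, h0 0 (by simp), hl _ (by simp)⟩
          have := hpair 0
          rwa [Fin.rev_zero] at this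

open Classical in
/-- pairs of columns with flags on the first elements -/
noncomputable def CS (L n : ℕ) (X Y : ℕ → Bool) : Finset ((Fin n → ℕ) × (Fin n → ℕ)) :=
  ((Wd L n) ×ˢ (Wd L n)).filter fun a => Ch a.1 ∧ Ch a.2 ∧
    (∀ j, L ≤ a.1 j + a.2 (Fin.rev j) + 2) ∧ (∀ i : Fin n, (i : ℕ) = 0 → X (a.1 i) = true) ∧
    (∀ i : Fin n, (i : ℕ) = 0 → Y (a.2 i) = true)

theorem CS_le (L n : ℕ) (X' Y : ℕ → Bool) :
    PLE (GF (CS L n X' Y) wt2) (Cp L (X : ℕ[X]) X' Y n) := by
  classical
  cases n with
  | zero =>
    exact GF_subsingleton (by intro a _; simp [wt2, wt])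
  | succ n =>
    show PLE _ (HH L X X' (It L (X : ℕ[X]) (VC Y) n))
    rw [HH]
    refine GF_fiber _ (fun a => (a.1 0, a.2 (Fin.last n))) ?_ _ ?_
    · intro a ha
      simp only [CS, Finset.mem_filter, Finset.mem_product, mem_Wd] at ha
      simp only [Finset.mem_product, Finset.mem_range]
      exact ⟨ha.1.1 _, ha.1.2 _⟩
    · rintro ⟨c, d⟩ _
      split_ifs with h
      · refine (GF_shift (T := PS L n c d Y) (w' := wt2) (c + d + 2)
          (fun a => (fun i => a.1 i.succ, fun i => a.2 i.castSucc)) ?_ ?_ ?_).trans
          ((PLE.refl _).mul (PS_le L Y n c d))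
        · intro a ha
          simp only [CS, Finset.mem_filter, Finset.mem_product, mem_Wd, Prod.mk.injEq] at ha
          obtain ⟨⟨⟨hP, hQ⟩, c1, c2, hpair, h0, hY⟩, rfl, rfl⟩ := ha
          simp only [PS, Finset.mem_filter, Finset.mem_product, mem_Wd]
          refine ⟨⟨fun i => hP _, fun i => hQ _⟩, ?_, ?_, ?_, ?_, ?_, ?_, ?_⟩
          · intro i j hij
            exact c1 _ _ (by simp [hij])
          · intro i j hij
            exact c2 _ _ (by simp [hij])
          · intro j
            have := hpair j.succ
            rwa [Fin.rev_succ] at this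
          · intro i hi
            exact c1 _ _ (by simp [hi])
          · intro i hi
            exact hY _ (by simpa using hi)
          · intro i hi
            exact c2 _ _ (by simp [hi])
          · intro hn
            subst hn
            exact hY _ (by simp)
        · intro a ha b hb hab
          simp only [CS, Finset.coe_filter, Set.mem_ofPred_eq, Prod.mk.injEq] at ha hb
          obtain ⟨_, ha1, ha2⟩ := ha
          obtain ⟨_, hb1, hb2⟩ := hb
          simp only [Prod.mk.injEq] at hab
          ext i
          · refine Fin.cases ?_ (fun i => ?_) i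
            · rw [ha1, hb1]
            · exact congrFun hab.1 i
          · refine Fin.lastCases ?_ (fun i => ?_) i
            · rw [ha2, hb2]
            · exact congrFun hab.2 i
        · intro a ha
          simp only [CS, Finset.mem_filter, Prod.mk.injEq] at ha
          obtain ⟨_, ha1, ha2⟩ := ha
          rw [wt2, wt_succ a.1, wt_castSucc a.2, ha1, ha2, wt2]
          ring
      · rw [GF_empty]
        · exact PLE.zero_le _
        · intro a ha
          simp only [CS, Finset.mem_filter, Finset.mem_product, mem_Wd, Prod.mk.injEq] at ha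
          obtain ⟨⟨⟨hP, hQ⟩, c1, c2, hpair, h0, hY⟩, rfl, rfl⟩ := ha
          apply h
          refine ⟨?_, h0 0 (by simp)⟩
          have := hpair 0
          rwa [Fin.rev_zero] at this

open Classical in
/-- self-paired column, given outer neighbours -/
noncomputable def DS (L n p r : ℕ) : Finset (Fin n → ℕ) :=
  (Wd L n).filter fun a => Ch a ∧ (∀ j, L ≤ a j + a (Fin.rev j) + 2) ∧
    (∀ i : Fin n, (i : ℕ) = 0 → a i ≤ p + 1) ∧ (∀ i : Fin n, (i : ℕ) + 1 = n → r ≤ a i + 1) ∧
    (n = 0 → r ≤ p + 1)

theorem wt_peel {n : ℕ} (f : Fin (n + 2) → ℕ) :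
    wt f = (f 0 + f (Fin.last (n + 1)) + 2) + wt (fun i : Fin n => f (mid i)) := by
  rw [wt, sum_peel, wt]
  ring

theorem DS_le (L : ℕ) (n : ℕ) : ∀ p r : ℕ,
    PLE (GF (DS L n p r) wt) (DIt L (X : ℕ[X]) n p r) := by
  classical
  induction n using Nat.twoStepInduction with
  | zero =>
    intro p r
    show PLE _ (VE p r)
    rw [VE]
    split_ifs with h
    · apply GF_subsingleton
      intro a _
      simp [wt]
    · rw [GF_empty]
      · exact PLE.zero_le _
      · intro a ha
        simp only [DS, Finset.mem_filter] at ha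
        exact h (ha.2.2.2.2.2 trivial)
  | one =>
    intro p r
    show PLE _ (VO L X p r)
    rw [VO]
    refine GF_fiber _ (fun a => a 0) ?_ _ ?_
    · intro a ha
      simp only [DS, Finset.mem_filter, mem_Wd] at ha
      exact Finset.mem_range.mpr (ha.1 _)
    · intro k _
      split_ifs with h
      · have := GF_shift (S := (DS L 1 p r).filter (fun a => a 0 = k)) (w := wt)
          (T := (Finset.univ : Finset Unit)) (w' := fun _ => 0) (k + 1) (fun _ => ())
          (by simp) (by
            intro a ha b hb _
            simp only [Finset.coe_filter, Set.mem_ofPred_eq] at ha hb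
            funext i
            rw [Subsingleton.elim i 0, ha.2, hb.2])
          (by
            intro a ha
            simp only [Finset.mem_filter] at ha
            simp [wt, ha.2])
        refine this.trans ?_
        have h1 : GF (Finset.univ : Finset Unit) (fun _ => 0) = 1 := by simp [GF]
        rw [h1, mul_one]
        exact PLE.refl _
      · rw [GF_empty]
        · exact PLE.zero_le _
        · intro a ha
          simp only [DS, Finset.mem_filter, mem_Wd] at ha
          obtain ⟨⟨_, _, hs, h0, hl, _⟩, rfl⟩ := ha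
          apply h
          refine ⟨?_, h0 0 (by simp), hl 0 (by simp)⟩
          have := hs 0
          rw [Subsingleton.elim (Fin.rev (0 : Fin 1)) 0] at this
          omega
  | more n ih _ =>
    intro p r
    show PLE _ (TT L X (DIt L (X : ℕ[X]) n) p r)
    rw [TT]
    refine GF_fiber _ (fun a => (a 0, a (Fin.last (n + 1)))) ?_ _ ?_
    · intro a ha
      simp only [DS, Finset.mem_filter, mem_Wd] at ha
      simp only [Finset.mem_product, Finset.mem_range]
      exact ⟨ha.1 _, ha.1 _⟩
    · rintro ⟨c, d⟩ _
      split_ifs with h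
      · refine (GF_shift (T := DS L n c d) (w' := wt) (c + d + 2)
          (fun a => (fun i => a (mid i))) ?_ ?_ ?_).trans
          ((PLE.refl _).mul (ih c d))
        · intro a ha
          simp only [DS, Finset.mem_filter, mem_Wd, Prod.mk.injEq] at ha
          obtain ⟨⟨hP, c1, hs, h0, hl, _⟩, rfl, rfl⟩ := ha
          simp only [DS, Finset.mem_filter, mem_Wd]
          refine ⟨fun i => hP _, ?_, ?_, ?_, ?_, ?_⟩
          · intro i j hij
            exact c1 _ _ (by simp [hij])
          · intro j
            have := hs (mid j)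
            rwa [rev_mid] at this
          · intro i hi
            exact c1 _ _ (by simp [hi])
          · intro i hi
            exact c1 _ _ (by simp [hi])
          · intro hn
            subst hn
            exact c1 _ _ (by simp)
        · intro a ha b hb hab
          simp only [Finset.coe_filter, Set.mem_ofPred_eq, Prod.mk.injEq] at ha hb
          exact peel_inj (ha.2.1.trans hb.2.1.symm) (ha.2.2.trans hb.2.2.symm) hab
        · intro a ha
          simp only [Finset.mem_filter, Prod.mk.injEq] at ha
          rw [wt_peel, ha.2.1, ha.2.2]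
      · rw [GF_empty]
        · exact PLE.zero_le _
        · intro a ha
          simp only [DS, Finset.mem_filter, mem_Wd, Prod.mk.injEq] at ha
          obtain ⟨⟨hP, c1, hs, h0, hl, _⟩, rfl, rfl⟩ := ha
          apply h
          refine ⟨?_, h0 0 (by simp), hl _ (by simp)⟩
          have := hs 0
          rwa [Fin.rev_zero] at this

open Classical in
/-- self-paired column with flag -/
noncomputable def DX (L n : ℕ) (X : ℕ → Bool) : Finset (Fin n → ℕ) :=
  (Wd L n).filter fun a => Ch a ∧ (∀ j, L ≤ a j + a (Fin.rev j) + 2) ∧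
    (∀ i : Fin n, (i : ℕ) = 0 → X (a i) = true)

theorem DX_le (L n : ℕ) (X' : ℕ → Bool) :
    PLE (GF (DX L n X') wt) (Dp L (X : ℕ[X]) X' n) := by
  classical
  match n with
  | 0 => exact GF_subsingleton (by intro a _; simp [wt])
  | 1 =>
    show PLE _ (∑ k ∈ range L, if L ≤ 2 * k + 2 ∧ X' k = true then (X : ℕ[X]) ^ (k + 1) else 0)
    refine GF_fiber _ (fun a => a 0) ?_ _ ?_
    · intro a ha
      simp only [DX, Finset.mem_filter, mem_Wd] at ha
      exact Finset.mem_range.mpr (ha.1 _)
    · intro k _
      split_ifs with h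
      · have := GF_shift (S := (DX L 1 X').filter (fun a => a 0 = k)) (w := wt)
          (T := (Finset.univ : Finset Unit)) (w' := fun _ => 0) (k + 1) (fun _ => ())
          (by simp) (by
            intro a ha b hb _
            simp only [Finset.coe_filter, Set.mem_ofPred_eq] at ha hb
            funext i
            rw [Subsingleton.elim i 0, ha.2, hb.2])
          (by
            intro a ha
            simp only [Finset.mem_filter] at ha
            simp [wt, ha.2])
        refine this.trans ?_
        have h1 : GF (Finset.univ : Finset Unit) (fun _ => 0) = 1 := by simp [GF]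
        rw [h1, mul_one]
        exact PLE.refl _
      · rw [GF_empty]
        · exact PLE.zero_le _
        · intro a ha
          simp only [DX, Finset.mem_filter, mem_Wd] at ha
          obtain ⟨⟨_, _, hs, h0⟩, rfl⟩ := ha
          apply h
          refine ⟨?_, h0 0 (by simp)⟩
          have := hs 0
          rw [Subsingleton.elim (Fin.rev (0 : Fin 1)) 0] at this
          omega
  | n + 2 =>
    show PLE _ (HH L X X' (DIt L (X : ℕ[X]) n))
    rw [HH]
    refine GF_fiber _ (fun a => (a 0, a (Fin.last (n + 1)))) ?_ _ ?_
    · intro a ha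
      simp only [DX, Finset.mem_filter, mem_Wd] at ha
      simp only [Finset.mem_product, Finset.mem_range]
      exact ⟨ha.1 _, ha.1 _⟩
    · rintro ⟨c, d⟩ _
      split_ifs with h
      · refine (GF_shift (T := DS L n c d) (w' := wt) (c + d + 2)
          (fun a => (fun i => a (mid i))) ?_ ?_ ?_).trans
          ((PLE.refl _).mul (DS_le L n c d))
        · intro a ha
          simp only [DX, Finset.mem_filter, mem_Wd, Prod.mk.injEq] at ha
          obtain ⟨⟨hP, c1, hs, h0⟩, rfl, rfl⟩ := ha
          simp only [DS, Finset.mem_filter, mem_Wd]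
          refine ⟨fun i => hP _, ?_, ?_, ?_, ?_, ?_⟩
          · intro i j hij
            exact c1 _ _ (by simp [hij])
          · intro j
            have := hs (mid j)
            rwa [rev_mid] at this
          · intro i hi
            exact c1 _ _ (by simp [hi])
          · intro i hi
            exact c1 _ _ (by simp [hi])
          · intro hn
            subst hn
            exact c1 _ _ (by simp)
        · intro a ha b hb hab
          simp only [Finset.coe_filter, Set.mem_ofPred_eq, Prod.mk.injEq] at ha hb
          exact peel_inj (ha.2.1.trans hb.2.1.symm) (ha.2.2.trans hb.2.2.symm) hab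
        · intro a ha
          simp only [Finset.mem_filter, Prod.mk.injEq] at ha
          rw [wt_peel, ha.2.1, ha.2.2]
      · rw [GF_empty]
        · exact PLE.zero_le _
        · intro a ha
          simp only [DX, Finset.mem_filter, mem_Wd, Prod.mk.injEq] at ha
          obtain ⟨⟨hP, c1, hs, h0⟩, rfl, rfl⟩ := ha
          apply h
          refine ⟨?_, h0 0 (by simp)⟩
          have := hs 0
          rwa [Fin.rev_zero] at this

end Pool.Agent.H502R2
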