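import Pool.Agent.H502R2.Words

/-!
Combination of the word families into the closed bounds `Uq`, `Vq`.
-/

namespace Pool.Agent.H502R2

open Polynomial Finset

/-- case I -/
noncomputable def PI (q r n d : ℕ) : ℕ[X] :=
  X ^ q * (GF (RegS q r d (Za d)) wt * GF (RegS (q - 1) n d (fun _ => tt)) wt)

/-- case II -/
noncomputable def PII (q r n e : ℕ) : ℕ[X] :=
  X ^ q * (GF (RS q r (zr2 q) (zc2 q)) wt * GF (VS (q - 1) n (r + 1 + e) e) wt)

/-- case III -/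
noncomputable def PIII (q r n : ℕ) : ℕ[X] :=
  X ^ q * (GF (RS q r (zr2 q) (zc2 q)) wt * GF (RS (q - 1) n (zl2 (q - 1)) (zc (q - 1))) wt)

/-- no chains -/
noncomputable def PV (q r n : ℕ) : ℕ[X] :=
  X ^ q * (GF (RS q r (zr q) (zc q)) wt * GF (RS (q - 1) n (zr (q - 1)) (zc (q - 1))) wt)

/-- index set of case I -/
def I1 (q G : ℕ) : Finset (ℕ × ℕ × ℕ) :=
  (range (2 * G / q + 1) ×ˢ range (2 * G / (q - 1) + 1) ×ˢ Icc 1 (G / 2)).filter
    fun p => p.2.2 ≤ p.1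

/-- index set of case II -/
def I2 (q G : ℕ) : Finset (ℕ × ℕ × ℕ) :=
  (range (2 * G / q + 1) ×ˢ range (2 * G / (q - 1) + 1) ×ˢ Icc 1 (G / 2)).filter
    fun p => 2 * p.2.2 ≤ p.2.1 ∧ p.1 + 1 + p.2.2 ≤ G / 2

/-- index set of case III -/
def I3 (q G : ℕ) : Finset (ℕ × ℕ) :=
  range (2 * G / q + 1) ×ˢ range (2 * G / (q - 1) + 1)

theorem partI (q G : ℕ) :
    PLE (∑ p ∈ I1 q G, PI q p.1 p.2.1 p.2.2)
      (X ^ q * ∑ d ∈ Icc 1 (G / 2), Sa q (X : ℕ[X]) (2 * G / q) d *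
        Sg (q - 1) X (2 * G / (q - 1)) d) := by
  have h1 : PLE (∑ d ∈ Icc 1 (G / 2), X ^ q *
      ((∑ r ∈ Icc d (2 * G / q), GF (RegS q r d (Za d)) wt) *
      (∑ n ∈ range (2 * G / (q - 1) + 1), GF (RegS (q - 1) n d (fun _ => tt)) wt)))
      (X ^ q * ∑ d ∈ Icc 1 (G / 2), Sa q (X : ℕ[X]) (2 * G / q) d *
        Sg (q - 1) X (2 * G / (q - 1)) d) := by
    rw [Finset.mul_sum]
    refine PLE.sum fun d hd => (PLE.refl _).mul (PLE.mul ?_ ?_)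
    · exact sum_flag_le q _ d (Finset.mem_Icc.mp hd).1
    · exact sum_free_le (q - 1) _ d (Finset.mem_Icc.mp hd).1
  refine PLE.trans ?_ h1
  have h2 : (∑ d ∈ Icc 1 (G / 2), X ^ q *
      ((∑ r ∈ Icc d (2 * G / q), GF (RegS q r d (Za d)) wt) *
      (∑ n ∈ range (2 * G / (q - 1) + 1), GF (RegS (q - 1) n d (fun _ => tt)) wt))) =
      ∑ x ∈ (Icc 1 (G / 2)).sigma (fun d => Icc d (2 * G / q) ×ˢ range (2 * G / (q - 1) + 1)),
        PI q x.2.1 x.2.2 x.1 := by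
    rw [Finset.sum_sigma]
    refine Finset.sum_congr rfl fun d _ => ?_
    rw [Finset.sum_mul_sum, Finset.sum_product, Finset.mul_sum]
    refine Finset.sum_congr rfl fun r _ => ?_
    rw [Finset.mul_sum]
    rfl
  rw [h2]
  refine PLE.sum_inj (fun p => ⟨p.2.2, (p.1, p.2.1)⟩) ?_ ?_ ?_
  · rintro ⟨r, n, d⟩ hp
    simp only [I1, Finset.mem_filter, Finset.mem_product, Finset.mem_range, Finset.mem_Icc] at hp
    simp only [Finset.mem_sigma, Finset.mem_product, Finset.mem_range, Finset.mem_Icc]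
    omega
  · rintro ⟨r, n, d⟩ _ ⟨r', n', d'⟩ _ h
    simp only [Sigma.mk.injEq] at h
    obtain ⟨rfl, h⟩ := h
    simp only [heq_eq_eq, Prod.mk.injEq] at h
    rw [h.1, h.2]
  · rintro ⟨r, n, d⟩ _
    exact PLE.refl _

theorem partII (q G : ℕ) :
    PLE (∑ p ∈ I2 q G, PII q p.1 p.2.1 p.2.2)
      (X ^ q * (Pp (q - 1) (X : ℕ[X]) (zl1 (q - 1)) *
      ∑ d ∈ Icc 2 (G / 2), BB q X d * Sg (q - 1) X (2 * G / (q - 1)) d)) := by
  set A := 2 * G / (q - 1) with hA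
  have h1 : PLE (∑ d ∈ Icc 2 (G / 2), X ^ q * (Pp (q - 1) (X : ℕ[X]) (zl1 (q - 1)) *
      (BB q X d * ∑ n ∈ range (A + 1), GF (RegS (q - 1) n d (fun _ => tt)) wt)))
      (X ^ q * (Pp (q - 1) (X : ℕ[X]) (zl1 (q - 1)) *
      ∑ d ∈ Icc 2 (G / 2), BB q X d * Sg (q - 1) X A d)) := by
    rw [Finset.mul_sum, Finset.mul_sum]
    refine PLE.sum fun d hd => (PLE.refl _).mul ((PLE.refl _).mul ((PLE.refl _).mul ?_))
    have := (Finset.mem_Icc.mp hd).1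
    exact sum_free_le (q - 1) _ d (by omega)
  refine PLE.trans ?_ h1
  have h2 : (∑ d ∈ Icc 2 (G / 2), X ^ q * (Pp (q - 1) (X : ℕ[X]) (zl1 (q - 1)) *
      (BB q X d * ∑ n ∈ range (A + 1), GF (RegS (q - 1) n d (fun _ => tt)) wt))) =
      ∑ x ∈ (Icc 2 (G / 2)).sigma (fun d => range (d - 1) ×ˢ range (A + 1)),
        X ^ q * (yy q X x.2.1 * (Pp (q - 1) X (zl2 (q - 1)) ^ (x.1 - 2 - x.2.1) *
          Pp (q - 1) X (zl1 (q - 1)) * GF (RegS (q - 1) x.2.2 x.1 (fun _ => tt)) wt)) := by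
    rw [Finset.sum_sigma]
    refine Finset.sum_congr rfl fun d _ => ?_
    rw [BB, Finset.sum_mul_sum, Finset.sum_product, Finset.mul_sum, Finset.mul_sum]
    refine Finset.sum_congr rfl fun r _ => ?_
    rw [Finset.mul_sum, Finset.mul_sum]
    refine Finset.sum_congr rfl fun n _ => ?_
    ring
  rw [h2]
  refine PLE.sum_inj (fun p => ⟨p.1 + 1 + p.2.2, (p.1, p.2.1 - 2 * p.2.2)⟩) ?_ ?_ ?_
  · rintro ⟨r, n, e⟩ hp
    simp only [I2, Finset.mem_filter, Finset.mem_product, Finset.mem_range, Finset.mem_Icc] at hp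
    simp only [Finset.mem_sigma, Finset.mem_product, Finset.mem_range, Finset.mem_Icc]
    omega
  · rintro ⟨r, n, e⟩ hp ⟨r', n', e'⟩ hp' h
    simp only [I2, Finset.coe_filter, Set.mem_ofPred_eq] at hp hp'
    have ha : r + 1 + e = r' + 1 + e' := congrArg Sigma.fst h
    have hb : r = r' := congrArg (fun x : (Σ _ : ℕ, ℕ × ℕ) => x.2.1) h
    have hc : n - 2 * e = n' - 2 * e' := congrArg (fun x : (Σ _ : ℕ, ℕ × ℕ) => x.2.2) h
    have hp1 : 2 * e ≤ n := hp.2.1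
    have hp2 : 2 * e' ≤ n' := hp'.2.1
    have e1 : e = e' := by omega
    have e2 : n = n' := by omega
    rw [hb, e1, e2]
  · rintro ⟨r, n, e⟩ hp
    simp only [I2, Finset.mem_filter, Finset.mem_product, Finset.mem_range, Finset.mem_Icc] at hp
    obtain ⟨⟨_, _, h1e, _⟩, h2n, _⟩ := hp
    obtain ⟨e', rfl⟩ : ∃ e', e = e' + 1 := ⟨e - 1, by omega⟩
    obtain ⟨n', rfl⟩ : ∃ n', n = n' + 2 * (e' + 1) := ⟨n - 2 * (e' + 1), by omega⟩
    rw [PII]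
    refine (PLE.refl _).mul (PLE.mul (RS_le _ _ _ _) ?_)
    have h3 : r + 1 + (e' + 1) - 2 - r = e' := by omega
    have h4 : n' + 2 * (e' + 1) - 2 * (e' + 1) = n' := by omega
    show PLE (GF (VS (q - 1) (n' + 2 * (e' + 1)) (r + 1 + (e' + 1)) (e' + 1)) wt)
      (Pp (q - 1) X (zl2 (q - 1)) ^ (r + 1 + (e' + 1) - 2 - r) *
          Pp (q - 1) X (zl1 (q - 1)) *
          GF (RegS (q - 1) (n' + 2 * (e' + 1) - 2 * (e' + 1)) (r + 1 + (e' + 1))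
            (fun _ => tt)) wt)
    rw [h3, h4]
    exact VS_le (q - 1) n' (r + 1 + (e' + 1)) e'

theorem partIII (q G : ℕ) :
    PLE (∑ p ∈ I3 q G, PIII q p.1 p.2)
      (X ^ q * ((∑ r ∈ range (2 * G / q + 1), yy q (X : ℕ[X]) r) *
      ∑ n ∈ range (2 * G / (q - 1) + 1), ww (q - 1) X n)) := by
  rw [I3, Finset.sum_product, Finset.sum_mul_sum, Finset.mul_sum]
  refine PLE.sum fun r _ => ?_
  rw [Finset.mul_sum]
  exact PLE.sum fun n _ => (PLE.refl _).mul (PLE.mul (RS_le _ _ _ _) (RS_le _ _ _ _))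

theorem partV (q G : ℕ) :
    PLE (∑ p ∈ I3 q G, PV q p.1 p.2) (Vq q (X : ℕ[X]) G) := by
  rw [I3, Finset.sum_product, Vq, Finset.sum_mul_sum, Finset.mul_sum]
  refine PLE.sum fun r _ => ?_
  rw [Finset.mul_sum]
  exact PLE.sum fun n _ => (PLE.refl _).mul (PLE.mul (RS_le _ _ _ _) (RS_le _ _ _ _))

theorem parts_le (q G : ℕ) :
    PLE (∑ p ∈ I1 q G, PI q p.1 p.2.1 p.2.2 + ∑ p ∈ I2 q G, PII q p.1 p.2.1 p.2.2 +
      ∑ p ∈ I3 q G, PIII q p.1 p.2) (Uq q (X : ℕ[X]) G) := by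
  have := ((partI q G).add (partII q G)).add (partIII q G)
  rw [Uq, mul_add, mul_add]
  exact this

end Pool.Agent.H502R2
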