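import Pool.Agent.H502R2.Total
import Pool.Agent.H502R2.BlockSpec

/-!
Digits of the packed value and the comparison loop.
-/

namespace Pool.Agent.H502R2

open Finset Polynomial

section
variable {R : Type*} [CommRing R]

theorem Uq_val {q : ℕ} (hq : Good q) (B G k k1 : ℕ) (hk : k ≤ k1) (h2 : 2 * k1 = G / 2)
    (hR : ((2 ^ (B * (G + 1)) : ℕ) : R) = 0) :
    Uq q ((2 ^ B : ℕ) : R) G = ((2 ^ B : ℕ) : R) ^ q *
      ((blk q B G 0 k + blk q B G k k1 + thr q B G : ℕ) : R) := by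
  rw [Nat.cast_add, Nat.cast_add, blk_spec hq B G 0 k (Nat.zero_le _) hR,
    blk_spec hq B G k k1 hk hR, thr_spec q B G hR, Uq,
    Finset.sum_Ico_consecutive _ (by omega) (by omega)]
  congr 2
  have e : Ico (2 * 0 + 1) (2 * k1 + 1) = Icc 1 (G / 2) := by
    ext d
    rw [Finset.mem_Ico, Finset.mem_Icc]
    omega
  rw [e]
  have e2 : ∑ d ∈ Icc 2 (G / 2), BB q ((2 ^ B : ℕ) : R) d *
      Sg (q - 1) ((2 ^ B : ℕ) : R) (2 * G / (q - 1)) d = ∑ d ∈ Icc 1 (G / 2),
      BB q ((2 ^ B : ℕ) : R) d * Sg (q - 1) ((2 ^ B : ℕ) : R) (2 * G / (q - 1)) d := by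
    refine Finset.sum_subset (fun d hd => by rw [Finset.mem_Icc] at hd ⊢; omega) ?_
    intro d hd hd'
    rw [Finset.mem_Icc] at hd hd'
    have : d = 1 := by omega
    subst this
    simp [BB]
  rw [e2, Finset.mul_sum, ← Finset.sum_add_distrib]
  refine Finset.sum_congr rfl fun d _ => ?_
  ring

theorem restN_spec (B G : ℕ) (hR : ((2 ^ (B * (G + 1)) : ℕ) : R) = 0) (n : ℕ) :
    ∀ q acc : ℕ, ((restN B G n q acc : ℕ) : R) = acc +
      ∑ i ∈ range n, Vq (q + i) ((2 ^ B : ℕ) : R) G := by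
  induction n with
  | zero => intro q acc; simp [restN]
  | succ n ih =>
    intro q acc
    have h : ((Nat.pow (Nat.pow 2 B) q : ℕ) : R) = ((2 ^ B : ℕ) : R) ^ q := by
      show (((2 ^ B) ^ q : ℕ) : R) = _
      rw [Nat.cast_pow]
    have hv : ((2 ^ B : ℕ) : R) ^ q * ((vvq q B G : ℕ) : R) = Vq q ((2 ^ B : ℕ) : R) G := by
      rw [vvq_spec q B G hR]; rfl
    rw [restN, ih, cadd, cmul, h, hv,
      Finset.sum_range_succ' (fun i => Vq (q + i) ((2 ^ B : ℕ) : R) G) n, add_zero]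
    have : ∀ i, q + 1 + i = q + (i + 1) := fun i => by ring
    simp only [this]
    ring

theorem totN_spec (B G k k1 a4 b4 a5 b5 : ℕ) (hk : k ≤ k1) (h2 : 2 * k1 = G / 2)
    (hR : ((2 ^ (B * (G + 1)) : ℕ) : R) = 0) (h4a : blk 4 B G 0 k = a4)
    (h4b : blk 4 B G k k1 = b4) (h5a : blk 5 B G 0 k = a5) (h5b : blk 5 B G k k1 = b5)
    (f : ℕ[X] →+* R) (hf : f X = ((2 ^ B : ℕ) : R)) :
    ((totN B G a4 b4 a5 b5 : ℕ) : R) = f (Pm G) := by
  have h : ∀ q, ((Nat.pow (Nat.pow 2 B) q : ℕ) : R) = ((2 ^ B : ℕ) : R) ^ q := by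
    intro q
    show (((2 ^ B) ^ q : ℕ) : R) = _
    rw [Nat.cast_pow]
  have u4 := Uq_val good4 B G k k1 hk h2 hR
  have u5 := Uq_val good5 B G k k1 hk h2 hR
  rw [h4a, h4b] at u4
  rw [h5a, h5b] at u5
  have e : Icc 6 14 = Ico 6 15 := by ext q; rw [Finset.mem_Icc, Finset.mem_Ico]; omega
  rw [totN, (msk_of B G hR).land, cadd, cadd, cmul, cmul, h, h, restN_spec B G hR, Pm, map_add,
    map_add, map_sum, map_Uq, map_Uq, hf]
  simp only [map_Vq, hf]
  rw [u4, u5, e, Finset.sum_Ico_eq_sum_range]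
  have e1 : ((Nat.add (Nat.add a4 b4) (thr 4 B G) : ℕ) : R) = ((a4 + b4 + thr 4 B G : ℕ) : R) := rfl
  have e2 : ((Nat.add (Nat.add a5 b5) (thr 5 B G) : ℕ) : R) = ((a5 + b5 + thr 5 B G : ℕ) : R) := rfl
  rw [e1, e2]
  simp
  ring

end

/-- reduction modulo a power of two -/
noncomputable def Em (M : ℕ) (x : ℕ) : ℕ[X] →+* ZMod M :=
  Polynomial.eval₂RingHom (Nat.castRingHom (ZMod M)) (x : ZMod M)

theorem Em_X (M x : ℕ) : Em M x X = (x : ZMod M) := by simp [Em]

/-- truncated values -/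
def St (P : ℕ[X]) (b n g : ℕ) : ℕ := ∑ i ∈ range n, P.coeff (g + i) * b ^ i

theorem St_succ (P : ℕ[X]) (b n g : ℕ) : St P b (n + 1) g = P.coeff g + b * St P b n (g + 1) := by
  rw [St, St, Finset.sum_range_succ', Finset.mul_sum, pow_zero, mul_one, add_zero, add_comm]
  congr 1
  refine Finset.sum_congr rfl fun i _ => ?_
  rw [show g + (i + 1) = g + 1 + i by ring, pow_succ]; ring

theorem St_lt {P : ℕ[X]} {b : ℕ} (n : ℕ) : ∀ g, (∀ i < n, P.coeff (g + i) < b) →
    St P b n g < b ^ n := by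
  induction n with
  | zero => intro g _; simp [St]
  | succ n ih =>
    intro g h
    rw [St_succ]
    have h0 := h 0 (by omega)
    rw [Nat.add_zero] at h0
    have h1 := ih (g + 1) fun i hi => by
      rw [show g + 1 + i = g + (i + 1) by ring]; exact h _ (by omega)
    have h2 : b * (St P b n (g + 1) + 1) ≤ b * b ^ n := Nat.mul_le_mul_left b h1
    rw [pow_succ, mul_comm (b ^ n) b]
    rw [Nat.mul_add] at h2
    omega

theorem Em_eq (P : ℕ[X]) (b G : ℕ) :
    Em (b ^ (G + 1)) b P = ((St P b (G + 1) 0 : ℕ) : ZMod (b ^ (G + 1))) := by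
  have hz : ((b : ZMod (b ^ (G + 1))) ^ (G + 1)) = 0 := by
    rw [← Nat.cast_pow]; exact ZMod.natCast_self _
  show Polynomial.eval₂ (Nat.castRingHom (ZMod (b ^ (G + 1)))) (b : ZMod (b ^ (G + 1))) P = _
  rw [Polynomial.eval₂_eq_sum_range' (n := P.natDegree + 1 + (G + 1)) (Nat.castRingHom _)
    (by omega), St, Nat.cast_sum]
  symm
  refine Finset.sum_subset_zero_on_sdiff (Finset.range_subset_range.mpr (by omega)) ?_ ?_
  · intro i hi
    rw [Finset.mem_sdiff, Finset.mem_range, Finset.mem_range] at hi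
    have : (b : ZMod (b ^ (G + 1))) ^ i = 0 := by
      obtain ⟨j, rfl⟩ := Nat.exists_eq_add_of_le (show G + 1 ≤ i by omega)
      rw [pow_add (b : ZMod (b ^ (G + 1))) (G + 1) j, hz, zero_mul]
    rw [this, mul_zero]
  · intro i _
    simp

theorem digit_main {P : ℕ[X]} {b G N : ℕ} (hb : 0 < b) (hc : ∀ g ≤ G, P.coeff g < b)
    (hN : ((N : ℕ) : ZMod (b ^ (G + 1))) = Em (b ^ (G + 1)) b P) :
    ∀ g, g ≤ G + 1 → ∃ t, N / b ^ g = St P b (G + 1 - g) g + b ^ (G + 1 - g) * t := by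
  intro g
  induction g with
  | zero =>
    intro _
    rw [Em_eq, ZMod.natCast_eq_natCast_iff] at hN
    have h1 : St P b (G + 1) 0 < b ^ (G + 1) := St_lt (G + 1) 0 fun i hi => by
      rw [Nat.zero_add]; exact hc i (by omega)
    have h2 : N % b ^ (G + 1) = St P b (G + 1) 0 := by
      rw [Nat.ModEq, Nat.mod_eq_of_lt h1] at hN; exact hN
    refine ⟨N / b ^ (G + 1), ?_⟩
    rw [pow_zero, Nat.div_one, Nat.sub_zero, ← h2, Nat.mod_add_div]
  | succ g ih =>
    intro hg
    obtain ⟨t, ht⟩ := ih (by omega)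
    refine ⟨t, ?_⟩
    have e : G + 1 - g = (G + 1 - (g + 1)) + 1 := by omega
    rw [pow_succ, ← Nat.div_div_eq_div_mul, ht, e, St_succ, pow_succ]
    have e2 : P.coeff g + b * St P b (G + 1 - (g + 1)) (g + 1) + b ^ (G + 1 - (g + 1)) * b * t =
      P.coeff g + b * (St P b (G + 1 - (g + 1)) (g + 1) + b ^ (G + 1 - (g + 1)) * t) := by ring
    rw [e2, Nat.add_mul_div_left _ _ hb, Nat.div_eq_of_lt (hc g (by omega)), zero_add]

theorem digit {P : ℕ[X]} {b G N : ℕ} (hb : 0 < b) (hc : ∀ g ≤ G, P.coeff g < b)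
    (hN : ((N : ℕ) : ZMod (b ^ (G + 1))) = Em (b ^ (G + 1)) b P) (g : ℕ) (hg : g ≤ G) :
    N / b ^ g % b = P.coeff g := by
  obtain ⟨t, ht⟩ := digit_main hb hc hN g (by omega)
  have e : G + 1 - g = (G + 1 - (g + 1)) + 1 := by omega
  rw [ht, e, St_succ, pow_succ]
  have e2 : P.coeff g + b * St P b (G + 1 - (g + 1)) (g + 1) + b ^ (G + 1 - (g + 1)) * b * t =
    P.coeff g + b * (St P b (G + 1 - (g + 1)) (g + 1) + b ^ (G + 1 - (g + 1)) * t) := by ring
  rw [e2, Nat.add_mul_mod_self_left, Nat.mod_eq_of_lt (hc g hg)]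

/-! the loop -/

/-- Fibonacci type sequence -/
def fb (s t : ℕ) : ℕ → ℕ
  | 0 => s
  | n + 1 => fb t (s + t) n

theorem fb_add (n : ℕ) : ∀ s t, fb s t (n + 2) = fb s t (n + 1) + fb s t n := by
  induction n with
  | zero => intro s t; simp [fb]; ring
  | succ n ih =>
    intro s t
    have := ih t (s + t)
    exact this

theorem lp_spec (b : ℕ) (n : ℕ) : ∀ N s t u v : ℕ, lp b n N s t u v = true → ∀ i < n,
    N / b ^ i % b * (5 ^ i * v) + 8 ^ i * u < fb s t i * (5 ^ i * v) := by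
  induction n with
  | zero => intro N s t u v _ i hi; omega
  | succ n ih =>
    intro N s t u v h i hi
    rw [lp, Bool.and_eq_true] at h
    cases i with
    | zero =>
      have h1 : N % b * v + u + 1 ≤ s * v := Nat.le_of_ble_eq_true h.1
      simp only [pow_zero, Nat.div_one, one_mul, fb]
      omega
    | succ i =>
      have h1 := ih _ _ _ _ _ h.2 i (by omega)
      have e1 : (Nat.div N b) / b ^ i = N / b ^ (i + 1) := by
        rw [pow_succ, mul_comm, ← Nat.div_div_eq_div_mul]; rfl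
      have e2 : 5 ^ i * Nat.mul 5 v = 5 ^ (i + 1) * v := by
        show 5 ^ i * (5 * v) = _; ring
      have e3 : 8 ^ i * Nat.mul 8 u = 8 ^ (i + 1) * u := by
        show 8 ^ i * (8 * u) = _; ring
      rw [e1, e2, e3] at h1
      exact h1

theorem lpl_spec (b n s t : ℕ) (l : List ℕ) : ∀ N u v : ℕ, lpl b n s t l N u v = true →
    (∀ i, ∀ hi : i < l.length, N / b ^ i % b * (5 ^ i * v) + 8 ^ i * u < l[i] * (5 ^ i * v)) ∧
    (∀ i < n, N / b ^ (l.length + i) % b * (5 ^ (l.length + i) * v) + 8 ^ (l.length + i) * u <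
      fb s t i * (5 ^ (l.length + i) * v)) := by
  induction l with
  | nil =>
    intro N u v h
    refine ⟨fun i hi => by simp at hi, fun i hi => ?_⟩
    have := lp_spec b n N s t u v h i hi
    simpa using this
  | cons a l ih =>
    intro N u v h
    rw [lpl, Bool.and_eq_true] at h
    obtain ⟨h1, h2⟩ := ih _ _ _ h.2
    have e1 : ∀ i, (Nat.div N b) / b ^ i = N / b ^ (i + 1) := by
      intro i; rw [pow_succ, mul_comm, ← Nat.div_div_eq_div_mul]; rfl
    have e2 : ∀ i, 5 ^ i * Nat.mul 5 v = 5 ^ (i + 1) * v := by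
      intro i; show 5 ^ i * (5 * v) = _; ring
    have e3 : ∀ i, 8 ^ i * Nat.mul 8 u = 8 ^ (i + 1) * u := by
      intro i; show 8 ^ i * (8 * u) = _; ring
    constructor
    · intro i hi
      cases i with
      | zero =>
        have h1 : N % b * v + u + 1 ≤ a * v := Nat.le_of_ble_eq_true h.1
        simp only [pow_zero, Nat.div_one, one_mul, List.getElem_cons_zero]
        omega
      | succ i =>
        have := h1 i (by simpa using hi)
        rw [e1, e2, e3] at this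
        simpa using this
    · intro i hi
      have := h2 i hi
      rw [e1, e2, e3] at this
      rw [List.length_cons, show l.length + 1 + i = l.length + i + 1 by ring]
      exact this

end Pool.Agent.H502R2
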