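import Pool.Agent.H502R2.KA
import Pool.Agent.H502R2.KB
import Pool.Agent.H502R2.KC
import Pool.Agent.H502R2.KD

/-!
Final comparison, checked by the kernel.
-/

namespace Pool.Agent.H502R2

theorem fin_check : finB 488 700 680 v4a v4b v5a v5b = true := by
  decide +kernel

end Pool.Agent.H502R2
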