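import Pool.Agent.H502R2.TWords
import Pool.Agent.H502R2.Algo

/-!
Small values, checked by the kernel.
-/

namespace Pool.Agent.H502R2

/-- comparison of the values of the search with a list -/
def chkD : ℕ → List ℕ → Bool
  | _, [] => true
  | n, a :: l => Nat.beq (dfs n n 0 0 1) a && chkD (n + 1) l

theorem chkD_spec (l : List ℕ) : ∀ n, chkD n l = true → ∀ i (hi : i < l.length),
    dfs (n + i) (n + i) 0 0 1 = l[i] := by
  induction l with
  | nil => intro n _ i hi; simp at hi
  | cons a l ih =>
    intro n h i hi
    rw [chkD, Bool.and_eq_true] at h
    cases i with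
    | zero => exact Nat.eq_of_beq_eq_true h.1
    | succ i =>
      have := ih (n + 1) h.2 i (by simpa using hi)
      rw [show n + (i + 1) = n + 1 + i by ring, this]
      simp

theorem tl_check : chkD 0 tl = true := by decide +kernel

theorem t20_check : Nat.beq (dfs 20 20 0 0 1) 31042 = true := by decide +kernel

end Pool.Agent.H502R2
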