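import Pool.Agent.H502R2.Digits
import Pool.Agent.H502R2.KF
import Pool.Agent.H502R2.KT

/-!
Final assembly.
-/

namespace Pool.Agent.H502R2

open Finset Polynomial

theorem main_digit (B G k k1 a4 b4 a5 b5 : ℕ) (hk : k ≤ k1) (h2 : 2 * k1 = G / 2)
    (h4a : blk 4 B G 0 k = a4) (h4b : blk 4 B G k k1 = b4) (h5a : blk 5 B G 0 k = a5)
    (h5b : blk 5 B G k k1 = b5) (hc : ∀ g ≤ G, (Pm G).coeff g < 2 ^ B) (g : ℕ) (hg : g ≤ G) :
    totN B G a4 b4 a5 b5 / (2 ^ B) ^ g % 2 ^ B = (Pm G).coeff g := by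
  refine digit (by positivity) hc ?_ g hg
  refine totN_spec B G k k1 a4 b4 a5 b5 hk h2 ?_ h4a h4b h5a h5b _ (Em_X _ _)
  rw [pow_mul]
  exact ZMod.natCast_self _

theorem Pm_lt (B G : ℕ) (hG : 14 ≤ G) (hB : 2872 * 8 ^ G < 2 ^ B * 5 ^ G) (g : ℕ) (hg : g ≤ G) :
    (Pm G).coeff g < 2 ^ B := by
  have h := Pm_coeff_le G g hG
  have h1 : ((5 : ℚ) / 8) ^ G ≤ (5 / 8) ^ g :=
    pow_le_pow_of_le_one (by norm_num) (by norm_num) hg
  have h2 : (2872 : ℚ) < 2 ^ B * (5 / 8) ^ G := by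
    have h8 : (0 : ℚ) < 8 ^ G := by positivity
    have hB' : (2872 : ℚ) * 8 ^ G < 2 ^ B * 5 ^ G := by exact_mod_cast hB
    rw [div_pow, ← mul_div_assoc, lt_div_iff₀ h8]
    exact hB'
  have h3 : ((Pm G).coeff g : ℚ) < 2 ^ B := by
    by_contra hcon
    push Not at hcon
    have h4 : (2 : ℚ) ^ B * (5 / 8) ^ G ≤ ((Pm G).coeff g : ℚ) * (5 / 8) ^ g :=
      mul_le_mul hcon h1 (by positivity) (by positivity)
    linarith
  exact_mod_cast h3

/-- lower bounds for the numbers of words -/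
def Tt (n : ℕ) : ℕ := if n < 20 then tl.getD n 0 else fb 31042 49635 (n - 20)

theorem Tt_add (k : ℕ) : Tt (20 + k) = fb 31042 49635 k := by
  rw [Tt, if_neg (by omega), Nat.add_sub_cancel_left]

theorem tl_length : tl.length = 20 := rfl

theorem Tt_le (n : ℕ) : Tt n ≤ (TW n).ncard := by
  have hs : ∀ n, n < 20 → Tt n ≤ (TW n).ncard := by
    intro n hn
    have h := chkD_spec tl 0 tl_check n (by rw [tl_length]; exact hn)
    rw [Nat.zero_add] at h
    rw [Tt, if_pos hn, List.getD_eq_getElem _ _ (by rw [tl_length]; exact hn), ← h]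
    exact TW_ge n
  have h20 : fb 31042 49635 0 ≤ (TW 20).ncard := by
    have h := Nat.eq_of_beq_eq_true t20_check
    show 31042 ≤ _
    rw [← h]
    exact TW_ge 20
  have h21 : fb 31042 49635 1 ≤ (TW 21).ncard := by
    have h1 : (TW 20).ncard + (TW 19).ncard ≤ (TW 21).ncard := TW_rec 19
    have h2 : 18593 ≤ (TW 19).ncard := hs 19 (by omega)
    have h4 : 31042 ≤ (TW 20).ncard := h20
    show 49635 ≤ _
    omega
  rcases Nat.lt_or_ge n 20 with h | h
  · exact hs n h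
  · obtain ⟨k, rfl⟩ := Nat.exists_eq_add_of_le h
    rw [Tt_add]
    induction k using Nat.twoStepInduction with
    | zero => exact h20
    | one => exact h21
    | more k ih1 ih2 =>
      have h1 := ih1 (by omega)
      have h2 := ih2 (by omega)
      have h3 : (TW (20 + (k + 1))).ncard + (TW (20 + k)).ncard ≤ (TW (20 + (k + 2))).ncard :=
        TW_rec (20 + k)
      rw [fb_add]
      omega

theorem mid_gen (B G k k1 a4 b4 a5 b5 n : ℕ) (hG : 14 ≤ G) (hB : 2872 * 8 ^ G < 2 ^ B * 5 ^ G)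
    (hk : k ≤ k1) (hk2 : 2 * k1 = G / 2)
    (h4a : blk 4 B G 0 k = a4) (h4b : blk 4 B G k k1 = b4) (h5a : blk 5 B G 0 k = a5)
    (h5b : blk 5 B G k k1 = b5) (hn : 20 + n = G)
    (hchk' : finB B G n a4 b4 a5 b5 = true)
    (g : ℕ) (h1 : 1 ≤ g) (hg : g ≤ G) : (T4 g).card < Tt (g - 1) := by
  have hchk : lpl (Nat.pow 2 B) n 31042 49635 tl
      (Nat.div (totN B G a4 b4 a5 b5) (Nat.pow 2 B)) (103 * 8) (10000 * 5) = true := hchk'
  have hd := main_digit B G k k1 a4 b4 a5 b5 hk hk2 h4a h4b h5a h5b (Pm_lt B G hG hB) g hg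
  have hT := T4_le g G hg
  rw [Ut_split G hG, Polynomial.coeff_add] at hT
  have hR := Rm_coeff_le G g
  have hR' : (Rm G).coeff g * (5 ^ g * 10000) ≤ 8 ^ g * 103 := by
    have h2 : ((Rm G).coeff g : ℚ) * (5 ^ g * 10000) ≤ 8 ^ g * 103 := by
      have h8 : (0 : ℚ) < 8 ^ g * 10000 := by positivity
      have := mul_le_mul_of_nonneg_right hR h8.le
      calc ((Rm G).coeff g : ℚ) * (5 ^ g * 10000)
          = ((Rm G).coeff g : ℚ) * (5 / 8) ^ g * (8 ^ g * 10000) := by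
            rw [div_pow]; field_simp
        _ ≤ 103 / 10000 * (8 ^ g * 10000) := this
        _ = 8 ^ g * 103 := by ring
    exact_mod_cast h2
  have key : (Pm G).coeff g * (5 ^ g * 10000) + 8 ^ g * 103 < Tt (g - 1) * (5 ^ g * 10000) := by
    obtain ⟨c1, c2⟩ := lpl_spec _ _ _ _ _ _ _ _ hchk
    have eN : ∀ i, Nat.div (totN B G a4 b4 a5 b5) (Nat.pow 2 B) / (Nat.pow 2 B) ^ i =
        totN B G a4 b4 a5 b5 / (2 ^ B) ^ (i + 1) := by
      intro i
      rw [pow_succ, mul_comm, ← Nat.div_div_eq_div_mul]; rfl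
    have e5 : ∀ i, 5 ^ i * (10000 * 5) = 5 ^ (i + 1) * 10000 := fun i => by ring
    have e8 : ∀ i, 8 ^ i * (103 * 8) = 8 ^ (i + 1) * 103 := fun i => by ring
    have em : ∀ a : ℕ, a % Nat.pow 2 B = a % 2 ^ B := fun a => rfl
    rcases Nat.lt_or_ge (g - 1) 20 with h | h
    · have := c1 (g - 1) (by rw [tl_length]; exact h)
      rw [eN, e5, e8, em, show g - 1 + 1 = g by omega, hd] at this
      rw [Tt, if_pos h, List.getD_eq_getElem _ _ (by rw [tl_length]; exact h)]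
      exact this
    · obtain ⟨m, hm⟩ := Nat.exists_eq_add_of_le h
      have := c2 m (by omega)
      rw [tl_length, eN, e5, e8, em, show 20 + m + 1 = g by omega, hd] at this
      rw [hm, Tt_add]
      exact this
  have h5 : 0 < 5 ^ g * 10000 := by positivity
  have h6 : (T4 g).card * (5 ^ g * 10000) < Tt (g - 1) * (5 ^ g * 10000) := by
    calc (T4 g).card * (5 ^ g * 10000)
        ≤ ((Pm G).coeff g + (Rm G).coeff g) * (5 ^ g * 10000) := Nat.mul_le_mul_right _ hT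
      _ = (Pm G).coeff g * (5 ^ g * 10000) + (Rm G).coeff g * (5 ^ g * 10000) := by ring
      _ ≤ (Pm G).coeff g * (5 ^ g * 10000) + 8 ^ g * 103 := Nat.add_le_add_left hR' _
      _ < Tt (g - 1) * (5 ^ g * 10000) := key
  exact Nat.lt_of_mul_lt_mul_right h6

theorem Tt_big (m : ℕ) (h0 : 2872 * 8 ^ (20 + m + 1) < Tt (20 + m) * 5 ^ (20 + m + 1))
    (h1 : 2872 * 8 ^ (20 + (m + 1) + 1) < Tt (20 + (m + 1)) * 5 ^ (20 + (m + 1) + 1)) (k : ℕ) :
    2872 * 8 ^ (20 + (m + k) + 1) < Tt (20 + (m + k)) * 5 ^ (20 + (m + k) + 1) := by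
  induction k using Nat.twoStepInduction with
  | zero => exact h0
  | one => exact h1
  | more k ih1 ih2 =>
    rw [Tt_add] at ih1 ih2 ⊢
    have e : m + (k + 2) = m + k + 2 := by ring
    have e' : m + (k + 1) = m + k + 1 := by ring
    rw [e, fb_add]
    rw [e'] at ih2
    have p1 : 8 ^ (20 + (m + k + 2) + 1) = 64 * 8 ^ (20 + (m + k) + 1) := by ring
    have p2 : 5 ^ (20 + (m + k + 2) + 1) = 25 * 5 ^ (20 + (m + k) + 1) := by ring
    have p3 : 8 ^ (20 + (m + k + 1) + 1) = 8 * 8 ^ (20 + (m + k) + 1) := by ring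
    have p4 : 5 ^ (20 + (m + k + 1) + 1) = 5 * 5 ^ (20 + (m + k) + 1) := by ring
    rw [p3, p4] at ih2
    rw [p1, p2]
    have q1 : fb 31042 49635 (m + k + 1) * (5 * 5 ^ (20 + (m + k) + 1)) =
      5 * (fb 31042 49635 (m + k + 1) * 5 ^ (20 + (m + k) + 1)) := by ring
    have q2 : (fb 31042 49635 (m + k + 1) + fb 31042 49635 (m + k)) *
      (25 * 5 ^ (20 + (m + k) + 1)) =
      25 * (fb 31042 49635 (m + k + 1) * 5 ^ (20 + (m + k) + 1)) +
      25 * (fb 31042 49635 (m + k) * 5 ^ (20 + (m + k) + 1)) := by ring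
    rw [q1] at ih2
    rw [q2]
    omega

theorem tail_gen (n : ℕ) (hb : 2872 * 8 ^ (n + 1) < Tt n * 5 ^ (n + 1)) :
    (T4 (n + 1)).card < Tt n := by
  have hT := T4_le (n + 1) (n + 1) le_rfl
  have hU := Ut_coeff_le (n + 1) (n + 1)
  have h1 : (Ut (n + 1)).coeff (n + 1) * 5 ^ (n + 1) ≤ 2872 * 8 ^ (n + 1) := by
    have h2 : ((Ut (n + 1)).coeff (n + 1) : ℚ) * 5 ^ (n + 1) ≤ 2872 * 8 ^ (n + 1) := by
      have h8 : (0 : ℚ) < 8 ^ (n + 1) := by positivity
      have := mul_le_mul_of_nonneg_right hU h8.le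
      calc ((Ut (n + 1)).coeff (n + 1) : ℚ) * 5 ^ (n + 1)
          = ((Ut (n + 1)).coeff (n + 1) : ℚ) * (5 / 8) ^ (n + 1) * 8 ^ (n + 1) := by
            rw [div_pow]; field_simp
        _ ≤ 2872 * 8 ^ (n + 1) := this
    exact_mod_cast h2
  have h3 : (T4 (n + 1)).card * 5 ^ (n + 1) < Tt n * 5 ^ (n + 1) :=
    lt_of_le_of_lt ((Nat.mul_le_mul_right _ hT).trans h1) hb
  exact Nat.lt_of_mul_lt_mul_right h3

theorem baseB : Nat.blt (2872 * 8 ^ 700) (2 ^ 488 * 5 ^ 700) = true := by decide +kernel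
theorem base0 : Nat.blt (2872 * 8 ^ (20 + 680 + 1)) (Tt (20 + 680) * 5 ^ (20 + 680 + 1)) = true := by
  decide +kernel
theorem base1 : Nat.blt (2872 * 8 ^ (20 + (680 + 1) + 1))
    (Tt (20 + (680 + 1)) * 5 ^ (20 + (680 + 1) + 1)) = true := by
  decide +kernel

theorem blt_lt {a b : ℕ} (h : Nat.blt a b = true) : a < b := Nat.le_of_ble_eq_true h

theorem small14 : 14 ≤ 700 := by decide
theorem small4 : 4 ≤ 175 := by decide
theorem small350 : 2 * 175 = 700 / 2 := by decide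
theorem small700 : 20 + 680 = 700 := by decide

theorem mid700 (g : ℕ) (h1 : 1 ≤ g) (hg : g ≤ 700) : (T4 g).card < Tt (g - 1) :=
  mid_gen 488 700 4 175 v4a v4b v5a v5b 680 small14
    (blt_lt (a := 2872 * 8 ^ 700) (b := 2 ^ 488 * 5 ^ 700) baseB) small4 small350
    (Nat.eq_of_beq_eq_true (n := blk 4 488 700 0 4) (m := v4a) v4a_eq)
    (Nat.eq_of_beq_eq_true (n := blk 4 488 700 4 175) (m := v4b) v4b_eq)
    (Nat.eq_of_beq_eq_true (n := blk 5 488 700 0 4) (m := v5a) v5a_eq)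
    (Nat.eq_of_beq_eq_true (n := blk 5 488 700 4 175) (m := v5b) v5b_eq) small700 fin_check g h1 hg

theorem T4_lt (g : ℕ) (hg : 1 ≤ g) : (T4 g).card < Tt (g - 1) := by
  rcases Nat.lt_or_ge g 701 with h | h
  · exact mid700 g hg (by omega)
  · have hb := Tt_big 680 (blt_lt base0) (blt_lt base1) (g - 701)
    have e : 20 + (680 + (g - 701)) = g - 1 := by omega
    rw [e] at hb
    have := tail_gen (g - 1) hb
    rwa [show g - 1 + 1 = g by omega] at this

theorem SG_lt (g : ℕ) (hg : 1 ≤ g) : (SG g).ncard < (SG (g + 1)).ncard := by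
  have h1 := SG_card g
  have h2 := T4_lt g hg
  have h3 := Tt_le (g - 1)
  have h4 := TW_rec (g - 1)
  have h5 := TW_le (g + 1)
  rw [show g - 1 + 1 = g by omega, show g - 1 + 2 = g + 1 by omega] at h4
  omega

end Pool.Agent.H502R2
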