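import Mathlib

/-!
Generating polynomials of finite weighted sets, coefficientwise order.
-/

namespace Pool.Agent.H502R2

open Polynomial Finset

/-- coefficientwise order on `ℕ[X]` -/
def PLE (p q : ℕ[X]) : Prop := ∀ n, p.coeff n ≤ q.coeff n

theorem PLE.refl (p : ℕ[X]) : PLE p p := fun _ => le_rfl

theorem PLE.trans {p q r : ℕ[X]} (h : PLE p q) (h' : PLE q r) : PLE p r :=
  fun n => (h n).trans (h' n)

theorem PLE.zero_le (p : ℕ[X]) : PLE 0 p := fun n => by simp

theorem PLE.add {p q r s : ℕ[X]} (h : PLE p q) (h' : PLE r s) : PLE (p + r) (q + s) :=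
  fun n => by simpa using add_le_add (h n) (h' n)

theorem PLE.mul {p q r s : ℕ[X]} (h : PLE p q) (h' : PLE r s) : PLE (p * r) (q * s) :=
  fun n => by
    rw [coeff_mul, coeff_mul]
    exact Finset.sum_le_sum fun x _ => Nat.mul_le_mul (h _) (h' _)

theorem PLE.sum {ι : Type*} {s : Finset ι} {f g : ι → ℕ[X]} (h : ∀ i ∈ s, PLE (f i) (g i)) :
    PLE (∑ i ∈ s, f i) (∑ i ∈ s, g i) :=
  fun n => by
    rw [finsetSum_coeff, finsetSum_coeff]
    exact Finset.sum_le_sum fun i hi => h i hi n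

theorem PLE.sum_subset {ι : Type*} {s t : Finset ι} {f : ι → ℕ[X]} (h : s ⊆ t) :
    PLE (∑ i ∈ s, f i) (∑ i ∈ t, f i) :=
  fun n => by
    rw [finsetSum_coeff, finsetSum_coeff]
    exact Finset.sum_le_sum_of_subset h

theorem PLE.sum_inj {ι κ : Type*} {s : Finset ι} {t : Finset κ} {f : ι → ℕ[X]} {g : κ → ℕ[X]}
    (e : ι → κ) (he : ∀ i ∈ s, e i ∈ t) (hinj : Set.InjOn e s)
    (h : ∀ i ∈ s, PLE (f i) (g (e i))) :
    PLE (∑ i ∈ s, f i) (∑ i ∈ t, g i) := by
  classical
  refine (PLE.sum h).trans ?_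
  have : ∑ i ∈ s, g (e i) = ∑ j ∈ s.image e, g j := (Finset.sum_image hinj).symm
  rw [this]
  exact PLE.sum_subset (by
    intro j hj
    obtain ⟨i, hi, rfl⟩ := Finset.mem_image.mp hj
    exact he i hi)

theorem PLE.pow {p q : ℕ[X]} (h : PLE p q) (n : ℕ) : PLE (p ^ n) (q ^ n) := by
  induction n with
  | zero => simpa using PLE.refl _
  | succ n ih => rw [pow_succ, pow_succ]; exact ih.mul h

/-- generating polynomial -/
noncomputable def GF {α : Type*} (S : Finset α) (w : α → ℕ) : ℕ[X] :=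
  ∑ a ∈ S, (X : ℕ[X]) ^ (w a)

theorem GF_coeff {α : Type*} (S : Finset α) (w : α → ℕ) (n : ℕ) :
    (GF S w).coeff n = (S.filter (fun a => w a = n)).card := by
  classical
  rw [GF, finsetSum_coeff, Finset.card_filter]
  refine Finset.sum_congr rfl fun a _ => ?_
  rw [coeff_X_pow]
  simp [eq_comm]

theorem GF_shift {α β : Type*} {S : Finset α} {T : Finset β} {w : α → ℕ} {w' : β → ℕ}
    (e : ℕ) (f : α → β) (hf : ∀ a ∈ S, f a ∈ T) (hinj : Set.InjOn f S)
    (hw : ∀ a ∈ S, w a = e + w' (f a)) : PLE (GF S w) (X ^ e * GF T w') := by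
  rw [GF, GF, Finset.mul_sum]
  refine PLE.sum_inj f hf hinj fun a ha => ?_
  rw [hw a ha, pow_add]
  exact PLE.refl _

theorem GF_le {α β : Type*} {S : Finset α} {T : Finset β} {w : α → ℕ} {w' : β → ℕ}
    (f : α → β) (hf : ∀ a ∈ S, f a ∈ T) (hinj : Set.InjOn f S)
    (hw : ∀ a ∈ S, w a = w' (f a)) : PLE (GF S w) (GF T w') := by
  have := GF_shift (w := w) (w' := w') 0 f hf hinj (by simpa using hw)
  simpa using this

theorem GF_prod {α β : Type*} (S : Finset α) (T : Finset β) (w : α → ℕ) (w' : β → ℕ) :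
    GF (S ×ˢ T) (fun p => w p.1 + w' p.2) = GF S w * GF T w' := by
  rw [GF, GF, GF, Finset.sum_mul_sum, Finset.sum_product]
  refine Finset.sum_congr rfl fun a _ => Finset.sum_congr rfl fun b _ => ?_
  rw [pow_add]

theorem GF_fiber {α κ : Type*} [DecidableEq κ] {S : Finset α} {w : α → ℕ} (K : Finset κ)
    (k : α → κ) (hk : ∀ a ∈ S, k a ∈ K) (F : κ → ℕ[X])
    (h : ∀ c ∈ K, PLE (GF (S.filter (fun a => k a = c)) w) (F c)) :
    PLE (GF S w) (∑ c ∈ K, F c) := by
  classical
  have : GF S w = ∑ c ∈ K, GF (S.filter (fun a => k a = c)) w := by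
    rw [GF, ← Finset.sum_fiberwise_of_maps_to hk]
    rfl
  rw [this]
  exact PLE.sum h

theorem GF_empty {α : Type*} {S : Finset α} {w : α → ℕ} (h : ∀ a, a ∉ S) : GF S w = 0 := by
  rw [Finset.eq_empty_of_forall_notMem h, GF, Finset.sum_empty]

/-- letters in `range L` -/
def Wd (L N : ℕ) : Finset (Fin N → ℕ) := Fintype.piFinset fun _ => Finset.range L

theorem mem_Wd {L N : ℕ} {f : Fin N → ℕ} : f ∈ Wd L N ↔ ∀ i, f i < L := by
  simp [Wd, Fintype.mem_piFinset]

/-- weight of a word : sum of (letter index + 1) -/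
def wt {N : ℕ} (f : Fin N → ℕ) : ℕ := ∑ i, (f i + 1)

/-- inner position -/
def mid {N : ℕ} (i : Fin N) : Fin (N + 2) := ⟨i + 1, by omega⟩

@[simp] theorem mid_val {N : ℕ} (i : Fin N) : ((mid i : Fin (N + 2)) : ℕ) = i + 1 := rfl

theorem rev_mid {N : ℕ} (i : Fin N) : Fin.rev (mid i) = mid (Fin.rev i) := by
  ext; simp [Fin.val_rev]; omega

theorem sum_peel {N : ℕ} (g : Fin (N + 2) → ℕ) :
    ∑ i, g i = g 0 + g (Fin.last (N + 1)) + ∑ i : Fin N, g (mid i) := by
  rw [Fin.sum_univ_succ, Fin.sum_univ_castSucc]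
  have : (Fin.last N).succ = Fin.last (N + 1) := rfl
  rw [this]
  have h2 : ∀ i : Fin N, i.castSucc.succ = mid i := fun i => by ext; simp
  simp only [h2]
  omega

theorem peel_cases {N : ℕ} {p : Fin (N + 2) → Prop} (h0 : p 0) (hl : p (Fin.last (N + 1)))
    (hm : ∀ i : Fin N, p (mid i)) : ∀ i, p i := by
  intro i
  rcases Nat.eq_zero_or_pos (i : ℕ) with h | h
  · have : i = 0 := by ext; simpa using h
    rw [this]; exact h0
  · rcases Nat.lt_or_ge (i : ℕ) (N + 1) with h' | h'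
    · have : i = mid ⟨(i : ℕ) - 1, by omega⟩ := by ext; simp; omega
      rw [this]; exact hm _
    · have : i = Fin.last (N + 1) := by ext; simp; omega
      rw [this]; exact hl

theorem peel_inj {N : ℕ} {β : Type*} {f g : Fin (N + 2) → β} (h0 : f 0 = g 0)
    (hl : f (Fin.last (N + 1)) = g (Fin.last (N + 1)))
    (hm : (fun i : Fin N => f (mid i)) = fun i => g (mid i)) : f = g := by
  funext i
  revert i
  exact peel_cases h0 hl fun i => congrFun hm i

end Pool.Agent.H502R2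

namespace Pool.Agent.H502R2

open Polynomial Finset

theorem GF_subsingleton {α : Type*} [Subsingleton α] {S : Finset α} {w : α → ℕ}
    (h : ∀ a ∈ S, w a = 0) : PLE (GF S w) 1 := by
  rcases S.eq_empty_or_nonempty with rfl | ⟨a, ha⟩
  · rw [GF, Finset.sum_empty]; exact PLE.zero_le _
  · have : S = {a} := by
      ext b; constructor
      · intro _; exact Finset.mem_singleton.mpr (Subsingleton.elim _ _)
      · intro hb; rw [Finset.mem_singleton.mp hb]; exact ha
    rw [this, GF, Finset.sum_singleton, h a ha, pow_zero]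
    exact PLE.refl _

end Pool.Agent.H502R2
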