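import Pool.Agent.H502R2.Chain

/-!
Groups of residue classes and regions.
-/

namespace Pool.Agent.H502R2

open Polynomial Finset

section defs
variable {R : Type*} [CommSemiring R]

/-- group of `s` columns of length `l`, all with the same flag -/
def Grp (L : ℕ) (x : R) (X : ℕ → Bool) (l s : ℕ) : R :=
  Cp L x X X l ^ (s / 2) * Dp L x X l ^ (s % 2)

/-- group of `s` columns of length `l`, the last one with flag `Z` -/
def GrpS (L : ℕ) (x : R) (X Z : ℕ → Bool) (l : ℕ) : ℕ → R
  | 0 => 1
  | 1 => Dp L x Z l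
  | s + 2 => Cp L x X Z l * Grp L x X l s

end defs

open Classical in
/-- arrays with `s` columns of length `l` -/
noncomputable def GwS (L s l : ℕ) (X : Fin s → ℕ → Bool) : Finset (Fin s → Fin l → ℕ) :=
  (Fintype.piFinset fun _ => Wd L l).filter fun f => (∀ r, Ch (f r)) ∧
    (∀ r j, L ≤ f r j + f (Fin.rev r) (Fin.rev j) + 2) ∧
    (∀ r, ∀ i : Fin l, (i : ℕ) = 0 → X r (f r i) = true)

/-- weight of an array -/
def wtg {s l : ℕ} (f : Fin s → Fin l → ℕ) : ℕ := ∑ r, wt (f r)

theorem mem_GwS {L s l : ℕ} {X : Fin s → ℕ → Bool} {f : Fin s → Fin l → ℕ} :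
    f ∈ GwS L s l X ↔ (∀ r j, f r j < L) ∧ (∀ r, Ch (f r)) ∧
    (∀ r j, L ≤ f r j + f (Fin.rev r) (Fin.rev j) + 2) ∧
    (∀ r, ∀ i : Fin l, (i : ℕ) = 0 → X r (f r i) = true) := by
  simp [GwS, Fintype.mem_piFinset, mem_Wd]

theorem GwS_zero (L l : ℕ) (X : Fin 0 → ℕ → Bool) : PLE (GF (GwS L 0 l X) wtg) 1 :=
  GF_subsingleton (by intro a _; simp [wtg])

theorem GwS_one (L l : ℕ) (X' : Fin 1 → ℕ → Bool) :
    PLE (GF (GwS L 1 l X') wtg) (Dp L (X : ℕ[X]) (X' 0) l) := by
  classical
  refine (GF_le (T := DX L l (X' 0)) (w' := wt) (fun f => f 0) ?_ ?_ ?_).trans (DX_le L l _)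
  · intro f hf
    rw [mem_GwS] at hf
    simp only [DX, Finset.mem_filter, mem_Wd]
    refine ⟨hf.1 0, hf.2.1 0, fun j => ?_, hf.2.2.2 0⟩
    have := hf.2.2.1 0 j
    rwa [Subsingleton.elim (Fin.rev (0 : Fin 1)) 0] at this
  · intro f _ g _ h
    funext r
    rw [Subsingleton.elim r 0]
    exact h
  · intro f _
    simp [wtg]

theorem GwS_peel (L s l : ℕ) (X' : Fin (s + 2) → ℕ → Bool) :
    PLE (GF (GwS L (s + 2) l X') wtg)
      (Cp L (X : ℕ[X]) (X' 0) (X' (Fin.last (s + 1))) l *
        GF (GwS L s l (fun r => X' (mid r))) wtg) := by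
  classical
  refine PLE.trans ?_ ((CS_le L l (X' 0) (X' (Fin.last (s + 1)))).mul (PLE.refl _))
  rw [← GF_prod]
  refine GF_le (fun f => ((f 0, f (Fin.last (s + 1))), fun r => f (mid r))) ?_ ?_ ?_
  · intro f hf
    rw [mem_GwS] at hf
    obtain ⟨hL, hc, hr, hX⟩ := hf
    rw [Finset.mem_product]
    constructor
    · simp only [CS, Finset.mem_filter, Finset.mem_product, mem_Wd]
      refine ⟨⟨hL _, hL _⟩, hc _, hc _, fun j => ?_, hX _, hX _⟩
      have := hr 0 j
      rwa [Fin.rev_zero] at this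
    · rw [mem_GwS]
      refine ⟨fun r j => hL _ _, fun r => hc _, fun r j => ?_, fun r => hX _⟩
      have := hr (mid r) j
      rwa [rev_mid] at this
  · intro f _ g _ h
    simp only [Prod.mk.injEq] at h
    exact peel_inj h.1.1 h.1.2 h.2
  · intro f _
    rw [wtg, sum_peel]
    rfl

theorem GwS_const (L l : ℕ) (X' : ℕ → Bool) (s : ℕ) :
    PLE (GF (GwS L s l (fun _ => X')) wtg) (Grp L (X : ℕ[X]) X' l s) := by
  induction s using Nat.twoStepInduction with
  | zero => simpa [Grp] using GwS_zero L l _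
  | one => simpa [Grp] using GwS_one L l _
  | more s ih _ =>
    refine (GwS_peel L s l _).trans ?_
    have : Grp L (X : ℕ[X]) X' l (s + 2) = Cp L (X : ℕ[X]) X' X' l * Grp L (X : ℕ[X]) X' l s := by
      rw [Grp, Grp]
      have h1 : (s + 2) / 2 = s / 2 + 1 := by omega
      have h2 : (s + 2) % 2 = s % 2 := by omega
      rw [h1, h2, pow_succ]; ring
    rw [this]
    exact (PLE.refl _).mul ih

theorem GwS_special (L l : ℕ) (X' Z : ℕ → Bool) (s : ℕ) (F : Fin s → ℕ → Bool)
    (hF : ∀ r : Fin s, F r = if (r : ℕ) + 1 = s then Z else X') :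
    PLE (GF (GwS L s l F) wtg) (GrpS L (X : ℕ[X]) X' Z l s) := by
  match s, F, hF with
  | 0, F, _ => exact GwS_zero L l F
  | 1, F, hF =>
    have := GwS_one L l F
    rw [hF 0] at this
    simpa [GrpS] using this
  | s + 2, F, hF =>
    refine (GwS_peel L s l F).trans ?_
    have h0 : F 0 = X' := by rw [hF]; simp
    have hl : F (Fin.last (s + 1)) = Z := by rw [hF]; simp
    have hm : (fun r : Fin s => F (mid r)) = fun _ => X' := by
      funext r
      rw [hF, if_neg]
      have := r.2
      simp only [mid_val]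
      omega
    rw [h0, hl, hm, GrpS]
    exact (PLE.refl _).mul (GwS_const L l X' s)

open Classical in
/-- region words -/
noncomputable def RegS (L N d : ℕ) (Z : ℕ → ℕ → Bool) : Finset (Fin N → ℕ) :=
  (Wd L N).filter fun v => (∀ i, L ≤ v i + v (Fin.rev i) + 2) ∧
    (∀ i j : Fin N, (j : ℕ) = i + d → v j ≤ v i + 1) ∧
    (∀ i : Fin N, (i : ℕ) < d → Z i (v i) = true)

theorem mem_RegS {L N d : ℕ} {Z : ℕ → ℕ → Bool} {v : Fin N → ℕ} :
    v ∈ RegS L N d Z ↔ (∀ i, v i < L) ∧ (∀ i, L ≤ v i + v (Fin.rev i) + 2) ∧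
    (∀ i j : Fin N, (j : ℕ) = i + d → v j ≤ v i + 1) ∧
    (∀ i : Fin N, (i : ℕ) < d → Z i (v i) = true) := by
  simp [RegS, mem_Wd]

section pos
variable {N d a b : ℕ}

theorem pos1_lt (hN : N = d * a + b) {r j : ℕ} (hr : r < b) (hj : j < a + 1) :
    r + j * d < N := by
  have : j * d ≤ d * a := by rw [mul_comm d a]; exact Nat.mul_le_mul_right d (by omega)
  omega

theorem pos2_lt (hN : N = d * a + b) (hb : b < d) {r j : ℕ} (hr : r < d - b) (hj : j < a) :
    b + r + j * d < N := by
  have : (j + 1) * d ≤ d * a := by rw [mul_comm d a]; exact Nat.mul_le_mul_right d (by omega)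
  rw [add_mul] at this
  omega

/-- positions -/
def pos (hN : N = d * a + b) (hb : b < d) :
    (Fin b × Fin (a + 1)) ⊕ (Fin (d - b) × Fin a) → Fin N
  | Sum.inl p => ⟨p.1 + p.2 * d, pos1_lt hN p.1.2 p.2.2⟩
  | Sum.inr p => ⟨b + p.1 + p.2 * d, pos2_lt hN hb p.1.2 p.2.2⟩

theorem pos_bij (hN : N = d * a + b) (hb : b < d) : Function.Bijective (pos hN hb) := by
  rw [Fintype.bijective_iff_injective_and_card]
  have hd : 0 < d := by omega
  constructor
  · rintro (⟨r, j⟩ | ⟨r, j⟩) (⟨r', j'⟩ | ⟨r', j'⟩) h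
    · simp only [pos, Fin.mk.injEq] at h
      have h1 := congrArg (· % d) h
      have h2 := congrArg (· / d) h
      simp only [Nat.add_mul_mod_self_right, Nat.add_mul_div_right _ _ hd] at h1 h2
      rw [Nat.mod_eq_of_lt (by omega), Nat.mod_eq_of_lt (by omega)] at h1
      rw [Nat.div_eq_of_lt (by omega), Nat.div_eq_of_lt (by omega)] at h2
      have e1 : r = r' := by ext; omega
      have e2 : j = j' := by ext; omega
      rw [e1, e2]
    · exfalso
      simp only [pos, Fin.mk.injEq] at h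
      have h1 := congrArg (· % d) h
      simp only [Nat.add_mul_mod_self_right] at h1
      rw [Nat.mod_eq_of_lt (by omega), Nat.mod_eq_of_lt (by omega)] at h1
      omega
    · exfalso
      simp only [pos, Fin.mk.injEq] at h
      have h1 := congrArg (· % d) h
      simp only [Nat.add_mul_mod_self_right] at h1
      rw [Nat.mod_eq_of_lt (by omega), Nat.mod_eq_of_lt (by omega)] at h1
      omega
    · simp only [pos, Fin.mk.injEq] at h
      have h1 := congrArg (· % d) h
      have h2 := congrArg (· / d) h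
      simp only [Nat.add_mul_mod_self_right, Nat.add_mul_div_right _ _ hd] at h1 h2
      rw [Nat.mod_eq_of_lt (by omega), Nat.mod_eq_of_lt (by omega)] at h1
      rw [Nat.div_eq_of_lt (by omega), Nat.div_eq_of_lt (by omega)] at h2
      have e1 : r = r' := by ext; omega
      have e2 : j = j' := by ext; omega
      rw [e1, e2]
  · simp only [Fintype.card_sum, Fintype.card_prod, Fintype.card_fin]
    rw [hN]
    obtain ⟨c, rfl⟩ := Nat.exists_eq_add_of_lt hb
    have : b + c + 1 - b = c + 1 := by omega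
    rw [this]
    ring

end pos

theorem Reg_le (L N d a b : ℕ) (hN : N = d * a + b) (hb : b < d) (Z : ℕ → ℕ → Bool) :
    PLE (GF (RegS L N d Z) wt)
      (GF (GwS L b (a + 1) (fun r => Z r)) wtg *
        GF (GwS L (d - b) a (fun r => Z (b + r))) wtg) := by
  classical
  rw [← GF_prod]
  refine GF_le (fun v => (fun r j => v (pos hN hb (Sum.inl (r, j))),
    fun r j => v (pos hN hb (Sum.inr (r, j))))) ?_ ?_ ?_
  · intro v hv
    rw [mem_RegS] at hv
    obtain ⟨hL, hr, hc, hZ⟩ := hv
    rw [Finset.mem_product, mem_GwS, mem_GwS]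
    refine ⟨⟨fun r j => hL _, fun r i j hij => hc _ _ ?_, fun r j => ?_, fun r i hi => ?_⟩,
      ⟨fun r j => hL _, fun r i j hij => hc _ _ ?_, fun r j => ?_, fun r i hi => ?_⟩⟩
    · simp only [pos, hij]; ring
    · have h := hr (pos hN hb (Sum.inl (r, j)))
      have e : Fin.rev (pos hN hb (Sum.inl (r, j))) = pos hN hb (Sum.inl (Fin.rev r, Fin.rev j)) := by
        ext
        simp only [pos, Fin.val_rev]
        have hj := j.2
        have hr := r.2
        have e1 : (a + 1 - ((j : ℕ) + 1)) * d = a * d - j * d := by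
          rw [← Nat.sub_mul]; congr 1; omega
        have e2 : (j : ℕ) * d ≤ a * d := Nat.mul_le_mul_right d (by omega)
        rw [e1, hN, mul_comm d a]
        omega
      rwa [e] at h
    · have h := hZ (pos hN hb (Sum.inl (r, i))) (by
        simp only [pos, hi]; have := r.2; omega)
      have e : ((pos hN hb (Sum.inl (r, i)) : Fin N) : ℕ) = r := by simp [pos, hi]
      rwa [e] at h
    · simp only [pos, hij]; ring
    · have h := hr (pos hN hb (Sum.inr (r, j)))
      have e : Fin.rev (pos hN hb (Sum.inr (r, j))) = pos hN hb (Sum.inr (Fin.rev r, Fin.rev j)) := by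
        ext
        simp only [pos, Fin.val_rev]
        have hj := j.2
        have hr := r.2
        have e1 : (a - ((j : ℕ) + 1)) * d = a * d - (j * d + d) := by
          rw [Nat.sub_mul, add_mul, one_mul]
        have e2 : ((j : ℕ) + 1) * d ≤ a * d := Nat.mul_le_mul_right d (by omega)
        rw [add_mul, one_mul] at e2
        rw [e1, hN, mul_comm d a]
        omega
      rwa [e] at h
    · have h := hZ (pos hN hb (Sum.inr (r, i))) (by
        simp only [pos, hi]; have := r.2; omega)
      have e : ((pos hN hb (Sum.inr (r, i)) : Fin N) : ℕ) = b + r := by simp [pos, hi]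
      rwa [e] at h
  · intro v _ v' _ h
    simp only [Prod.mk.injEq] at h
    funext i
    obtain ⟨p, rfl⟩ := (pos_bij hN hb).2 i
    rcases p with ⟨r, j⟩ | ⟨r, j⟩
    · exact congrFun (congrFun h.1 r) j
    · exact congrFun (congrFun h.2 r) j
  · intro v _
    rw [wt, ← (pos_bij hN hb).sum_comp, Fintype.sum_sum_type, Fintype.sum_prod_type,
      Fintype.sum_prod_type]
    rfl

end Pool.Agent.H502R2
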