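import Pool.Agent.H502R2.Algo

/-!
Coefficient lists and the transfer recursions.
-/

namespace Pool.Agent.H502R2

open Finset

section ev
variable {R : Type*} [CommSemiring R]

/-- evaluation of a coefficient list -/
def ev (x : R) : List ℕ → R
  | [] => 0
  | a :: l => (a : R) + x * ev x l

@[simp] theorem ev_nil (x : R) : ev x [] = 0 := rfl
@[simp] theorem ev_cons (x : R) (a : ℕ) (l : List ℕ) : ev x (a :: l) = (a : R) + x * ev x l := rfl

theorem ev_addL (x : R) (l m : List ℕ) : ev x (addL l m) = ev x l + ev x m := by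
  induction l generalizing m with
  | nil => simp [addL]
  | cons a l ih =>
    cases m with
    | nil => simp [addL]
    | cons b m =>
      simp only [addL, ev_cons, ih, Nat.cast_add]
      ring

theorem ev_shL (x : R) (k : ℕ) (l : List ℕ) : ev x (shL k l) = x ^ k * ev x l := by
  induction k with
  | zero => simp [shL]
  | succ k ih =>
    simp only [shL, ev_cons, ih, Nat.cast_zero]
    ring

theorem ev_sumR (x : R) (n : ℕ) (f : ℕ → List ℕ) :
    ev x (sumR n f) = ∑ i ∈ range n, ev x (f i) := by
  induction n with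
  | zero => simp [sumR]
  | succ n ih => rw [sumR, ev_addL, ih, Finset.sum_range_succ]

theorem mapR_getD {α : Type} (n : ℕ) (f : ℕ → α) (i : ℕ) (hi : i < n) (a : α) :
    (mapR n f).getD i a = f i := by
  induction n generalizing f i with
  | zero => omega
  | succ n ih =>
    cases i with
    | zero => rfl
    | succ i =>
      rw [mapR, List.getD_cons_succ]
      exact ih _ i (by omega)

theorem lk_mapR (L : ℕ) (f : ℕ → ℕ → List ℕ) {p r : ℕ} (hp : p < L) (hr : r < L) :
    lk (mapR L fun p => mapR L fun r => f p r) p r = f p r := by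
  rw [lk, mapR_getD _ _ _ hp, mapR_getD _ _ _ hr]

/-- evaluation of a table -/
def evT (x : R) (M : List (List (List ℕ))) (p r : ℕ) : R := ev x (lk M p r)

/-- agreement on the box -/
def Agr (L : ℕ) (V W : ℕ → ℕ → R) : Prop := ∀ p < L, ∀ r < L, V p r = W p r

theorem TT_congr {L : ℕ} (x : R) {V W : ℕ → ℕ → R} (h : Agr L V W) (p r : ℕ) :
    TT L x V p r = TT L x W p r := by
  rw [TT, TT]
  refine Finset.sum_congr rfl fun c hc => ?_
  rw [Finset.mem_product, Finset.mem_range, Finset.mem_range] at hc
  rw [h _ hc.1 _ hc.2]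

theorem HH_congr {L : ℕ} (x : R) (X : ℕ → Bool) {V W : ℕ → ℕ → R} (h : Agr L V W) :
    HH L x X V = HH L x X W := by
  rw [HH, HH]
  refine Finset.sum_congr rfl fun c hc => ?_
  rw [Finset.mem_product, Finset.mem_range, Finset.mem_range] at hc
  rw [h _ hc.1 _ hc.2]

theorem evT_stepT (L : ℕ) (x : R) (M : List (List (List ℕ))) :
    Agr L (evT x (stepT L M)) (TT L x (evT x M)) := by
  intro p hp r hr
  rw [evT, stepT, lk_mapR L _ hp hr, ev_sumR, TT, Finset.sum_product]
  refine Finset.sum_congr rfl fun c _ => ?_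
  rw [ev_sumR]
  refine Finset.sum_congr rfl fun d _ => ?_
  split_ifs with h
  · rw [ev_shL]; rfl
  · rfl

theorem ev_headT (L : ℕ) (x : R) (X : ℕ → Bool) (M : List (List (List ℕ))) :
    ev x (headT L X M) = HH L x X (evT x M) := by
  rw [headT, ev_sumR, HH, Finset.sum_product]
  refine Finset.sum_congr rfl fun c _ => ?_
  rw [ev_sumR]
  refine Finset.sum_congr rfl fun d _ => ?_
  split_ifs with h
  · rw [ev_shL]; rfl
  · rfl

/-- iterated tables -/
def stepN (L : ℕ) : ℕ → List (List (List ℕ)) → List (List (List ℕ))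
  | 0, M => M
  | n + 1, M => stepT L (stepN L n M)

theorem stepN_succ' (L n : ℕ) (M : List (List (List ℕ))) :
    stepN L (n + 1) M = stepN L n (stepT L M) := by
  induction n with
  | zero => rfl
  | succ n ih => rw [stepN, ih, stepN]

theorem evT_stepN (L : ℕ) (x : R) {M : List (List (List ℕ))} {V : ℕ → ℕ → R}
    (h : Agr L (evT x M) V) (n : ℕ) : Agr L (evT x (stepN L n M)) (It L x V n) := by
  induction n with
  | zero => exact h
  | succ n ih =>
    intro p hp r hr
    rw [stepN, evT_stepT L x _ p hp r hr, It]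
    exact TT_congr x ih p r

theorem It_add (L : ℕ) (x : R) (V : ℕ → ℕ → R) (m n : ℕ) :
    It L x (It L x V m) n = It L x V (m + n) := by
  induction n with
  | zero => rfl
  | succ n ih => rw [It, ih]; rfl

theorem inits_getD (L : ℕ) (x : R) (X : ℕ → Bool) (n : ℕ) {M : List (List (List ℕ))}
    {V : ℕ → ℕ → R} (h : Agr L (evT x M) V) (i : ℕ) (hi : i < n) :
    ev x ((inits L X n M).getD i []) = HH L x X (It L x V i) := by
  induction n generalizing i M V with
  | zero => omega
  | succ n ih =>
    cases i with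
    | zero =>
      rw [inits, List.getD_cons_zero, ev_headT]
      exact HH_congr x X h
    | succ i =>
      rw [inits, List.getD_cons_succ]
      have h1 : Agr L (evT x (stepT L M)) (It L x V 1) := by
        have := evT_stepN L x h 1
        exact this
      rw [ih h1 i (by omega), It_add, add_comm 1 i]

theorem tabC_agr (L : ℕ) (x : R) (Y : ℕ → Bool) : Agr L (evT x (tabC L Y)) (VC Y) := by
  intro p hp r hr
  rw [evT, tabC, lk_mapR L (fun _ r => if Y r = true then [1] else []) hp hr, VC]
  split_ifs <;> simp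

theorem tabE_agr (L : ℕ) (x : R) : Agr L (evT x (tabE L)) VE := by
  intro p hp r hr
  rw [evT, tabE, lk_mapR L (fun p r => if r ≤ p + 1 then [1] else []) hp hr, VE]
  split_ifs <;> simp

theorem tabO_agr (L : ℕ) (x : R) : Agr L (evT x (tabO L)) (VO L x) := by
  intro p hp r hr
  rw [evT, tabO, lk_mapR L (fun p r => sumR L fun k =>
    if L ≤ 2 * k + 2 ∧ k ≤ p + 1 ∧ r ≤ k + 1 then shL (k + 1) [1] else []) hp hr, VO, ev_sumR]
  refine Finset.sum_congr rfl fun k _ => ?_
  split_ifs with h
  · rw [ev_shL]; simp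
  · rfl

/-! recurrences -/

/-- product of coefficient lists -/
def mulL : List ℕ → List ℕ → List ℕ
  | [], _ => []
  | a :: l, m => addL (m.map (fun b => a * b)) (0 :: mulL l m)

theorem ev_map_mul (x : R) (a : ℕ) (m : List ℕ) :
    ev x (m.map (fun b => a * b)) = (a : R) * ev x m := by
  induction m with
  | nil => simp
  | cons b m ihm =>
    simp only [List.map_cons, ev_cons, ihm, Nat.cast_mul]
    ring

theorem ev_mulL (x : R) (l m : List ℕ) : ev x (mulL l m) = ev x l * ev x m := by
  induction l with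
  | nil => simp [mulL]
  | cons a l ih =>
    rw [mulL, ev_addL, ev_cons, ih, ev_map_mul, ev_cons, Nat.cast_zero]
    ring

/-- zero list -/
def isZ : List ℕ → Bool
  | [] => true
  | b :: m => (Nat.beq b 0) && isZ m

theorem ev_isZ (x : R) (l : List ℕ) (h : isZ l = true) : ev x l = 0 := by
  induction l with
  | nil => rfl
  | cons a l ih =>
    rw [isZ, Bool.and_eq_true] at h
    rw [ev_cons, Nat.eq_of_beq_eq_true h.1, ih h.2]; simp

/-- equality of coefficient lists up to trailing zeros -/
def eqL : List ℕ → List ℕ → Bool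
  | [], m => isZ m
  | a :: l, [] => (Nat.beq a 0) && isZ l
  | a :: l, b :: m => (Nat.beq a b) && eqL l m

theorem ev_eqL (x : R) (l m : List ℕ) (h : eqL l m = true) : ev x l = ev x m := by
  induction l generalizing m with
  | nil =>
    rw [ev_isZ x m h]; rfl
  | cons a l ih =>
    cases m with
    | nil =>
      rw [eqL, Bool.and_eq_true] at h
      rw [ev_cons, Nat.eq_of_beq_eq_true h.1, ev_isZ x l h.2]; simp
    | cons b m =>
      rw [eqL, Bool.and_eq_true] at h
      rw [ev_cons, ev_cons, Nat.eq_of_beq_eq_true h.1, ih m h.2]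

/-- the recurrence as an equality of coefficient lists -/
def chk1 (cs : List (List ℕ)) (a0 a1 a2 a3 a4 a5 a6 : List ℕ) : Bool :=
  eqL (addL a6 (addL (mulL (cs.getD 1 []) a4) (addL (mulL (cs.getD 3 []) a2)
    (mulL (cs.getD 5 []) a0))))
    (addL (mulL (cs.getD 0 []) a5) (addL (mulL (cs.getD 2 []) a3) (mulL (cs.getD 4 []) a1)))

/-- bounded quantifier -/
def allR : ℕ → (ℕ → Bool) → Bool
  | 0, _ => true
  | n + 1, f => allR n f && f n

theorem allR_spec {n : ℕ} {f : ℕ → Bool} (h : allR n f = true) : ∀ i < n, f i = true := by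
  induction n with
  | zero => intro i hi; omega
  | succ n ih =>
    rw [allR, Bool.and_eq_true] at h
    intro i hi
    rcases Nat.lt_succ_iff_lt_or_eq.mp hi with h1 | h1
    · exact ih h.1 i h1
    · rw [h1]; exact h.2

/-- check of a recurrence -/
def chkT (L : ℕ) (cs : List (List ℕ)) (M : List (List (List ℕ))) : Bool :=
  allR L fun p => allR L fun r => chk1 cs (lk M p r) (lk (stepN L 1 M) p r)
    (lk (stepN L 2 M) p r) (lk (stepN L 3 M) p r) (lk (stepN L 4 M) p r) (lk (stepN L 5 M) p r)
    (lk (stepN L 6 M) p r)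

/-- the recurrence of order six -/
def Rec6 (x : R) (cs : List (List ℕ)) (s : ℕ → R) : Prop :=
  ∀ n, s (n + 6) + (ev x (cs.getD 1 []) * s (n + 4) + (ev x (cs.getD 3 []) * s (n + 2) +
    ev x (cs.getD 5 []) * s n)) = ev x (cs.getD 0 []) * s (n + 5) +
    (ev x (cs.getD 2 []) * s (n + 3) + ev x (cs.getD 4 []) * s (n + 1))

theorem chkT_spec {L : ℕ} {cs : List (List ℕ)} {M : List (List (List ℕ))}
    (h : chkT L cs M = true) (x : R) {V : ℕ → ℕ → R} (hV : Agr L (evT x M) V)
    {p r : ℕ} (hp : p < L) (hr : r < L) :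
    It L x V 6 p r + (ev x (cs.getD 1 []) * It L x V 4 p r + (ev x (cs.getD 3 []) *
      It L x V 2 p r + ev x (cs.getD 5 []) * It L x V 0 p r)) =
    ev x (cs.getD 0 []) * It L x V 5 p r +
    (ev x (cs.getD 2 []) * It L x V 3 p r + ev x (cs.getD 4 []) * It L x V 1 p r) := by
  have h1 := allR_spec (allR_spec h p hp) r hr
  have h2 := ev_eqL x _ _ h1
  simp only [ev_addL, ev_mulL] at h2
  have e : ∀ n, ev x (lk (stepN L n M) p r) = It L x V n p r :=
    fun n => evT_stepN L x hV n p hp r hr
  have e0 : ev x (lk M p r) = It L x V 0 p r := e 0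
  rw [e 1, e 2, e 3, e 4, e 5, e 6, e0] at h2
  exact h2

theorem TT_add (L : ℕ) (x : R) (V W : ℕ → ℕ → R) (p r : ℕ) :
    TT L x (fun p r => V p r + W p r) p r = TT L x V p r + TT L x W p r := by
  simp only [TT]
  rw [← Finset.sum_add_distrib]
  refine Finset.sum_congr rfl fun c _ => ?_
  split_ifs
  · ring
  · simp

theorem TT_mul (L : ℕ) (x a : R) (V : ℕ → ℕ → R) (p r : ℕ) :
    TT L x (fun p r => a * V p r) p r = a * TT L x V p r := by
  simp only [TT]
  rw [Finset.mul_sum]
  refine Finset.sum_congr rfl fun c _ => ?_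
  split_ifs
  · ring
  · simp

theorem HH_add (L : ℕ) (x : R) (X : ℕ → Bool) (V W : ℕ → ℕ → R) :
    HH L x X (fun p r => V p r + W p r) = HH L x X V + HH L x X W := by
  simp only [HH]
  rw [← Finset.sum_add_distrib]
  refine Finset.sum_congr rfl fun c _ => ?_
  split_ifs
  · ring
  · simp

theorem HH_mul (L : ℕ) (x a : R) (X : ℕ → Bool) (V : ℕ → ℕ → R) :
    HH L x X (fun p r => a * V p r) = a * HH L x X V := by
  simp only [HH]
  rw [Finset.mul_sum]
  refine Finset.sum_congr rfl fun c _ => ?_
  split_ifs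
  · ring
  · simp

theorem rec_It {L : ℕ} {cs : List (List ℕ)} {M : List (List (List ℕ))}
    (h : chkT L cs M = true) (x : R) {V : ℕ → ℕ → R} (hV : Agr L (evT x M) V) (n : ℕ) :
    ∀ p < L, ∀ r < L,
    It L x V (n + 6) p r + (ev x (cs.getD 1 []) * It L x V (n + 4) p r +
      (ev x (cs.getD 3 []) * It L x V (n + 2) p r + ev x (cs.getD 5 []) * It L x V n p r)) =
    ev x (cs.getD 0 []) * It L x V (n + 5) p r +
    (ev x (cs.getD 2 []) * It L x V (n + 3) p r +
      ev x (cs.getD 4 []) * It L x V (n + 1) p r) := by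
  induction n with
  | zero => intro p hp r hr; exact chkT_spec h x hV hp hr
  | succ n ih =>
    intro p _ r _
    have := TT_congr (L := L) x (V := fun p r => It L x V (n + 6) p r +
      (ev x (cs.getD 1 []) * It L x V (n + 4) p r +
      (ev x (cs.getD 3 []) * It L x V (n + 2) p r + ev x (cs.getD 5 []) * It L x V n p r)))
      (W := fun p r => ev x (cs.getD 0 []) * It L x V (n + 5) p r +
    (ev x (cs.getD 2 []) * It L x V (n + 3) p r +
      ev x (cs.getD 4 []) * It L x V (n + 1) p r)) ih p r
    simp only [TT_add, TT_mul] at this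
    exact this

theorem rec_HH {L : ℕ} {cs : List (List ℕ)} {M : List (List (List ℕ))}
    (h : chkT L cs M = true) (x : R) {V : ℕ → ℕ → R} (hV : Agr L (evT x M) V)
    (X : ℕ → Bool) : Rec6 x cs (fun n => HH L x X (It L x V n)) := by
  intro n
  have := HH_congr (L := L) x X (V := fun p r => It L x V (n + 6) p r +
      (ev x (cs.getD 1 []) * It L x V (n + 4) p r +
      (ev x (cs.getD 3 []) * It L x V (n + 2) p r + ev x (cs.getD 5 []) * It L x V n p r)))
      (W := fun p r => ev x (cs.getD 0 []) * It L x V (n + 5) p r +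
    (ev x (cs.getD 2 []) * It L x V (n + 3) p r +
      ev x (cs.getD 4 []) * It L x V (n + 1) p r)) (rec_It h x hV n)
  simp only [HH_add, HH_mul] at this
  exact this

end ev

theorem chk3C : chkT 3 rc3 (stepT 3 (stepT 3 (tabC 3 tt))) = true := by decide +kernel
theorem chk3E : chkT 3 rd3 (tabE 3) = true := by decide +kernel
theorem chk3O : chkT 3 rd3 (tabO 3) = true := by decide +kernel
theorem chk4C : chkT 4 rc4 (stepT 4 (stepT 4 (tabC 4 tt))) = true := by decide +kernel
theorem chk4C2 : chkT 4 rc4 (stepT 4 (stepT 4 (tabC 4 t2))) = true := by decide +kernel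
theorem chk4C1 : chkT 4 rc4 (stepT 4 (stepT 4 (tabC 4 e1))) = true := by decide +kernel
theorem chk4E : chkT 4 rc4 (tabE 4) = true := by decide +kernel
theorem chk4O : chkT 4 rc4 (tabO 4) = true := by decide +kernel
theorem chk5C2 : chkT 5 rc5 (stepT 5 (stepT 5 (tabC 5 t2))) = true := by decide +kernel
theorem chk5C1 : chkT 5 rc5 (stepT 5 (stepT 5 (tabC 5 e1))) = true := by decide +kernel
theorem chk5E : chkT 5 rd5 (tabE 5) = true := by decide +kernel
theorem chk5O : chkT 5 rd5 (tabO 5) = true := by decide +kernel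

end Pool.Agent.H502R2
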