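import Pool.Agent.H502R2.Combine

/-!
Numerical semigroups and Kunz coordinates.
-/

namespace Pool.Agent.H502R2

open Finset

/-- numerical semigroups with `g` gaps -/
def SG (g : ℕ) : Set (AddSubmonoid ℕ) :=
  {S | ((S : Set ℕ)ᶜ).Finite ∧ ((S : Set ℕ)ᶜ).ncard = g}

theorem gap_lt {S : AddSubmonoid ℕ} {g : ℕ} (hS : S ∈ SG g) {x : ℕ} (hx : x ∉ S) : x < 2 * g := by
  classical
  obtain ⟨hf, hc⟩ := hS
  set A := (range (x + 1)).filter (fun a => a ∉ S) with hA
  set B := (range (x + 1)).filter (fun a => x - a ∉ S) with hB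
  have h1 : range (x + 1) ⊆ A ∪ B := by
    intro a ha
    rw [Finset.mem_union, hA, hB, Finset.mem_filter, Finset.mem_filter]
    by_contra h
    push Not at h
    have h2 := h.1 ha
    have h3 := h.2 ha
    apply hx
    have : a + (x - a) = x := by have := Finset.mem_range.mp ha; omega
    rw [← this]
    exact S.add_mem h2 h3
  have h2 : B.card ≤ A.card := by
    refine Finset.card_le_card_of_injOn (fun a => x - a) ?_ ?_
    · intro a ha
      simp only [hB, Finset.coe_filter, Set.mem_ofPred_eq, Finset.mem_range] at ha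
      simp only [hA, Finset.coe_filter, Set.mem_ofPred_eq, Finset.mem_range]
      exact ⟨by omega, ha.2⟩
    · intro a ha b hb hab
      simp only [hB, Finset.coe_filter, Set.mem_ofPred_eq, Finset.mem_range] at ha hb
      simp only at hab
      omega
  have h3 : A.card ≤ g := by
    rw [← hc, ← Set.ncard_coe_finset]
    refine Set.ncard_le_ncard ?_ hf
    intro a ha
    simp only [hA, Finset.coe_filter, Set.mem_ofPred_eq] at ha
    exact ha.2
  have h4 := Finset.card_le_card h1
  have h5 := Finset.card_union_le A B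
  rw [Finset.card_range] at h4
  omega

theorem SG_finite (g : ℕ) : (SG g).Finite := by
  classical
  refine Set.Finite.of_injOn (f := fun S : AddSubmonoid ℕ => ((S : Set ℕ)ᶜ))
    (t := 𝒫 ((range (2 * g) : Finset ℕ) : Set ℕ)) ?_ ?_ ?_
  · intro S hS
    rw [Set.mem_powerset_iff]
    intro x hx
    rw [Finset.mem_coe, Finset.mem_range]
    exact gap_lt hS hx
  · intro S _ S' _ h
    simp only at h
    have := compl_injective h
    exact SetLike.coe_injective this
  · exact Set.Finite.finite_subsets (Finset.finite_toSet _)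

/-- counting a set given by Kunz coordinates -/
theorem kunz_count (m : ℕ) (hm : 0 < m) (k : ℕ → ℕ) :
    {n : ℕ | n / m < k (n % m)}.Finite ∧ {n : ℕ | n / m < k (n % m)}.ncard = ∑ i ∈ range m, k i := by
  classical
  have h : {n : ℕ | n / m < k (n % m)} =
      ((((range m).sigma fun i => range (k i)).image fun p => p.1 + p.2 * m : Finset ℕ) : Set ℕ) := by
    ext n
    simp only [Set.mem_ofPred_eq, Finset.coe_image, Set.mem_image, Finset.mem_coe,
      Finset.mem_sigma, Finset.mem_range]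
    constructor
    · intro h
      exact ⟨⟨n % m, n / m⟩, ⟨Nat.mod_lt _ hm, h⟩, by
        show n % m + n / m * m = n
        rw [mul_comm, Nat.mod_add_div]⟩
    · rintro ⟨⟨i, t⟩, ⟨hi, ht⟩, rfl⟩
      simp only at hi ht ⊢
      rw [Nat.add_mul_mod_self_right, Nat.mod_eq_of_lt hi, Nat.add_mul_div_right _ _ hm,
        Nat.div_eq_of_lt hi]
      omega
  rw [h]
  refine ⟨Finset.finite_toSet _, ?_⟩
  rw [Set.ncard_coe_finset, Finset.card_image_of_injOn, Finset.card_sigma]
  · simp
  · rintro ⟨i, t⟩ hi ⟨j, s⟩ hj h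
    simp only [Finset.coe_sigma, Set.mem_sigma_iff, Finset.coe_range, Set.mem_Iio] at hi hj h
    have h1 := congrArg (· % m) h
    have h2 := congrArg (· / m) h
    simp only [Nat.add_mul_mod_self_right, Nat.add_mul_div_right _ _ hm] at h1 h2
    rw [Nat.mod_eq_of_lt hi.1, Nat.mod_eq_of_lt hj.1] at h1
    rw [Nat.div_eq_of_lt hi.1, Nat.div_eq_of_lt hj.1] at h2
    subst h1
    have : t = s := by omega
    rw [this]

/-- multiplicity -/
noncomputable def mul (S : AddSubmonoid ℕ) : ℕ := sInf {n | n ∈ S ∧ 0 < n}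

/-- Kunz coordinates -/
noncomputable def kz (S : AddSubmonoid ℕ) (i : ℕ) : ℕ := sInf {t | i + t * mul S ∈ S}

section facts
variable {S : AddSubmonoid ℕ} {g : ℕ}

theorem big_mem (hS : S ∈ SG g) {x : ℕ} (hx : 2 * g ≤ x) : x ∈ S := by
  by_contra h
  have := gap_lt hS h
  omega

theorem mul_spec (hS : S ∈ SG g) : mul S ∈ S ∧ 0 < mul S := by
  have : ({n | n ∈ S ∧ 0 < n} : Set ℕ).Nonempty := ⟨2 * g + 1, big_mem hS (by omega), by omega⟩
  exact Nat.sInf_mem this

theorem mul_min {n : ℕ} (hn : n ∈ S) (h0 : 0 < n) : mul S ≤ n := Nat.sInf_le ⟨hn, h0⟩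

theorem kz_spec (hS : S ∈ SG g) (i : ℕ) : i + kz S i * mul S ∈ S := by
  have hm := (mul_spec hS).2
  have : ({t | i + t * mul S ∈ S} : Set ℕ).Nonempty :=
    ⟨2 * g, big_mem hS (by
      have : 2 * g * 1 ≤ 2 * g * mul S := Nat.mul_le_mul_left _ hm
      omega)⟩
  exact Nat.sInf_mem this

theorem mem_iff (hS : S ∈ SG g) (i t : ℕ) : i + t * mul S ∈ S ↔ kz S i ≤ t := by
  constructor
  · intro h; exact Nat.sInf_le h
  · intro h
    have h1 := kz_spec hS i
    have h2 : i + t * mul S = (i + kz S i * mul S) + (t - kz S i) • mul S := by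
      rw [smul_eq_mul, add_assoc, ← add_mul]
      congr 2
      omega
    rw [h2]
    exact S.add_mem h1 (S.nsmul_mem (mul_spec hS).1 _)

theorem kz_zero (hS : S ∈ SG g) : kz S 0 = 0 := by
  have := (mem_iff hS 0 0).mp (by simp)
  omega

theorem kz_pos (hS : S ∈ SG g) {i : ℕ} (h0 : 0 < i) (hi : i < mul S) : 1 ≤ kz S i := by
  by_contra h
  have h1 := (mem_iff hS i 0).mpr (by omega)
  simp only [zero_mul, add_zero] at h1
  have := mul_min h1 h0
  omega

theorem kz_add (hS : S ∈ SG g) (i j : ℕ) : kz S (i + j) ≤ kz S i + kz S j := by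
  rw [← mem_iff hS]
  have h := S.add_mem (kz_spec hS i) (kz_spec hS j)
  have e : i + j + (kz S i + kz S j) * mul S = i + kz S i * mul S + (j + kz S j * mul S) := by ring
  rw [e]
  exact h

theorem kz_wrap (hS : S ∈ SG g) (i : ℕ) : kz S i ≤ kz S (i + mul S) + 1 := by
  rw [← mem_iff hS]
  have h := kz_spec hS (i + mul S)
  have e : i + (kz S (i + mul S) + 1) * mul S = i + mul S + kz S (i + mul S) * mul S := by ring
  rw [e]
  exact h

theorem kz_add_wrap (hS : S ∈ SG g) {i j l : ℕ} (h : i + j = l + mul S) :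
    kz S l ≤ kz S i + kz S j + 1 := by
  have h1 := kz_add hS i j
  have h2 := kz_wrap hS l
  rw [h] at h1
  omega

theorem mem_iff' (hS : S ∈ SG g) (n : ℕ) : n ∈ S ↔ kz S (n % mul S) ≤ n / mul S := by
  rw [← mem_iff hS, mul_comm, Nat.mod_add_div]

theorem kz_sum (hS : S ∈ SG g) : ∑ i ∈ range (mul S), kz S i = g := by
  rw [← (kunz_count (mul S) (mul_spec hS).2 (kz S)).2, ← hS.2]
  congr 1
  ext n
  rw [Set.mem_ofPred_eq, Set.mem_compl_iff, SetLike.mem_coe, mem_iff' hS]
  omega

theorem ext_kz {S' : AddSubmonoid ℕ} {g' : ℕ} (hS : S ∈ SG g) (hS' : S' ∈ SG g')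
    (hm : mul S = mul S') (h : ∀ i < mul S, kz S i = kz S' i) : S = S' := by
  ext n
  rw [mem_iff' hS, mem_iff' hS', ← hm, h _ (Nat.mod_lt _ (mul_spec hS).2)]

theorem mul_ge_two (hS : S ∈ SG g) (hg : 1 ≤ g) : 2 ≤ mul S := by
  have h := (mul_spec hS).2
  by_contra h'
  have h1 : mul S = 1 := by omega
  have h2 := kz_sum hS
  rw [h1, Finset.sum_range_one, kz_zero hS] at h2
  omega

end facts

end Pool.Agent.H502R2
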