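import Pool.Agent.H502R2.Upper

/-!
Words for semigroups of depth at most three.
-/

namespace Pool.Agent.H502R2

open Finset

/-- no two ones add up to a three -/
def TC (w : List ℕ) : Prop :=
  ∀ i j, w.getD i 0 = 1 → w.getD j 0 = 1 → w.getD (i + j + 1) 0 ≠ 3

/-- words of weight `g` -/
def TW (g : ℕ) : Set (List ℕ) := {w | (∀ x ∈ w, 1 ≤ x ∧ x ≤ 3) ∧ TC w ∧ w.sum = g}

/-- Kunz function of a word -/
def kw (w : List ℕ) (i : ℕ) : ℕ := if i = 0 then 0 else w.getD (i - 1) 0

theorem getD_mem {w : List ℕ} {i : ℕ} (hi : i < w.length) : w.getD i 0 ∈ w := by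
  rw [List.getD_eq_getElem _ _ hi]; exact List.getElem_mem hi

theorem sum_kw (w : List ℕ) : ∑ i ∈ range (w.length + 1), kw w i = w.sum := by
  rw [Finset.sum_range_succ']
  simp only [kw, if_true, add_zero, Nat.add_sub_cancel, Nat.add_eq_zero_iff, one_ne_zero, and_false,
    if_false]
  induction w with
  | nil => simp
  | cons a l ih =>
    rw [List.length_cons, Finset.sum_range_succ']
    simp only [List.getD_cons_succ, List.getD_cons_zero, List.sum_cons]
    rw [ih]; ring

section
variable {w : List ℕ} (hw : ∀ x ∈ w, 1 ≤ x ∧ x ≤ 3) (ht : TC w)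
include hw

theorem kw_le (i : ℕ) : kw w i ≤ 3 := by
  rw [kw]
  split_ifs with h
  · omega
  · rcases Nat.lt_or_ge (i - 1) w.length with h1 | h1
    · exact (hw _ (getD_mem h1)).2
    · rw [List.getD_eq_default _ _ h1]; omega

theorem kw_ge {i : ℕ} (h0 : 0 < i) (hi : i < w.length + 1) : 1 ≤ kw w i := by
  rw [kw, if_neg (by omega)]
  exact (hw _ (getD_mem (by omega))).1

include ht

theorem kw_add {i j : ℕ} (hi : i < w.length + 1) (hj : j < w.length + 1) :
    kw w (i + j) ≤ kw w i + kw w j := by
  rcases Nat.eq_zero_or_pos i with h0 | h0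
  · subst h0; simp
  rcases Nat.eq_zero_or_pos j with h1 | h1
  · subst h1; simp
  have a1 := kw_ge hw h0 hi
  have a2 := kw_ge hw h1 hj
  have a3 := kw_le hw (i + j)
  by_contra h
  have b1 : kw w i = 1 := by omega
  have b2 : kw w j = 1 := by omega
  have b3 : kw w (i + j) = 3 := by omega
  rw [kw, if_neg (by omega)] at b1 b2 b3
  have := ht (i - 1) (j - 1) b1 b2
  have e : i - 1 + (j - 1) + 1 = i + j - 1 := by omega
  rw [e] at this
  exact this b3

/-- the semigroup of a word -/
def Sw : AddSubmonoid ℕ where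
  carrier := {n | kw w (n % (w.length + 1)) ≤ n / (w.length + 1)}
  zero_mem' := by simp [kw]
  add_mem' := by
    intro a b ha hb
    simp only [Set.mem_ofPred_eq] at ha hb ⊢
    have hm : 0 < w.length + 1 := by omega
    have la := Nat.mod_lt a hm
    have lb := Nat.mod_lt b hm
    rw [Nat.add_mod_eq_ite, Nat.add_div hm]
    split_ifs with h
    · rcases Nat.eq_zero_or_pos (a % (w.length + 1) + b % (w.length + 1) - (w.length + 1)) with h1 | h1
      · rw [h1]; simp [kw]
      · have a1 := kw_ge hw (i := a % (w.length + 1)) (by omega) la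
        have a2 := kw_ge hw (i := b % (w.length + 1)) (by omega) lb
        have a3 := kw_le hw (a % (w.length + 1) + b % (w.length + 1) - (w.length + 1))
        omega
    · have := kw_add hw ht la lb
      omega

theorem mem_Sw (n : ℕ) : n ∈ Sw hw ht ↔ kw w (n % (w.length + 1)) ≤ n / (w.length + 1) := Iff.rfl

theorem Sw_mem : Sw hw ht ∈ SG w.sum := by
  have h := kunz_count (w.length + 1) (by omega) (kw w)
  have e : ((Sw hw ht : Set ℕ)ᶜ) = {n : ℕ | n / (w.length + 1) < kw w (n % (w.length + 1))} := by
    ext n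
    rw [Set.mem_compl_iff, SetLike.mem_coe, mem_Sw, Set.mem_ofPred_eq]
    omega
  refine ⟨?_, ?_⟩
  · rw [e]; exact h.1
  · rw [e, h.2]; exact sum_kw w

theorem mul_Sw : mul (Sw hw ht) = w.length + 1 := by
  have hm : 0 < w.length + 1 := by omega
  refine le_antisymm (mul_min ?_ hm) ?_
  · rw [mem_Sw, Nat.mod_self, Nat.div_self hm]; simp [kw]
  · by_contra h
    obtain ⟨h1, h2⟩ := mul_spec (Sw_mem hw ht)
    rw [mem_Sw, Nat.mod_eq_of_lt (by omega), Nat.div_eq_of_lt (by omega)] at h1
    have := kw_ge hw h2 (by omega)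
    omega

theorem kz_Sw {i : ℕ} (hi : i < w.length + 1) : kz (Sw hw ht) i = kw w i := by
  have hm : 0 < w.length + 1 := by omega
  have h : ∀ t, kz (Sw hw ht) i ≤ t ↔ kw w i ≤ t := by
    intro t
    rw [← mem_iff (Sw_mem hw ht), mul_Sw, mem_Sw, Nat.add_mul_mod_self_right,
      Nat.mod_eq_of_lt hi, Nat.add_mul_div_right _ _ hm, Nat.div_eq_of_lt hi, zero_add]
  exact le_antisymm ((h _).mpr le_rfl) ((h _).mp le_rfl)

end

open Classical in
/-- total version -/
noncomputable def Sw' (w : List ℕ) : AddSubmonoid ℕ :=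
  if h : (∀ x ∈ w, 1 ≤ x ∧ x ≤ 3) ∧ TC w then Sw h.1 h.2 else ⊤

theorem TW_maps (g : ℕ) : ∀ w ∈ TW g, Sw' w ∈ SG g := by
  rintro w ⟨h1, h2, rfl⟩
  rw [Sw', dif_pos ⟨h1, h2⟩]
  exact Sw_mem h1 h2

theorem TW_inj (g : ℕ) : Set.InjOn Sw' (TW g) := by
  intro w hw w' hw' h
  rw [Sw', dif_pos ⟨hw.1, hw.2.1⟩, Sw', dif_pos ⟨hw'.1, hw'.2.1⟩] at h
  have hl : w.length = w'.length := by
    have h1 := mul_Sw hw.1 hw.2.1
    have h2 := mul_Sw hw'.1 hw'.2.1
    rw [h] at h1
    omega
  refine List.ext_getElem hl fun i h1 h2 => ?_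
  have a1 := kz_Sw hw.1 hw.2.1 (i := i + 1) (by omega)
  have a2 := kz_Sw hw'.1 hw'.2.1 (i := i + 1) (by omega)
  rw [h, a2] at a1
  simp only [kw, Nat.add_eq_zero_iff, one_ne_zero, and_false, if_false, Nat.add_sub_cancel] at a1
  rw [List.getD_eq_getElem _ _ h1, List.getD_eq_getElem _ _ h2] at a1
  exact a1.symm

theorem TW_finite (g : ℕ) : (TW g).Finite :=
  Set.Finite.of_injOn (TW_maps g) (TW_inj g) (SG_finite g)

theorem TW_le (g : ℕ) : (TW g).ncard ≤ (SG g).ncard :=
  Set.ncard_le_ncard_of_injOn Sw' (TW_maps g) (TW_inj g) (SG_finite g)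

open Classical in
/-- depth at most three -/
noncomputable def T3 (g : ℕ) : Finset (AddSubmonoid ℕ) :=
  (SF g).filter fun S => ¬ ∃ i < mul S, 4 ≤ kz S i

/-- word of a semigroup -/
noncomputable def wS (S : AddSubmonoid ℕ) : List ℕ :=
  List.ofFn (fun i : Fin (mul S - 1) => kz S (i + 1))

theorem wS_getD (S : AddSubmonoid ℕ) (i : ℕ) :
    (wS S).getD i 0 = if i < mul S - 1 then kz S (i + 1) else 0 := by
  split_ifs with h
  · rw [List.getD_eq_getElem _ _ (by rw [wS, List.length_ofFn]; exact h)]
    simp [wS]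
  · rw [List.getD_eq_default]
    rw [wS, List.length_ofFn]; omega

theorem T3_le (g : ℕ) : (T3 g).card ≤ (TW g).ncard := by
  classical
  rw [← Set.ncard_coe_finset]
  refine Set.ncard_le_ncard_of_injOn wS ?_ ?_ (TW_finite g)
  · intro S hS
    simp only [T3, Finset.coe_filter, Set.mem_ofPred_eq, mem_SF] at hS
    obtain ⟨hS, h4⟩ := hS
    push Not at h4
    have hm := (mul_spec hS).2
    refine ⟨?_, ?_, ?_⟩
    · intro x hx
      rw [wS, List.mem_ofFn] at hx
      obtain ⟨i, rfl⟩ := hx
      have h1 := kz_pos hS (i := i + 1) (by omega) (by omega)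
      have h2 := h4 (i + 1) (by omega)
      omega
    · intro i j hi hj
      rw [wS_getD] at hi hj ⊢
      split_ifs at hi hj ⊢ with h1 h2 h3
      · have := kz_add hS (i + 1) (j + 1)
        have e : i + 1 + (j + 1) = i + j + 1 + 1 := by ring
        rw [e] at this
        omega
      · omega
    · rw [wS, List.sum_ofFn, ← Finset.sum_range (fun i => kz S (i + 1))]
      have h := kz_sum hS
      have e : mul S = (mul S - 1) + 1 := by omega
      rw [e, Finset.sum_range_succ', kz_zero hS, add_zero] at h
      exact h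
  · intro S hS S' hS' h
    simp only [T3, Finset.coe_filter, Set.mem_ofPred_eq, mem_SF] at hS hS'
    have h1 := (mul_spec hS.1).2
    have h2 := (mul_spec hS'.1).2
    have hl : mul S = mul S' := by
      have := congrArg List.length h
      rw [wS, wS, List.length_ofFn, List.length_ofFn] at this
      omega
    refine ext_kz hS.1 hS'.1 hl fun i hi => ?_
    rcases Nat.eq_zero_or_pos i with h0 | h0
    · rw [h0, kz_zero hS.1, kz_zero hS'.1]
    · have a1 := wS_getD S (i - 1)
      have a2 := wS_getD S' (i - 1)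
      rw [if_pos (by omega)] at a1 a2
      have e : i - 1 + 1 = i := by omega
      rw [e] at a1 a2
      rw [← a1, ← a2, h]

theorem SG_card (g : ℕ) : (SG g).ncard ≤ (TW g).ncard + (T4 g).card := by
  classical
  have h1 : (SG g).ncard = (SF g).card := by
    rw [← Set.ncard_coe_finset]
    congr 1
    ext S
    rw [Finset.mem_coe, mem_SF]
  have h2 := Finset.card_filter_add_card_filter_not (s := SF g)
    (fun S => ∃ i < mul S, 4 ≤ kz S i)
  have h3 := T3_le g
  rw [T3] at h3
  rw [h1, T4]
  omega

/-! recursion -/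

theorem TC_append {w : List ℕ} (ht : TC w) {a : ℕ}
    (ha : a ≠ 3 ∨ ∀ i j, w.getD i 0 = 1 → w.getD j 0 = 1 → i + j + 1 ≠ w.length) :
    TC (w ++ [a]) := by
  have key : ∀ k, (w ++ [a]).getD k 0 = if k < w.length then w.getD k 0 else
      if k = w.length then a else 0 := by
    intro k
    split_ifs with h1 h2
    · rw [List.getD_append _ _ _ _ h1]
    · rw [h2, List.getD_append_right _ _ _ _ le_rfl]; simp
    · rw [List.getD_eq_default]
      simp; omega
  intro i j hi hj
  rw [key] at hi hj ⊢
  rcases Nat.lt_trichotomy (i + j + 1) w.length with h | h | h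
  · rw [if_pos h]
    rw [if_pos (by omega)] at hi hj
    exact ht i j hi hj
  · rw [if_neg (by omega), if_pos h]
    rw [if_pos (by omega)] at hi hj
    rcases ha with ha | ha
    · exact ha
    · exact absurd h (ha i j hi hj)
  · rw [if_neg (by omega), if_neg (by omega)]
    omega

theorem TC_of_append {w : List ℕ} {v : List ℕ} (ht : TC (w ++ v)) : TC w := by
  intro i j hi hj
  have hi' : i < w.length := by
    by_contra h
    rw [List.getD_eq_default _ _ (by omega)] at hi
    omega
  have hj' : j < w.length := by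
    by_contra h
    rw [List.getD_eq_default _ _ (by omega)] at hj
    omega
  have h := ht i j
  rw [List.getD_append _ _ _ _ hi', List.getD_append _ _ _ _ hj'] at h
  rcases Nat.lt_or_ge (i + j + 1) w.length with h1 | h1
  · rw [List.getD_append _ _ _ _ h1] at h
    exact h hi hj
  · rw [List.getD_eq_default _ _ h1]; omega

theorem TW_rec (g : ℕ) : (TW (g + 1)).ncard + (TW g).ncard ≤ (TW (g + 2)).ncard := by
  classical
  have hi1 : Function.Injective (fun w : List ℕ => w ++ [1]) := fun a b h => by simpa using h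
  have hi2 : Function.Injective (fun w : List ℕ => w ++ [2]) := fun a b h => by simpa using h
  have hd : Disjoint ((fun w : List ℕ => w ++ [1]) '' TW (g + 1))
      ((fun w : List ℕ => w ++ [2]) '' TW g) := by
    rw [Set.disjoint_left]
    rintro _ ⟨w, _, rfl⟩ ⟨w', _, h⟩
    simp only at h
    have := (List.append_inj' h rfl).2
    simp at this
  rw [← Set.ncard_image_of_injective _ hi1, ← Set.ncard_image_of_injective (TW g) hi2,
    ← Set.ncard_union_eq hd ((TW_finite _).image _) ((TW_finite _).image _)]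
  · refine Set.ncard_le_ncard ?_ (TW_finite _)
    rintro _ (⟨w, hw, rfl⟩ | ⟨w, hw, rfl⟩)
    · refine ⟨?_, TC_append hw.2.1 (Or.inl (by omega)), ?_⟩
      · intro x hx
        simp only [List.mem_append, List.mem_singleton] at hx
        rcases hx with hx | hx
        · exact hw.1 x hx
        · omega
      · simp [hw.2.2]
    · refine ⟨?_, TC_append hw.2.1 (Or.inl (by omega)), ?_⟩
      · intro x hx
        simp only [List.mem_append, List.mem_singleton] at hx
        rcases hx with hx | hx
        · exact hw.1 x hx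
        · omega
      · simp [hw.2.2]

/-! computation of small values -/

/-- number of extensions of a word with given masks -/
def dfs : ℕ → ℕ → ℕ → ℕ → ℕ → ℕ
  | 0, rem, _, _, _ => if rem = 0 then 1 else 0
  | f + 1, rem, F, R, p =>
    if rem = 0 then 1 else
      dfs f (rem - 1) (F ||| p) (2 * R + 1) (2 * p) +
      (if 2 ≤ rem then dfs f (rem - 2) F (2 * R) (2 * p) else 0) +
      (if 3 ≤ rem then (if F &&& R = 0 then dfs f (rem - 3) F (2 * R) (2 * p) else 0) else 0)

/-- extensions -/
def EX (w : List ℕ) (rem : ℕ) : Set (List ℕ) :=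
  {v | (∀ x ∈ v, 1 ≤ x ∧ x ≤ 3) ∧ TC (w ++ v) ∧ v.sum = rem}

/-- masks -/
def Inv (w : List ℕ) (F R : ℕ) : Prop :=
  ∀ k < w.length, w.getD k 0 = 1 → F.testBit k = true ∧ R.testBit (w.length - 1 - k) = true

theorem EX_finite {w : List ℕ} (hw : ∀ x ∈ w, 1 ≤ x ∧ x ≤ 3) (rem : ℕ) : (EX w rem).Finite := by
  refine Set.Finite.of_injOn (f := fun v => w ++ v) (t := TW (w.sum + rem)) ?_ ?_ (TW_finite _)
  · intro v hv
    refine ⟨?_, hv.2.1, ?_⟩
    · intro x hx
      rw [List.mem_append] at hx
      rcases hx with hx | hx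
      · exact hw x hx
      · exact hv.1 x hx
    · rw [List.sum_append, hv.2.2]
  · intro a _ b _ h
    simpa using h

theorem Inv_one {w : List ℕ} {F R : ℕ} (h : Inv w F R) :
    Inv (w ++ [1]) (F ||| 2 ^ w.length) (2 * R + 1) := by
  intro k hk hk1
  rw [List.length_append, List.length_singleton] at hk ⊢
  rcases Nat.lt_or_ge k w.length with h1 | h1
  · rw [List.getD_append _ _ _ _ h1] at hk1
    obtain ⟨a, b⟩ := h k h1 hk1
    refine ⟨by rw [Nat.testBit_lor, a]; rfl, ?_⟩
    have e : w.length + 1 - 1 - k = (w.length - 1 - k) + 1 := by omega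
    rw [e, Nat.testBit_succ]
    have e2 : (2 * R + 1) / 2 = R := by omega
    rw [e2]; exact b
  · have e : k = w.length := by omega
    subst e
    refine ⟨by rw [Nat.testBit_lor, Nat.testBit_two_pow_self]; simp, ?_⟩
    have e : w.length + 1 - 1 - w.length = 0 := by omega
    rw [e, Nat.testBit_zero]
    simp

theorem Inv_other {w : List ℕ} {F R a : ℕ} (h : Inv w F R) (ha : a ≠ 1) :
    Inv (w ++ [a]) F (2 * R) := by
  intro k hk hk1
  rw [List.length_append, List.length_singleton] at hk ⊢
  rcases Nat.lt_or_ge k w.length with h1 | h1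
  · rw [List.getD_append _ _ _ _ h1] at hk1
    obtain ⟨a, b⟩ := h k h1 hk1
    refine ⟨a, ?_⟩
    have e : w.length + 1 - 1 - k = (w.length - 1 - k) + 1 := by omega
    rw [e, Nat.testBit_succ]
    have e2 : (2 * R) / 2 = R := by omega
    rw [e2]; exact b
  · have e : k = w.length := by omega
    subst e
    rw [List.getD_append_right _ _ _ _ le_rfl] at hk1
    simp at hk1
    omega

theorem Inv_free {w : List ℕ} {F R : ℕ} (h : Inv w F R) (h0 : F &&& R = 0) :
    ∀ i j, w.getD i 0 = 1 → w.getD j 0 = 1 → i + j + 1 ≠ w.length := by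
  intro i j hi hj hij
  have a := (h i (by omega) hi).1
  have b := (h j (by omega) hj).2
  have e : w.length - 1 - j = i := by omega
  rw [e] at b
  have : (F &&& R).testBit i = true := by rw [Nat.testBit_land, a, b]; rfl
  rw [h0] at this
  simp at this

theorem dfs_le (f : ℕ) : ∀ (rem : ℕ) (w : List ℕ) (F R : ℕ), (∀ x ∈ w, 1 ≤ x ∧ x ≤ 3) → TC w →
    Inv w F R → dfs f rem F R (2 ^ w.length) ≤ (EX w rem).ncard := by
  classical
  have base : ∀ w : List ℕ, TC w → (∀ x ∈ w, 1 ≤ x ∧ x ≤ 3) → 1 ≤ (EX w 0).ncard := by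
    intro w ht hw
    rw [Nat.one_le_iff_ne_zero, ← Nat.pos_iff_ne_zero, Set.ncard_pos (EX_finite hw 0)]
    exact ⟨[], by simp, by simpa using ht, rfl⟩
  induction f with
  | zero =>
    intro rem w F R hw ht hI
    rw [dfs]
    split_ifs with h
    · subst h; exact base w ht hw
    · exact Nat.zero_le _
  | succ f ih =>
    intro rem w F R hw ht hI
    rw [dfs]
    split_ifs with h h2 h3 h4
    all_goals first | (subst h; exact base w ht hw) | skip
    all_goals
      have hw1 : ∀ a, 1 ≤ a ∧ a ≤ 3 → ∀ x ∈ w ++ [a], 1 ≤ x ∧ x ≤ 3 := by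
        intro a ha x hx
        simp only [List.mem_append, List.mem_singleton] at hx
        rcases hx with hx | hx
        · exact hw x hx
        · rw [hx]; exact ha
      have hlen : ∀ a : ℕ, 2 * 2 ^ w.length = 2 ^ (w ++ [a]).length := by
        intro a; rw [List.length_append, List.length_singleton, pow_succ]; ring
      have c1 := ih (rem - 1) (w ++ [1]) (F ||| 2 ^ w.length) (2 * R + 1) (hw1 1 (by omega))
        (TC_append ht (Or.inl (by omega))) (Inv_one hI)
      rw [← hlen] at c1
      have hcons : ∀ a : ℕ, Function.Injective (fun v : List ℕ => a :: v) :=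
        fun a x y h => by simpa using h
      have sub : ∀ a, 1 ≤ a ∧ a ≤ 3 → a ≤ rem →
          (fun v : List ℕ => a :: v) '' (EX (w ++ [a]) (rem - a)) ⊆ EX w rem := by
        rintro a ha har _ ⟨v, hv, rfl⟩
        refine ⟨?_, ?_, ?_⟩
        · intro x hx
          rw [List.mem_cons] at hx
          rcases hx with hx | hx
          · rw [hx]; exact ha
          · exact hv.1 x hx
        · have := hv.2.1
          simpa using this
        · show (a :: v).sum = rem
          rw [List.sum_cons, hv.2.2]; omega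
      have disj : ∀ a b : ℕ, a ≠ b → ∀ s t : Set (List ℕ),
          Disjoint ((fun v : List ℕ => a :: v) '' s) ((fun v : List ℕ => b :: v) '' t) := by
        intro a b hab s t
        rw [Set.disjoint_left]
        rintro _ ⟨v, _, rfl⟩ ⟨v', _, h⟩
        simp only [List.cons.injEq] at h
        exact hab h.1.symm
    · -- all three
      have c2 := ih (rem - 2) (w ++ [2]) F (2 * R) (hw1 2 (by omega))
        (TC_append ht (Or.inl (by omega))) (Inv_other hI (by omega))
      rw [← hlen] at c2
      have c3 := ih (rem - 3) (w ++ [3]) F (2 * R) (hw1 3 (by omega))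
        (TC_append ht (Or.inr (Inv_free hI h4))) (Inv_other hI (by omega))
      rw [← hlen] at c3
      have u1 := Set.ncard_union_eq (disj 1 2 (by omega) (EX (w ++ [1]) (rem - 1))
        (EX (w ++ [2]) (rem - 2))) ((EX_finite (hw1 1 (by omega)) _).image _)
        ((EX_finite (hw1 2 (by omega)) _).image _)
      have u2 := Set.ncard_union_eq (s := ((fun v : List ℕ => 1 :: v) '' (EX (w ++ [1]) (rem - 1)) ∪
        (fun v : List ℕ => 2 :: v) '' (EX (w ++ [2]) (rem - 2))))
        (t := (fun v : List ℕ => 3 :: v) '' (EX (w ++ [3]) (rem - 3)))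
        (by rw [Set.disjoint_union_left]; exact ⟨disj 1 3 (by omega) _ _, disj 2 3 (by omega) _ _⟩)
        (((EX_finite (hw1 1 (by omega)) _).image _).union ((EX_finite (hw1 2 (by omega)) _).image _))
        ((EX_finite (hw1 3 (by omega)) _).image _)
      rw [u1, Set.ncard_image_of_injective _ (hcons 1), Set.ncard_image_of_injective _ (hcons 2),
        Set.ncard_image_of_injective _ (hcons 3)] at u2
      have := Set.ncard_le_ncard (Set.union_subset (Set.union_subset
        (sub 1 (by omega) (by omega)) (sub 2 (by omega) (by omega)))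
        (sub 3 (by omega) (by omega))) (EX_finite hw rem)
      omega
    all_goals first
      | (have c2 := ih (rem - 2) (w ++ [2]) F (2 * R) (hw1 2 (by omega))
          (TC_append ht (Or.inl (by omega))) (Inv_other hI (by omega))
         rw [← hlen] at c2
         have u1 := Set.ncard_union_eq (disj 1 2 (by omega) (EX (w ++ [1]) (rem - 1))
            (EX (w ++ [2]) (rem - 2))) ((EX_finite (hw1 1 (by omega)) _).image _)
            ((EX_finite (hw1 2 (by omega)) _).image _)
         rw [Set.ncard_image_of_injective _ (hcons 1),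
            Set.ncard_image_of_injective _ (hcons 2)] at u1
         have := Set.ncard_le_ncard (Set.union_subset
            (sub 1 (by omega) (by omega)) (sub 2 (by omega) (by omega))) (EX_finite hw rem)
         omega)
      | (have := Set.ncard_le_ncard (sub 1 (by omega) (by omega)) (EX_finite hw rem)
         rw [Set.ncard_image_of_injective _ (hcons 1)] at this
         omega)

theorem TW_ge (g : ℕ) : dfs g g 0 0 1 ≤ (TW g).ncard := by
  have h := dfs_le g g [] 0 0 (by simp) (by intro i j hi; simp at hi) (by intro k hk; simp at hk)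
  have e : EX [] g = TW g := by
    ext v
    simp [EX, TW]
  rw [e] at h
  exact h

end Pool.Agent.H502R2
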