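import Pool.Agent.H502R2.Analytic
import Pool.Agent.H502R2.TWords

/-!
Coefficient bounds from the value at `5/8`.
-/

namespace Pool.Agent.H502R2

open Finset Polynomial

/-! pairs of large letters -/

theorem inner_le (L c n : ℕ) :
    (3 / 8 : ℚ) * (∑ d ∈ range n, if L ≤ c + d + 2 then (5 / 8 : ℚ) ^ (c + d + 2) else 0) +
      (5 / 8) ^ (max L (c + n + 2)) ≤ (5 / 8) ^ L := by
  induction n with
  | zero =>
    simp only [Finset.range_zero, Finset.sum_empty, mul_zero, zero_add]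
    exact pow_le_pow_of_le_one (by norm_num) (by norm_num) (le_max_left _ _)
  | succ n ih =>
    rw [Finset.sum_range_succ]
    split_ifs with h
    · rw [max_eq_right h] at ih
      have e : (5 / 8 : ℚ) ^ (c + n + 2 + 1) = (5 / 8) ^ (c + n + 2) * (5 / 8) := pow_succ _ _
      rw [max_eq_right (by omega : L ≤ c + (n + 1) + 2), show c + (n + 1) + 2 = c + n + 2 + 1 by ring,
        e]
      linarith
    · rw [max_eq_left (by omega)] at ih
      rw [max_eq_left (by omega)]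
      linarith

theorem Pz_le (L : ℕ) : Pp L (5 / 8 : ℚ) (zr L) ≤ 8 / 3 * (L * (5 / 8) ^ L) := by
  have h : ∀ c, (∑ d ∈ range L, if zr L c d = true then (5 / 8 : ℚ) ^ (c + d + 2) else 0) ≤
      8 / 3 * (5 / 8) ^ L := by
    intro c
    have h1 := inner_le L c L
    have h2 : (∑ d ∈ range L, if zr L c d = true then (5 / 8 : ℚ) ^ (c + d + 2) else 0) =
      ∑ d ∈ range L, if L ≤ c + d + 2 then (5 / 8 : ℚ) ^ (c + d + 2) else 0 := by
      refine Finset.sum_congr rfl fun d _ => ?_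
      simp [zr]
    rw [h2]
    have h3 : (0 : ℚ) ≤ (5 / 8) ^ (max L (c + L + 2)) := by positivity
    linarith
  rw [Pp, Finset.sum_product]
  calc _ ≤ ∑ c ∈ range L, 8 / 3 * (5 / 8 : ℚ) ^ L := Finset.sum_le_sum fun c _ => h c
    _ = 8 / 3 * (L * (5 / 8) ^ L) := by
      rw [Finset.sum_const, Finset.card_range, nsmul_eq_mul]; ring

theorem Lx_anti (m : ℕ) (hm : 2 ≤ m) (n : ℕ) :
    ((m + n : ℕ) : ℚ) * (5 / 8) ^ (m + n) ≤ m * (5 / 8) ^ m := by
  induction n with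
  | zero => simp
  | succ n ih =>
    refine le_trans ?_ ih
    rw [show m + (n + 1) = m + n + 1 by ring, pow_succ]
    push_cast
    have h0 : (0 : ℚ) ≤ (5 / 8) ^ (m + n) := by positivity
    have h1 : (2 : ℚ) ≤ m := by exact_mod_cast hm
    have h2 : (0 : ℚ) ≤ n := by positivity
    nlinarith

theorem Pz14 (L : ℕ) (hL : 14 ≤ L) : Pp L (5 / 8 : ℚ) (zr L) ≤ 52 / 1000 := by
  obtain ⟨n, rfl⟩ := Nat.exists_eq_add_of_le hL
  have h1 := Pz_le (14 + n)
  have h2 := Lx_anti 14 (by omega) n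
  have h3 : (8 / 3 : ℚ) * ((14 : ℕ) * (5 / 8) ^ 14) ≤ 52 / 1000 := by norm_num
  linarith

theorem Pz6 (L : ℕ) (hL : 6 ≤ L) : Pp L (5 / 8 : ℚ) (zr L) ≤ 7385 / 10000 := by
  rcases Nat.eq_or_lt_of_le hL with h | h
  · subst h
    exact pp1 (l := [0, 0, 0, 0, 0, 0, 5, 6, 5, 4, 3, 2, 1]) (by decide +kernel) (by norm_num [ev])
  · obtain ⟨n, rfl⟩ := Nat.exists_eq_add_of_le (Nat.succ_le_of_lt h)
    have h1 := Pz_le (7 + n)
    have h2 := Lx_anti 7 (by omega) n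
    have h3 : (8 / 3 : ℚ) * ((7 : ℕ) * (5 / 8) ^ 7) ≤ 7385 / 10000 := by norm_num
    exact h1.trans (by linarith)

theorem Pz5 : Pp 5 (5 / 8 : ℚ) (zr 5) ≤ 9366 / 10000 :=
  pp1 (l := [0, 0, 0, 0, 0, 4, 5, 4, 3, 2, 1]) (by decide +kernel) (by norm_num [ev])

theorem Cz_le (L : ℕ) (hL : 5 ≤ L) : Cn L (5 / 8 : ℚ) (zc L) ≤ 1 := by
  have h : ∀ n, (3 / 8 : ℚ) * (∑ k ∈ range n, if zc L k = true then (5 / 8 : ℚ) ^ (k + 1) else 0) +
      (5 / 8) ^ (max 2 n + 1) ≤ (5 / 8) ^ 3 := by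
    intro n
    induction n with
    | zero => norm_num
    | succ n ih =>
      rw [Finset.sum_range_succ]
      rcases Nat.lt_or_ge n 2 with h | h
      · have h1 : ¬ (zc L n = true) := by simp [zc]; omega
        rw [if_neg h1, max_eq_left (by omega)]
        rw [max_eq_left (by omega)] at ih
        linarith
      · rw [max_eq_right h] at ih
        have e : (5 / 8 : ℚ) ^ (n + 1 + 1) = (5 / 8) ^ (n + 1) * (5 / 8) := pow_succ _ _
        rw [max_eq_right (by omega), e]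
        have h0 : (0 : ℚ) ≤ (5 / 8) ^ (n + 1) := by positivity
        split_ifs <;> linarith
  have h1 := h L
  have h2 : (0 : ℚ) ≤ (5 / 8) ^ (max 2 L + 1) := by positivity
  rw [Cn]
  norm_num at h1 ⊢
  linarith

theorem rr_sum {L : ℕ} {p : ℚ} (hP : Pp L (5 / 8 : ℚ) (zr L) ≤ p) (hp : p < 1)
    (hC : Cn L (5 / 8 : ℚ) (zc L) ≤ 1) (n : ℕ) :
    ∑ k ∈ range n, rr L (5 / 8 : ℚ) k ≤ 2 / (1 - p) := by
  have hp0 : 0 ≤ p := (Pp_nn _ _).trans hP
  refine (Finset.sum_le_sum fun k _ => ?_).trans (gs_half hp0 hp n)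
  rw [rr]
  calc Pp L (5 / 8 : ℚ) (zr L) ^ (k / 2) * Cn L (5 / 8 : ℚ) (zc L) ^ (k % 2)
      ≤ p ^ (k / 2) * 1 := mul_le_mul (pow_le_pow_left₀ (Pp_nn _ _) hP _)
        (pow_le_one₀ (Cn_nn _ _) hC) (pow_nonneg (Cn_nn _ _) _) (by positivity)
    _ = p ^ (k / 2) := mul_one _

theorem rr_nn (L n : ℕ) : 0 ≤ rr L (5 / 8 : ℚ) n :=
  mul_nonneg (pow_nonneg (Pp_nn _ _) _) (pow_nonneg (Cn_nn _ _) _)

theorem Vq_le {q : ℕ} {p p' : ℚ} (hq : 6 ≤ q) (hP : Pp q (5 / 8 : ℚ) (zr q) ≤ p) (hp : p < 1)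
    (hP' : Pp (q - 1) (5 / 8 : ℚ) (zr (q - 1)) ≤ p') (hp' : p' < 1) (G : ℕ) :
    Vq q (5 / 8 : ℚ) G ≤ (5 / 8) ^ q * (2 / (1 - p) * (2 / (1 - p'))) := by
  have t1 : 0 < 1 - p := by linarith
  rw [Vq]
  refine mul_le_mul_of_nonneg_left ?_ (by positivity)
  exact mul_le_mul (rr_sum hP hp (Cz_le q (by omega)) _)
    (rr_sum hP' hp' (Cz_le (q - 1) (by omega)) _) (Finset.sum_nonneg fun _ _ => rr_nn _ _)
    (by positivity)

theorem Vq_nn (q G : ℕ) : 0 ≤ Vq q (5 / 8 : ℚ) G := by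
  rw [Vq]
  exact mul_nonneg (by positivity) (mul_nonneg (Finset.sum_nonneg fun _ _ => rr_nn _ _)
    (Finset.sum_nonneg fun _ _ => rr_nn _ _))

theorem geo_Icc (m G : ℕ) : ∑ q ∈ Icc m G, (5 / 8 : ℚ) ^ q ≤ 8 / 3 * (5 / 8) ^ m := by
  have h : ∀ n, (3 / 8 : ℚ) * ∑ q ∈ Ico m (m + n), (5 / 8 : ℚ) ^ q + (5 / 8) ^ (m + n) =
      (5 / 8) ^ m := by
    intro n
    induction n with
    | zero => simp
    | succ n ih =>
      rw [← Nat.add_assoc, Finset.sum_Ico_succ_top (by omega), ← ih, pow_succ]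
      ring
  have h1 : ∑ q ∈ Icc m G, (5 / 8 : ℚ) ^ q ≤ ∑ q ∈ Ico m (m + (G + 1)), (5 / 8 : ℚ) ^ q :=
    Finset.sum_le_sum_of_subset_of_nonneg
      (fun q hq => by rw [Finset.mem_Icc] at hq; rw [Finset.mem_Ico]; omega)
      fun _ _ _ => by positivity
  have h2 := h (G + 1)
  have h3 : (0 : ℚ) ≤ (5 / 8) ^ (m + (G + 1)) := by positivity
  linarith

theorem V15 (G : ℕ) : ∑ q ∈ Icc 15 G, Vq q (5 / 8 : ℚ) G ≤ 103 / 10000 := by
  have h : ∀ q ∈ Icc 15 G, Vq q (5 / 8 : ℚ) G ≤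
      (5 / 8) ^ q * (2 / (1 - 52 / 1000) * (2 / (1 - 52 / 1000))) := by
    intro q hq
    rw [Finset.mem_Icc] at hq
    exact Vq_le (by omega) (Pz14 q (by omega)) (by norm_num) (Pz14 (q - 1) (by omega))
      (by norm_num) G
  refine (Finset.sum_le_sum h).trans ?_
  rw [← Finset.sum_mul]
  have := geo_Icc 15 G
  have h2 : (0 : ℚ) ≤ (2 / (1 - 52 / 1000) * (2 / (1 - 52 / 1000))) := by norm_num
  have h3 := mul_le_mul_of_nonneg_right this h2
  refine h3.trans ?_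
  norm_num

theorem V6 (G : ℕ) : ∑ q ∈ Icc 6 G, Vq q (5 / 8 : ℚ) G ≤ 21 := by
  have h6 : Vq 6 (5 / 8 : ℚ) G ≤ (5 / 8) ^ 6 * (2 / (1 - 7385 / 10000) * (2 / (1 - 9366 / 10000))) :=
    Vq_le le_rfl (Pz6 6 le_rfl) (by norm_num) Pz5 (by norm_num) G
  have h7 : ∑ q ∈ Icc 7 G, Vq q (5 / 8 : ℚ) G ≤ 8 / 3 * (5 / 8) ^ 7 *
      (2 / (1 - 7385 / 10000) * (2 / (1 - 7385 / 10000))) := by
    have h : ∀ q ∈ Icc 7 G, Vq q (5 / 8 : ℚ) G ≤
        (5 / 8) ^ q * (2 / (1 - 7385 / 10000) * (2 / (1 - 7385 / 10000))) := by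
      intro q hq
      rw [Finset.mem_Icc] at hq
      exact Vq_le (by omega) (Pz6 q (by omega)) (by norm_num) (Pz6 (q - 1) (by omega))
        (by norm_num) G
    refine (Finset.sum_le_sum h).trans ?_
    rw [← Finset.sum_mul]
    exact mul_le_mul_of_nonneg_right (geo_Icc 7 G) (by norm_num)
  have h8 : ∑ q ∈ Icc 6 G, Vq q (5 / 8 : ℚ) G ≤ Vq 6 (5 / 8 : ℚ) G +
      ∑ q ∈ Icc 7 G, Vq q (5 / 8 : ℚ) G := by
    have hs : Icc 6 G ⊆ insert 6 (Icc 7 G) := by
      intro q hq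
      rw [Finset.mem_Icc] at hq
      rw [Finset.mem_insert, Finset.mem_Icc]
      omega
    refine (Finset.sum_le_sum_of_subset_of_nonneg hs fun _ _ _ => Vq_nn _ _).trans ?_
    rw [Finset.sum_insert (by rw [Finset.mem_Icc]; omega)]
  have : (5 / 8 : ℚ) ^ 6 * (2 / (1 - 7385 / 10000) * (2 / (1 - 9366 / 10000))) +
    8 / 3 * (5 / 8) ^ 7 * (2 / (1 - 7385 / 10000) * (2 / (1 - 7385 / 10000))) ≤ 21 := by norm_num
  linarith

theorem U4 (G : ℕ) : Uq 4 (5 / 8 : ℚ) G ≤ 2675 := by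
  refine (Uq_le bd4 (by norm_num) (by norm_num) (by norm_num) (by norm_num) (by norm_num)
    (by norm_num) (by norm_num) (by norm_num) (by norm_num) (by norm_num) (by norm_num)
    (by norm_num) (by norm_num) (by norm_num) (by norm_num) G).trans ?_
  norm_num

theorem U5 (G : ℕ) : Uq 5 (5 / 8 : ℚ) G ≤ 176 := by
  refine (Uq_le bd5 (by norm_num) (by norm_num) (by norm_num) (by norm_num) (by norm_num)
    (by norm_num) (by norm_num) (by norm_num) (by norm_num) (by norm_num) (by norm_num)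
    (by norm_num) (by norm_num) (by norm_num) (by norm_num) G).trans ?_
  norm_num

theorem Utot (G : ℕ) : Uq 4 (5 / 8 : ℚ) G + Uq 5 (5 / 8 : ℚ) G +
    ∑ q ∈ Icc 6 G, Vq q (5 / 8 : ℚ) G ≤ 2872 := by
  have h1 := U4 G
  have h2 := U5 G
  have h3 := V6 G
  linarith

/-! homomorphisms -/

section maps
variable {R S : Type*} [CommSemiring R] [CommSemiring S] (f : R →+* S)

theorem map_TT (L : ℕ) (x : R) (V : ℕ → ℕ → R) (p r : ℕ) :
    f (TT L x V p r) = TT L (f x) (fun a b => f (V a b)) p r := by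
  rw [TT, TT, map_sum]
  refine Finset.sum_congr rfl fun c _ => ?_
  split_ifs
  · rw [map_mul, map_pow]
  · exact map_zero f

theorem map_HH (L : ℕ) (x : R) (X : ℕ → Bool) (V : ℕ → ℕ → R) :
    f (HH L x X V) = HH L (f x) X (fun a b => f (V a b)) := by
  rw [HH, HH, map_sum]
  refine Finset.sum_congr rfl fun c _ => ?_
  split_ifs
  · rw [map_mul, map_pow]
  · exact map_zero f

theorem map_VC (Y : ℕ → Bool) : (fun a b => f ((VC Y : ℕ → ℕ → R) a b)) = VC Y := by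
  funext a b
  rw [VC, VC]; split_ifs
  · exact map_one f
  · exact map_zero f

theorem map_VE : (fun a b => f ((VE : ℕ → ℕ → R) a b)) = VE := by
  funext a b
  rw [VE, VE]; split_ifs
  · exact map_one f
  · exact map_zero f

theorem map_VO (L : ℕ) (x : R) : (fun a b => f ((VO L x : ℕ → ℕ → R) a b)) = VO L (f x) := by
  funext a b
  rw [VO, VO, map_sum]
  refine Finset.sum_congr rfl fun c _ => ?_
  split_ifs
  · exact map_pow f _ _
  · exact map_zero f

theorem map_It (L : ℕ) (x : R) (V : ℕ → ℕ → R) (n : ℕ) :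
    (fun a b => f (It L x V n a b)) = It L (f x) (fun a b => f (V a b)) n := by
  induction n with
  | zero => rfl
  | succ n ih =>
    funext a b
    rw [It, map_TT, ih]; rfl

theorem map_DIt (L : ℕ) (x : R) (n : ℕ) :
    (fun a b => f (DIt L x n a b)) = DIt L (f x) n := by
  induction n using Nat.twoStepInduction with
  | zero => exact map_VE f
  | one => exact map_VO f L x
  | more n ih _ =>
    funext a b
    rw [DIt, map_TT, ih]; rfl

theorem map_Cp (L : ℕ) (x : R) (X Y : ℕ → Bool) (n : ℕ) :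
    f (Cp L x X Y n) = Cp L (f x) X Y n := by
  cases n with
  | zero => exact map_one f
  | succ n => rw [Cp, map_HH, map_It, map_VC]; rfl

theorem map_Dp (L : ℕ) (x : R) (X : ℕ → Bool) (n : ℕ) : f (Dp L x X n) = Dp L (f x) X n := by
  match n with
  | 0 => exact map_one f
  | 1 =>
    rw [Dp, Dp, map_sum]
    refine Finset.sum_congr rfl fun c _ => ?_
    split_ifs
    · exact map_pow f _ _
    · exact map_zero f
  | n + 2 => rw [Dp, map_HH, map_DIt]; rfl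

theorem map_Grp (L : ℕ) (x : R) (X : ℕ → Bool) (a s : ℕ) :
    f (Grp L x X a s) = Grp L (f x) X a s := by
  rw [Grp, map_mul, map_pow, map_pow, map_Cp, map_Dp]; rfl

theorem map_GrpS (L : ℕ) (x : R) (X Z : ℕ → Bool) (a s : ℕ) :
    f (GrpS L x X Z a s) = GrpS L (f x) X Z a s := by
  match s with
  | 0 => exact map_one f
  | 1 => exact map_Dp f _ _ _ _
  | s + 2 => rw [GrpS, map_mul, map_Cp, map_Grp]; rfl

theorem map_Pp (L : ℕ) (x : R) (Z : ℕ → ℕ → Bool) : f (Pp L x Z) = Pp L (f x) Z := by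
  rw [Pp, Pp, map_sum]
  refine Finset.sum_congr rfl fun c _ => ?_
  split_ifs
  · exact map_pow f _ _
  · exact map_zero f

theorem map_Cn (L : ℕ) (x : R) (Z : ℕ → Bool) : f (Cn L x Z) = Cn L (f x) Z := by
  rw [Cn, Cn, map_sum]
  refine Finset.sum_congr rfl fun c _ => ?_
  split_ifs
  · exact map_pow f _ _
  · exact map_zero f

theorem map_rr (L : ℕ) (x : R) (N : ℕ) : f (rr L x N) = rr L (f x) N := by
  rw [rr, map_mul, map_pow, map_pow, map_Pp, map_Cn]; rfl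
theorem map_yy (L : ℕ) (x : R) (N : ℕ) : f (yy L x N) = yy L (f x) N := by
  rw [yy, map_mul, map_pow, map_pow, map_Pp, map_Cn]; rfl
theorem map_ww (L : ℕ) (x : R) (N : ℕ) : f (ww L x N) = ww L (f x) N := by
  rw [ww, map_mul, map_pow, map_pow, map_Pp, map_Cn]; rfl

theorem map_Fg (L : ℕ) (x : R) (a d : ℕ) : f (Fg L x a d) = Fg L (f x) a d := by
  rw [Fg, Fg, map_sum]
  exact Finset.sum_congr rfl fun c _ => by rw [map_mul, map_Grp, map_Grp]
theorem map_Fa (L : ℕ) (x : R) (a d : ℕ) : f (Fa L x a d) = Fa L (f x) a d := by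
  rw [Fa, Fa, map_sum]
  exact Finset.sum_congr rfl fun c _ => by rw [map_mul, map_Grp, map_GrpS]

theorem map_Sg (L : ℕ) (x : R) (A d : ℕ) : f (Sg L x A d) = Sg L (f x) A d := by
  rw [Sg, Sg, map_sum]
  refine Finset.sum_congr rfl fun c _ => ?_
  split_ifs
  · exact map_Fg f _ _ _ _
  · exact map_zero f
theorem map_Sa (L : ℕ) (x : R) (A d : ℕ) : f (Sa L x A d) = Sa L (f x) A d := by
  rw [Sa, Sa, map_sum]
  refine Finset.sum_congr rfl fun c _ => ?_
  split_ifs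
  · exact map_Fa f _ _ _ _
  · exact map_zero f

theorem map_BB (q : ℕ) (x : R) (d : ℕ) : f (BB q x d) = BB q (f x) d := by
  rw [BB, BB, map_sum]
  exact Finset.sum_congr rfl fun c _ => by rw [map_mul, map_pow, map_yy, map_Pp]

theorem map_Uq (q : ℕ) (x : R) (G : ℕ) : f (Uq q x G) = Uq q (f x) G := by
  simp only [Uq, map_mul, map_add, map_sum, map_pow, map_Sa, map_Sg, map_BB, map_Pp, map_yy,
    map_ww]

theorem map_Vq (q : ℕ) (x : R) (G : ℕ) : f (Vq q x G) = Vq q (f x) G := by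
  simp only [Vq, map_mul, map_sum, map_pow, map_rr]

end maps

/-- evaluation at `5/8` -/
noncomputable def E58 : ℕ[X] →+* ℚ := Polynomial.eval₂RingHom (Nat.castRingHom ℚ) (5 / 8)

theorem E58_X : E58 X = 5 / 8 := by simp [E58]

theorem coeff_le (P : ℕ[X]) (g : ℕ) : (P.coeff g : ℚ) * (5 / 8) ^ g ≤ E58 P := by
  have h : E58 P = ∑ i ∈ range (P.natDegree + 1), (P.coeff i : ℚ) * (5 / 8) ^ i := by
    show Polynomial.eval₂ (Nat.castRingHom ℚ) (5 / 8) P = _
    rw [Polynomial.eval₂_eq_sum_range]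
    rfl
  rw [h]
  rcases Nat.lt_or_ge g (P.natDegree + 1) with h1 | h1
  · exact Finset.single_le_sum (f := fun i => (P.coeff i : ℚ) * (5 / 8) ^ i)
      (fun i _ => by positivity) (Finset.mem_range.mpr h1)
  · rw [Polynomial.coeff_eq_zero_of_natDegree_lt (by omega)]
    simp only [Nat.cast_zero, zero_mul]
    exact Finset.sum_nonneg fun i _ => by positivity

theorem Ut_coeff_le (G g : ℕ) : ((Ut G).coeff g : ℚ) * (5 / 8) ^ g ≤ 2872 := by
  refine (coeff_le _ g).trans ?_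
  rw [Ut, map_add, map_add, map_sum, map_Uq, map_Uq, E58_X]
  simp only [map_Vq, E58_X]
  exact Utot G

/-- the part computed exactly -/
noncomputable def Pm (G : ℕ) : ℕ[X] := Uq 4 X G + Uq 5 X G + ∑ q ∈ Icc 6 14, Vq q X G

/-- the remaining part -/
noncomputable def Rm (G : ℕ) : ℕ[X] := ∑ q ∈ Icc 15 G, Vq q X G

theorem Ut_split (G : ℕ) (hG : 14 ≤ G) : Ut G = Pm G + Rm G := by
  rw [Ut, Pm, Rm, add_assoc (Uq 4 X G + Uq 5 X G)]
  congr 1
  have : Icc 6 G = Icc 6 14 ∪ Icc 15 G := by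
    ext q
    simp only [Finset.mem_Icc, Finset.mem_union]
    omega
  rw [this, Finset.sum_union]
  rw [Finset.disjoint_left]
  intro q h1 h2
  rw [Finset.mem_Icc] at h1 h2
  omega

theorem Rm_coeff_le (G g : ℕ) : ((Rm G).coeff g : ℚ) * (5 / 8) ^ g ≤ 103 / 10000 := by
  refine (coeff_le _ g).trans ?_
  rw [Rm, map_sum]
  simp only [map_Vq, E58_X]
  exact V15 G

theorem Pm_coeff_le (G g : ℕ) (hG : 14 ≤ G) : ((Pm G).coeff g : ℚ) * (5 / 8) ^ g ≤ 2872 := by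
  have h := Ut_coeff_le G g
  rw [Ut_split G hG, Polynomial.coeff_add] at h
  push_cast at h
  have : (0 : ℚ) ≤ ((Rm G).coeff g : ℚ) * (5 / 8) ^ g := by positivity
  linarith

end Pool.Agent.H502R2
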