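import Pool.Agent.H502R2.Semi

/-!
Upper bound for the number of numerical semigroups of depth at least four.
-/

namespace Pool.Agent.H502R2

open Polynomial Finset

theorem card_le_coeff {α : Type*} {T : Finset α} {g q R N : ℕ} {U : Finset (Fin R → ℕ)}
    {V : Finset (Fin N → ℕ)} (u : α → Fin R → ℕ) (v : α → Fin N → ℕ)
    (hu : ∀ a ∈ T, u a ∈ U) (hv : ∀ a ∈ T, v a ∈ V)
    (hw : ∀ a ∈ T, g = q + (wt (u a) + wt (v a)))
    (hinj : Set.InjOn (fun a => (u a, v a)) T) :
    T.card ≤ (X ^ q * (GF U wt * GF V wt) : ℕ[X]).coeff g := by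
  have h := GF_shift (S := T) (T := U ×ˢ V) (w := fun _ => g)
    (w' := fun p => wt p.1 + wt p.2) q (fun a => (u a, v a))
    (fun a ha => Finset.mem_product.mpr ⟨hu a ha, hv a ha⟩) hinj hw g
  rw [GF_prod, GF_coeff] at h
  simpa using h

/-- the shape of a semigroup : maximal Kunz coordinate `q`, last attained at `R + 1` -/
def Shape (S : AddSubmonoid ℕ) (q R N : ℕ) : Prop :=
  mul S = R + N + 2 ∧ kz S (R + 1) = q ∧ (∀ i, i ≤ R → kz S i ≤ q) ∧
    ∀ i, R + 1 < i → i < mul S → kz S i < q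

/-- left word -/
noncomputable def uw (S : AddSubmonoid ℕ) (R : ℕ) : Fin R → ℕ := fun i => kz S (i + 1) - 1
/-- right word -/
noncomputable def vw (S : AddSubmonoid ℕ) (R N : ℕ) : Fin N → ℕ := fun i => kz S (R + 2 + i) - 1

section shape
variable {S : AddSubmonoid ℕ} {g q R N : ℕ}

theorem uw_add (hS : S ∈ SG g) (h : Shape S q R N) (i : Fin R) : uw S R i + 1 = kz S (i + 1) := by
  have := kz_pos hS (i := i + 1) (by omega) (by rw [h.1]; omega)
  rw [uw]; omega

theorem vw_add (hS : S ∈ SG g) (h : Shape S q R N) (i : Fin N) :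
    vw S R N i + 1 = kz S (R + 2 + i) := by
  have := kz_pos hS (i := R + 2 + i) (by omega) (by rw [h.1]; omega)
  rw [vw]; omega

theorem uw_lt (hS : S ∈ SG g) (h : Shape S q R N) (i : Fin R) : uw S R i < q := by
  have h1 := uw_add hS h i
  have h2 := h.2.2.1 (i + 1) (by omega)
  omega

theorem vw_lt (hS : S ∈ SG g) (h : Shape S q R N) (i : Fin N) : vw S R N i < q - 1 := by
  have h1 := vw_add hS h i
  have h2 := h.2.2.2 (R + 2 + i) (by omega) (by rw [h.1]; omega)
  omega

theorem uw_refl (hS : S ∈ SG g) (h : Shape S q R N) (i : Fin R) :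
    q ≤ uw S R i + uw S R (Fin.rev i) + 2 := by
  have h1 := uw_add hS h i
  have h2 := uw_add hS h (Fin.rev i)
  have h3 := kz_add hS (i + 1) (Fin.rev i + 1)
  have h4 : (i : ℕ) + 1 + ((Fin.rev i : Fin R) + 1) = R + 1 := by
    rw [Fin.val_rev]; omega
  rw [h4, h.2.1] at h3
  omega

theorem vw_refl (hS : S ∈ SG g) (h : Shape S q R N) (i : Fin N) :
    q - 1 ≤ vw S R N i + vw S R N (Fin.rev i) + 2 := by
  have h1 := vw_add hS h i
  have h2 := vw_add hS h (Fin.rev i)
  have h3 := kz_add_wrap hS (i := R + 2 + i) (j := R + 2 + (Fin.rev i : Fin N)) (l := R + 1) (by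
    rw [h.1, Fin.val_rev]; omega)
  rw [h.2.1] at h3
  omega

theorem uw_chain (hS : S ∈ SG g) (h : Shape S q R N) {d : ℕ} (hd : kz S d = 1) (i j : Fin R)
    (hij : (j : ℕ) = i + d) : uw S R j ≤ uw S R i + 1 := by
  have h1 := uw_add hS h i
  have h2 := uw_add hS h j
  have h3 := kz_add hS (i + 1) d
  have h4 : (i : ℕ) + 1 + d = j + 1 := by omega
  rw [h4, hd] at h3
  omega

theorem vw_chain (hS : S ∈ SG g) (h : Shape S q R N) {d : ℕ} (hd : kz S d = 1) (i j : Fin N)
    (hij : (j : ℕ) = i + d) : vw S R N j ≤ vw S R N i + 1 := by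
  have h1 := vw_add hS h i
  have h2 := vw_add hS h j
  have h3 := kz_add hS (R + 2 + i) d
  have h4 : R + 2 + (i : ℕ) + d = R + 2 + j := by omega
  rw [h4, hd] at h3
  omega

theorem shape_sum (hS : S ∈ SG g) (h : Shape S q R N) :
    g = q + (wt (uw S R) + wt (vw S R N)) := by
  have h1 := kz_sum hS
  rw [h.1] at h1
  have e1 : R + N + 2 = (1 + R + 1) + N := by ring
  rw [e1, Finset.sum_range_add, Finset.sum_range_succ, Finset.sum_range_add,
    Finset.sum_range_one, kz_zero hS] at h1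
  have e2 : 1 + R = R + 1 := by ring
  rw [e2, h.2.1] at h1
  have e3 : ∑ x ∈ range R, kz S (1 + x) = wt (uw S R) := by
    rw [wt, Finset.sum_range]
    refine Finset.sum_congr rfl fun i _ => ?_
    rw [uw_add hS h i, add_comm]
  have e4 : ∑ x ∈ range N, kz S (R + 1 + 1 + x) = wt (vw S R N) := by
    rw [wt, Finset.sum_range]
    refine Finset.sum_congr rfl fun i _ => ?_
    rw [vw_add hS h i]
  rw [e3, e4] at h1
  omega

theorem shape_inj {S' : AddSubmonoid ℕ} (hS : S ∈ SG g) (h : Shape S q R N) (hS' : S' ∈ SG g)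
    (h' : Shape S' q R N) (e1 : uw S R = uw S' R) (e2 : vw S R N = vw S' R N) : S = S' := by
  refine ext_kz hS hS' (h.1.trans h'.1.symm) fun i hi => ?_
  rw [h.1] at hi
  rcases Nat.eq_zero_or_pos i with h0 | h0
  · rw [h0, kz_zero hS, kz_zero hS']
  · rcases Nat.lt_trichotomy i (R + 1) with h1 | h1 | h1
    · obtain ⟨j, rfl⟩ : ∃ j, i = j + 1 := ⟨i - 1, by omega⟩
      have a1 := uw_add hS h ⟨j, by omega⟩
      have a2 := uw_add hS' h' ⟨j, by omega⟩
      have a3 := congrFun e1 ⟨j, by omega⟩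
      simp only at a1 a2
      rw [← a1, ← a2, a3]
    · rw [h1, h.2.1, h'.2.1]
    · obtain ⟨j, rfl⟩ : ∃ j, i = R + 2 + j := ⟨i - (R + 2), by omega⟩
      have a1 := vw_add hS h ⟨j, by omega⟩
      have a2 := vw_add hS' h' ⟨j, by omega⟩
      have a3 := congrFun e2 ⟨j, by omega⟩
      simp only at a1 a2
      rw [← a1, ← a2, a3]

theorem refl_wt {L n : ℕ} (w : Fin n → ℕ) (h : ∀ i, L ≤ w i + w (Fin.rev i) + 2) :
    L * n ≤ 2 * wt w := by
  have h1 : ∑ i : Fin n, L ≤ ∑ i, (w i + w (Fin.rev i) + 2) := Finset.sum_le_sum fun i _ => h i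
  have h2 : ∑ i : Fin n, w (Fin.rev i) = ∑ i, w i := Equiv.sum_comp Fin.revPerm w
  have h3 : wt w = ∑ i, w i + n := by
    rw [wt, Finset.sum_add_distrib]; simp
  rw [Finset.sum_add_distrib, Finset.sum_add_distrib, h2] at h1
  simp at h1
  rw [h3]
  nlinarith

theorem shape_R (hS : S ∈ SG g) (h : Shape S q R N) : q * R ≤ 2 * wt (uw S R) :=
  refl_wt _ (uw_refl hS h)

theorem shape_N (hS : S ∈ SG g) (h : Shape S q R N) : (q - 1) * N ≤ 2 * wt (vw S R N) :=
  refl_wt _ (vw_refl hS h)

theorem shape_mem (hS : S ∈ SG g) (h : Shape S q R N) (hq : 4 ≤ q) {G : ℕ} (hg : g ≤ G) :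
    R < 2 * G / q + 1 ∧ N < 2 * G / (q - 1) + 1 := by
  have h1 := shape_R hS h
  have h2 := shape_N hS h
  have h3 := shape_sum hS h
  constructor
  · rw [Nat.lt_succ_iff, Nat.le_div_iff_mul_le (by omega)]
    nlinarith
  · rw [Nat.lt_succ_iff, Nat.le_div_iff_mul_le (by omega)]
    nlinarith

end shape

theorem exists_shape {S : AddSubmonoid ℕ} {g : ℕ} (hS : S ∈ SG g)
    (h4 : ∃ i < mul S, 4 ≤ kz S i) : ∃ q R N, 4 ≤ q ∧ q ≤ g ∧ Shape S q R N := by
  classical
  obtain ⟨i0, hi0, h0⟩ := h4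
  -- the maximum
  obtain ⟨i1, hi1, hmax⟩ := Finset.exists_max_image (range (mul S)) (kz S)
    ⟨i0, Finset.mem_range.mpr hi0⟩
  rw [Finset.mem_range] at hi1
  -- last position
  set A := (range (mul S)).filter (fun i => kz S i = kz S i1) with hA
  have hne : A.Nonempty := ⟨i1, by rw [hA, Finset.mem_filter, Finset.mem_range]; exact ⟨hi1, rfl⟩⟩
  set p := A.max' hne with hp
  have hpA : p ∈ A := Finset.max'_mem _ _
  rw [hA, Finset.mem_filter, Finset.mem_range] at hpA
  have hq : 4 ≤ kz S i1 := h0.trans (hmax i0 (Finset.mem_range.mpr hi0))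
  have hp0 : 0 < p := by
    by_contra h
    have : p = 0 := by omega
    rw [this, kz_zero hS] at hpA
    omega
  refine ⟨kz S i1, p - 1, mul S - p - 1, hq, ?_, ?_, ?_, ?_, ?_⟩
  · rw [← kz_sum hS]
    exact Finset.single_le_sum (f := kz S) (fun _ _ => Nat.zero_le _) (Finset.mem_range.mpr hi1)
  · omega
  · have : p - 1 + 1 = p := by omega
    rw [this]; exact hpA.2
  · intro i hi
    exact hmax i (Finset.mem_range.mpr (by omega))
  · intro i hi hi'
    have h1 := hmax i (Finset.mem_range.mpr hi')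
    refine lt_of_le_of_ne h1 fun h2 => ?_
    have : i ∈ A := by rw [hA, Finset.mem_filter, Finset.mem_range]; exact ⟨hi', h2⟩
    have := Finset.le_max' A i this
    omega

open Classical in
/-- semigroups of genus `g` as a finset -/
noncomputable def SF (g : ℕ) : Finset (AddSubmonoid ℕ) := (SG_finite g).toFinset

theorem mem_SF {g : ℕ} {S : AddSubmonoid ℕ} : S ∈ SF g ↔ S ∈ SG g := by
  rw [SF, Set.Finite.mem_toFinset]

open Classical in
/-- case I semigroups -/
noncomputable def A1 (g q : ℕ) (p : ℕ × ℕ × ℕ) : Finset (AddSubmonoid ℕ) :=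
  (SF g).filter fun S => Shape S q p.1 p.2.1 ∧ 1 ≤ p.2.2 ∧ p.2.2 ≤ p.1 ∧ kz S p.2.2 = 1 ∧
    ∀ i, 0 < i → i < p.2.2 → 2 ≤ kz S i

open Classical in
/-- case II semigroups -/
noncomputable def A2 (g q : ℕ) (p : ℕ × ℕ × ℕ) : Finset (AddSubmonoid ℕ) :=
  (SF g).filter fun S => Shape S q p.1 p.2.1 ∧ 1 ≤ p.2.2 ∧ 2 * p.2.2 ≤ p.2.1 ∧
    (∀ i, 0 < i → i ≤ p.1 → 2 ≤ kz S i) ∧ kz S (p.1 + 1 + p.2.2) = 1 ∧
    ∀ i, p.1 + 1 < i → i < p.1 + 1 + p.2.2 → 2 ≤ kz S i

open Classical in
/-- case III semigroups -/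
noncomputable def A3 (g q : ℕ) (p : ℕ × ℕ) : Finset (AddSubmonoid ℕ) :=
  (SF g).filter fun S => Shape S q p.1 p.2 ∧
    (∀ i, 0 < i → i ≤ p.1 → 2 ≤ kz S i) ∧
    ∀ i, 2 * (i + 1) ≤ p.2 → 2 ≤ kz S (p.1 + 2 + i)

open Classical in
/-- all semigroups of a given shape -/
noncomputable def AV (g q : ℕ) (p : ℕ × ℕ) : Finset (AddSubmonoid ℕ) :=
  (SF g).filter fun S => Shape S q p.1 p.2

theorem A1_card (g q : ℕ) (p : ℕ × ℕ × ℕ) :
    (A1 g q p).card ≤ (PI q p.1 p.2.1 p.2.2).coeff g := by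
  classical
  refine card_le_coeff (fun S => uw S p.1) (fun S => vw S p.1 p.2.1) ?_ ?_ ?_ ?_
  · intro S hS
    rw [A1, Finset.mem_filter, mem_SF] at hS
    obtain ⟨hS, hsh, h1, h2, h3, h4⟩ := hS
    rw [mem_RegS]
    refine ⟨uw_lt hS hsh, uw_refl hS hsh, fun i j => uw_chain hS hsh h3 i j, fun i hi => ?_⟩
    have h5 := uw_add hS hsh i
    rw [Za]
    by_cases h6 : (i : ℕ) + 1 = p.2.2
    · rw [if_pos h6]
      rw [h6, h3] at h5
      simp only [e1, decide_eq_true_eq]
      omega
    · rw [if_neg h6]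
      have h7 := h4 (i + 1) (by omega) (by omega)
      simp only [t2, decide_eq_true_eq]
      omega
  · intro S hS
    rw [A1, Finset.mem_filter, mem_SF] at hS
    obtain ⟨hS, hsh, h1, h2, h3, h4⟩ := hS
    rw [mem_RegS]
    exact ⟨vw_lt hS hsh, vw_refl hS hsh, fun i j => vw_chain hS hsh h3 i j, fun i hi => rfl⟩
  · intro S hS
    rw [A1, Finset.mem_filter, mem_SF] at hS
    exact shape_sum hS.1 hS.2.1
  · intro S hS S' hS' h
    simp only [A1, Finset.coe_filter, Set.mem_ofPred_eq, mem_SF] at hS hS'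
    simp only [Prod.mk.injEq] at h
    exact shape_inj hS.1 hS.2.1 hS'.1 hS'.2.1 h.1 h.2

theorem A2_card (g q : ℕ) (p : ℕ × ℕ × ℕ) :
    (A2 g q p).card ≤ (PII q p.1 p.2.1 p.2.2).coeff g := by
  classical
  refine card_le_coeff (fun S => uw S p.1) (fun S => vw S p.1 p.2.1) ?_ ?_ ?_ ?_
  · intro S hS
    rw [A2, Finset.mem_filter, mem_SF] at hS
    obtain ⟨hS, hsh, h1, h2, h3, h4, h5⟩ := hS
    rw [mem_RS]
    have key : ∀ i : Fin p.1, 1 ≤ uw S p.1 i := by
      intro i
      have h6 := uw_add hS hsh i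
      have h7 := h3 (i + 1) (by omega) (by omega)
      omega
    refine ⟨uw_lt hS hsh, fun i hi => ?_, fun i hi => ?_⟩
    · simp only [zr2, decide_eq_true_eq]
      exact ⟨uw_refl hS hsh i, key i, key _⟩
    · simp only [zc2, decide_eq_true_eq]
      refine ⟨?_, key i⟩
      have h6 := uw_refl hS hsh i
      have h7 : Fin.rev i = i := by ext; rw [Fin.val_rev]; omega
      rw [h7] at h6
      omega
  · intro S hS
    rw [A2, Finset.mem_filter, mem_SF] at hS
    obtain ⟨hS, hsh, h1, h2, h3, h4, h5⟩ := hS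
    rw [mem_VS]
    refine ⟨vw_lt hS hsh, vw_refl hS hsh, fun i j => vw_chain hS hsh h4 i j, fun i hi => ?_,
      fun i hi => ?_⟩
    · have h6 := vw_add hS hsh i
      have h7 := h5 (p.1 + 2 + i) (by omega) (by omega)
      omega
    · have h6 := vw_add hS hsh i
      have h7 : p.1 + 2 + (i : ℕ) = p.1 + 1 + p.2.2 := by omega
      rw [h7, h4] at h6
      omega
  · intro S hS
    rw [A2, Finset.mem_filter, mem_SF] at hS
    exact shape_sum hS.1 hS.2.1
  · intro S hS S' hS' h
    simp only [A2, Finset.coe_filter, Set.mem_ofPred_eq, mem_SF] at hS hS'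
    simp only [Prod.mk.injEq] at h
    exact shape_inj hS.1 hS.2.1 hS'.1 hS'.2.1 h.1 h.2

theorem A3_card (g q : ℕ) (p : ℕ × ℕ) :
    (A3 g q p).card ≤ (PIII q p.1 p.2).coeff g := by
  classical
  refine card_le_coeff (fun S => uw S p.1) (fun S => vw S p.1 p.2) ?_ ?_ ?_ ?_
  · intro S hS
    rw [A3, Finset.mem_filter, mem_SF] at hS
    obtain ⟨hS, hsh, h3, h4⟩ := hS
    rw [mem_RS]
    have key : ∀ i : Fin p.1, 1 ≤ uw S p.1 i := by
      intro i
      have h6 := uw_add hS hsh i
      have h7 := h3 (i + 1) (by omega) (by omega)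
      omega
    refine ⟨uw_lt hS hsh, fun i hi => ?_, fun i hi => ?_⟩
    · simp only [zr2, decide_eq_true_eq]
      exact ⟨uw_refl hS hsh i, key i, key _⟩
    · simp only [zc2, decide_eq_true_eq]
      refine ⟨?_, key i⟩
      have h6 := uw_refl hS hsh i
      have h7 : Fin.rev i = i := by ext; rw [Fin.val_rev]; omega
      rw [h7] at h6
      omega
  · intro S hS
    rw [A3, Finset.mem_filter, mem_SF] at hS
    obtain ⟨hS, hsh, h3, h4⟩ := hS
    rw [mem_RS]
    refine ⟨vw_lt hS hsh, fun i hi => ?_, fun i hi => ?_⟩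
    · simp only [zl2, decide_eq_true_eq]
      refine ⟨vw_refl hS hsh i, ?_⟩
      have h6 := vw_add hS hsh i
      have h7 := h4 i hi
      omega
    · simp only [zc, decide_eq_true_eq]
      have h6 := vw_refl hS hsh i
      have h7 : Fin.rev i = i := by ext; rw [Fin.val_rev]; omega
      rw [h7] at h6
      omega
  · intro S hS
    rw [A3, Finset.mem_filter, mem_SF] at hS
    exact shape_sum hS.1 hS.2.1
  · intro S hS S' hS' h
    simp only [A3, Finset.coe_filter, Set.mem_ofPred_eq, mem_SF] at hS hS'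
    simp only [Prod.mk.injEq] at h
    exact shape_inj hS.1 hS.2.1 hS'.1 hS'.2.1 h.1 h.2

theorem AV_card (g q : ℕ) (p : ℕ × ℕ) :
    (AV g q p).card ≤ (PV q p.1 p.2).coeff g := by
  classical
  refine card_le_coeff (fun S => uw S p.1) (fun S => vw S p.1 p.2) ?_ ?_ ?_ ?_
  · intro S hS
    rw [AV, Finset.mem_filter, mem_SF] at hS
    obtain ⟨hS, hsh⟩ := hS
    rw [mem_RS]
    refine ⟨uw_lt hS hsh, fun i hi => ?_, fun i hi => ?_⟩
    · simp only [zr, decide_eq_true_eq]
      exact uw_refl hS hsh i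
    · simp only [zc, decide_eq_true_eq]
      have h6 := uw_refl hS hsh i
      have h7 : Fin.rev i = i := by ext; rw [Fin.val_rev]; omega
      rw [h7] at h6
      omega
  · intro S hS
    rw [AV, Finset.mem_filter, mem_SF] at hS
    obtain ⟨hS, hsh⟩ := hS
    rw [mem_RS]
    refine ⟨vw_lt hS hsh, fun i hi => ?_, fun i hi => ?_⟩
    · simp only [zr, decide_eq_true_eq]
      exact vw_refl hS hsh i
    · simp only [zc, decide_eq_true_eq]
      have h6 := vw_refl hS hsh i
      have h7 : Fin.rev i = i := by ext; rw [Fin.val_rev]; omega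
      rw [h7] at h6
      omega
  · intro S hS
    rw [AV, Finset.mem_filter, mem_SF] at hS
    exact shape_sum hS.1 hS.2
  · intro S hS S' hS' h
    simp only [AV, Finset.coe_filter, Set.mem_ofPred_eq, mem_SF] at hS hS'
    simp only [Prod.mk.injEq] at h
    exact shape_inj hS.1 hS.2 hS'.1 hS'.2 h.1 h.2

open Classical in
/-- depth at least four -/
noncomputable def T4 (g : ℕ) : Finset (AddSubmonoid ℕ) :=
  (SF g).filter fun S => ∃ i < mul S, 4 ≤ kz S i

/-- the three cases for one value of `q` -/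
theorem cases_cover {S : AddSubmonoid ℕ} {g G q R N : ℕ} (hS : S ∈ SG g) (hq : 4 ≤ q)
    (hg : g ≤ G) (h : Shape S q R N) :
    (∃ p ∈ I1 q G, S ∈ A1 g q p) ∨ (∃ p ∈ I2 q G, S ∈ A2 g q p) ∨
      (∃ p ∈ I3 q G, S ∈ A3 g q p) := by
  classical
  obtain ⟨hR, hN⟩ := shape_mem hS h hq hg
  have hsum := shape_sum hS h
  have hRw := shape_R hS h
  have hNw := shape_N hS h
  by_cases hI : ∃ i, 0 < i ∧ i ≤ R ∧ kz S i = 1
  · left
    have hspec := Nat.find_spec hI
    have hmin := fun i => Nat.find_min hI (m := i)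
    set d := Nat.find hI
    obtain ⟨h1, h2, h3⟩ := hspec
    refine ⟨(R, N, d), ?_, ?_⟩
    · simp only [I1, Finset.mem_filter, Finset.mem_product, Finset.mem_range, Finset.mem_Icc]
      refine ⟨⟨hR, hN, by omega, ?_⟩, h2⟩
      have : 4 * R ≤ q * R := Nat.mul_le_mul_right _ hq
      omega
    · rw [A1, Finset.mem_filter, mem_SF]
      refine ⟨hS, h, h1, h2, h3, fun i hi hid => ?_⟩
      have hid' : i < d := hid
      have h4 := hmin i hid'
      have h5 := kz_pos hS hi (by rw [h.1]; omega)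
      by_contra h6
      exact h4 ⟨hi, by omega, by omega⟩
  · have hI' : ∀ i, 0 < i → i ≤ R → 2 ≤ kz S i := by
      intro i hi hiR
      have h5 := kz_pos hS hi (by rw [h.1]; omega)
      by_contra h6
      exact hI ⟨i, hi, hiR, by omega⟩
    right
    by_cases hII : ∃ e, 1 ≤ e ∧ 2 * e ≤ N ∧ kz S (R + 1 + e) = 1
    · left
      have hspec := Nat.find_spec hII
      have hmin := fun i => Nat.find_min hII (m := i)
      set e := Nat.find hII
      obtain ⟨h1, h2, h3⟩ := hspec
      refine ⟨(R, N, e), ?_, ?_⟩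
      · simp only [I2, Finset.mem_filter, Finset.mem_product, Finset.mem_range, Finset.mem_Icc]
        have hR2 : 2 * R ≤ wt (uw S R) := by
          have : ∑ i : Fin R, 2 ≤ ∑ i, (uw S R i + 1) := Finset.sum_le_sum fun i _ => by
            have a1 := uw_add hS h i
            have a2 := hI' (i + 1) (by omega) (by omega)
            omega
          simp at this
          rw [wt]
          simp
          omega
        have hN2 : 3 * N ≤ (q - 1) * N := Nat.mul_le_mul_right _ (by omega)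
        refine ⟨⟨hR, hN, h1, by omega⟩, h2, ?_⟩
        show R + 1 + e ≤ G / 2
        omega
      · rw [A2, Finset.mem_filter, mem_SF]
        refine ⟨hS, h, h1, h2, hI', h3, fun i hi hid => ?_⟩
        simp only at hi hid
        have h5 := kz_pos hS (i := i) (by omega) (by rw [h.1]; omega)
        have h4 := hmin (i - (R + 1)) (by omega)
        by_contra h6
        refine h4 ⟨by omega, by omega, ?_⟩
        have : R + 1 + (i - (R + 1)) = i := by omega
        rw [this]; omega
    · right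
      refine ⟨(R, N), ?_, ?_⟩
      · simp only [I3, Finset.mem_product, Finset.mem_range]
        exact ⟨hR, hN⟩
      · rw [A3, Finset.mem_filter, mem_SF]
        refine ⟨hS, h, hI', fun i hi => ?_⟩
        simp only at hi ⊢
        have h5 := kz_pos hS (i := R + 2 + i) (by omega) (by rw [h.1]; omega)
        by_contra h6
        refine hII ⟨i + 1, by omega, by omega, ?_⟩
        have : R + 1 + (i + 1) = R + 2 + i := by omega
        rw [this]; omega

/-- total bound -/
noncomputable def Ut (G : ℕ) : ℕ[X] :=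
  Uq 4 X G + Uq 5 X G + ∑ q ∈ Icc 6 G, Vq q X G

theorem T4_le (g G : ℕ) (hg : g ≤ G) : (T4 g).card ≤ (Ut G).coeff g := by
  classical
  have hsub : T4 g ⊆ (((I1 4 G).biUnion (A1 g 4) ∪ (I2 4 G).biUnion (A2 g 4) ∪
      (I3 4 G).biUnion (A3 g 4)) ∪ ((I1 5 G).biUnion (A1 g 5) ∪ (I2 5 G).biUnion (A2 g 5) ∪
      (I3 5 G).biUnion (A3 g 5))) ∪ (Icc 6 G).biUnion (fun q => (I3 q G).biUnion (AV g q)) := by
    intro S hS
    rw [T4, Finset.mem_filter, mem_SF] at hS
    obtain ⟨hS, h4⟩ := hS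
    obtain ⟨q, R, N, hq, hqg, hsh⟩ := exists_shape hS h4
    rw [Finset.mem_union, Finset.mem_union]
    rcases Nat.lt_or_ge q 6 with h6 | h6
    · have hc := cases_cover hS hq hg hsh
      left
      have : q = 4 ∨ q = 5 := by omega
      rcases this with rfl | rfl
      · left
        rw [Finset.mem_union, Finset.mem_union, Finset.mem_biUnion, Finset.mem_biUnion,
          Finset.mem_biUnion]
        rcases hc with hc | hc | hc
        · exact Or.inl (Or.inl hc)
        · exact Or.inl (Or.inr hc)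
        · exact Or.inr hc
      · right
        rw [Finset.mem_union, Finset.mem_union, Finset.mem_biUnion, Finset.mem_biUnion,
          Finset.mem_biUnion]
        rcases hc with hc | hc | hc
        · exact Or.inl (Or.inl hc)
        · exact Or.inl (Or.inr hc)
        · exact Or.inr hc
    · right
      rw [Finset.mem_biUnion]
      refine ⟨q, Finset.mem_Icc.mpr ⟨h6, by omega⟩, ?_⟩
      rw [Finset.mem_biUnion]
      refine ⟨(R, N), ?_, ?_⟩
      · simp only [I3, Finset.mem_product, Finset.mem_range]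
        exact shape_mem hS hsh hq hg
      · rw [AV, Finset.mem_filter, mem_SF]
        exact ⟨hS, hsh⟩
  refine (Finset.card_le_card hsub).trans ?_
  have hu : ∀ q, ((I1 q G).biUnion (A1 g q) ∪ (I2 q G).biUnion (A2 g q) ∪
      (I3 q G).biUnion (A3 g q)).card ≤ (Uq q (X : ℕ[X]) G).coeff g := by
    intro q
    refine le_trans ?_ (parts_le q G g)
    rw [coeff_add, coeff_add, finsetSum_coeff, finsetSum_coeff, finsetSum_coeff]
    refine (Finset.card_union_le _ _).trans (add_le_add ((Finset.card_union_le _ _).trans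
      (add_le_add ?_ ?_)) ?_)
    · exact Finset.card_biUnion_le.trans (Finset.sum_le_sum fun p _ => A1_card g q p)
    · exact Finset.card_biUnion_le.trans (Finset.sum_le_sum fun p _ => A2_card g q p)
    · exact Finset.card_biUnion_le.trans (Finset.sum_le_sum fun p _ => A3_card g q p)
  rw [Ut, coeff_add, coeff_add, finsetSum_coeff]
  refine (Finset.card_union_le _ _).trans (add_le_add ((Finset.card_union_le _ _).trans
      (add_le_add (hu 4) (hu 5))) ?_)
  refine Finset.card_biUnion_le.trans (Finset.sum_le_sum fun q _ => ?_)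
  refine le_trans ?_ (partV q G g)
  rw [finsetSum_coeff]
  exact Finset.card_biUnion_le.trans (Finset.sum_le_sum fun p _ => AV_card g q p)

end Pool.Agent.H502R2
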