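import Pool.Agent.H502R2.Group

/-!
Relaxed word families and their generating polynomials.
-/

namespace Pool.Agent.H502R2

open Polynomial Finset

/-- no condition -/
def tt : ℕ → Bool := fun _ => true
/-- letter at least two -/
def t2 : ℕ → Bool := fun k => decide (1 ≤ k)
/-- letter equal to one -/
def e1 : ℕ → Bool := fun k => decide (k = 0)

/-- flags of the left part in case I -/
def Za (d : ℕ) : ℕ → ℕ → Bool := fun i => if i + 1 = d then e1 else t2

section defs
variable {R : Type*} [CommSemiring R]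

/-- pair polynomial -/
def Pp (L : ℕ) (x : R) (Z : ℕ → ℕ → Bool) : R :=
  ∑ c ∈ range L ×ˢ range L, if Z c.1 c.2 = true then x ^ (c.1 + c.2 + 2) else 0

/-- centre polynomial -/
def Cn (L : ℕ) (x : R) (Z : ℕ → Bool) : R :=
  ∑ k ∈ range L, if Z k = true then x ^ (k + 1) else 0

/-- reflection condition -/
def zr (L : ℕ) : ℕ → ℕ → Bool := fun a b => decide (L ≤ a + b + 2)
/-- reflection condition, both letters at least two -/
def zr2 (L : ℕ) : ℕ → ℕ → Bool := fun a b => decide (L ≤ a + b + 2 ∧ 1 ≤ a ∧ 1 ≤ b)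
/-- reflection condition, left letter at least two -/
def zl2 (L : ℕ) : ℕ → ℕ → Bool := fun a b => decide (L ≤ a + b + 2 ∧ 1 ≤ a)
/-- reflection condition, left letter one -/
def zl1 (L : ℕ) : ℕ → ℕ → Bool := fun a b => decide (L ≤ a + b + 2 ∧ a = 0)
/-- reflection condition at the centre -/
def zc (L : ℕ) : ℕ → Bool := fun k => decide (L ≤ 2 * k + 2)
/-- reflection condition at the centre, letter at least two -/
def zc2 (L : ℕ) : ℕ → Bool := fun k => decide (L ≤ 2 * k + 2 ∧ 1 ≤ k)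

/-- reflect only -/
def rr (L : ℕ) (x : R) (N : ℕ) : R := Pp L x (zr L) ^ (N / 2) * Cn L x (zc L) ^ (N % 2)
/-- reflect, all letters at least two -/
def yy (L : ℕ) (x : R) (N : ℕ) : R := Pp L x (zr2 L) ^ (N / 2) * Cn L x (zc2 L) ^ (N % 2)
/-- reflect, first half at least two -/
def ww (L : ℕ) (x : R) (N : ℕ) : R := Pp L x (zl2 L) ^ (N / 2) * Cn L x (zc L) ^ (N % 2)

/-- free region, class lengths `a+1`, `a` -/
def Fg (L : ℕ) (x : R) (a d : ℕ) : R :=
  ∑ b ∈ range d, Grp L x tt (a + 1) b * Grp L x tt a (d - b)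

/-- flagged region -/
def Fa (L : ℕ) (x : R) (a d : ℕ) : R :=
  ∑ b ∈ range d, Grp L x t2 (a + 1) b * GrpS L x t2 e1 a (d - b)

/-- sum over all lengths, free region -/
def Sg (L : ℕ) (x : R) (A d : ℕ) : R :=
  ∑ a ∈ range (A + 1), if a * d ≤ A then Fg L x a d else 0

/-- sum over all lengths, flagged region -/
def Sa (L : ℕ) (x : R) (A d : ℕ) : R :=
  ∑ a ∈ range (A + 1), if 1 ≤ a ∧ a * d ≤ A then Fa L x a d else 0

/-- prefix weights in case II -/
def BB (q : ℕ) (x : R) (d : ℕ) : R :=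
  ∑ r ∈ range (d - 1), yy q x r * Pp (q - 1) x (zl2 (q - 1)) ^ (d - 2 - r)

/-- the bound for depth `q` with chains -/
def Uq (q : ℕ) (x : R) (G : ℕ) : R :=
  x ^ q * (∑ d ∈ Icc 1 (G / 2), Sa q x (2 * G / q) d * Sg (q - 1) x (2 * G / (q - 1)) d
    + Pp (q - 1) x (zl1 (q - 1)) *
      ∑ d ∈ Icc 2 (G / 2), BB q x d * Sg (q - 1) x (2 * G / (q - 1)) d
    + (∑ r ∈ range (2 * G / q + 1), yy q x r) *
      ∑ n ∈ range (2 * G / (q - 1) + 1), ww (q - 1) x n)

/-- the bound for depth `q` without chains -/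
def Vq (q : ℕ) (x : R) (G : ℕ) : R :=
  x ^ q * ((∑ r ∈ range (2 * G / q + 1), rr q x r) *
    ∑ n ∈ range (2 * G / (q - 1) + 1), rr (q - 1) x n)

end defs

theorem free_le (L N d a b : ℕ) (hN : N = d * a + b) (hb : b < d) :
    PLE (GF (RegS L N d (fun _ => tt)) wt)
      (Grp L (X : ℕ[X]) tt (a + 1) b * Grp L (X : ℕ[X]) tt a (d - b)) :=
  (Reg_le L N d a b hN hb _).trans ((GwS_const L (a + 1) tt b).mul (GwS_const L a tt (d - b)))

theorem flag_le (L N d a b : ℕ) (hN : N = d * a + b) (hb : b < d) :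
    PLE (GF (RegS L N d (Za d)) wt)
      (Grp L (X : ℕ[X]) t2 (a + 1) b * GrpS L (X : ℕ[X]) t2 e1 a (d - b)) := by
  refine (Reg_le L N d a b hN hb _).trans ?_
  have h1 : (fun r : Fin b => Za d r) = fun _ => t2 := by
    funext r
    have := r.2
    rw [Za, if_neg (by omega)]
  rw [h1]
  refine (GwS_const L (a + 1) t2 b).mul (GwS_special L a t2 e1 (d - b) _ ?_)
  intro r
  rw [Za]
  by_cases h : (r : ℕ) + 1 = d - b
  · rw [if_pos h, if_pos (by omega)]
  · rw [if_neg h, if_neg (by omega)]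

open Classical in
/-- reflect words -/
noncomputable def RS (L N : ℕ) (Zp : ℕ → ℕ → Bool) (Zc : ℕ → Bool) : Finset (Fin N → ℕ) :=
  (Wd L N).filter fun v => (∀ i : Fin N, 2 * ((i : ℕ) + 1) ≤ N → Zp (v i) (v (Fin.rev i)) = true) ∧
    (∀ i : Fin N, 2 * (i : ℕ) + 1 = N → Zc (v i) = true)

theorem mem_RS {L N : ℕ} {Zp : ℕ → ℕ → Bool} {Zc : ℕ → Bool} {v : Fin N → ℕ} :
    v ∈ RS L N Zp Zc ↔ (∀ i, v i < L) ∧
      (∀ i : Fin N, 2 * ((i : ℕ) + 1) ≤ N → Zp (v i) (v (Fin.rev i)) = true) ∧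
      (∀ i : Fin N, 2 * (i : ℕ) + 1 = N → Zc (v i) = true) := by
  simp [RS, mem_Wd]

theorem RS_le (L : ℕ) (Zp : ℕ → ℕ → Bool) (Zc : ℕ → Bool) (N : ℕ) :
    PLE (GF (RS L N Zp Zc) wt)
      (Pp L (X : ℕ[X]) Zp ^ (N / 2) * Cn L (X : ℕ[X]) Zc ^ (N % 2)) := by
  classical
  induction N using Nat.twoStepInduction with
  | zero =>
    simpa using GF_subsingleton (S := RS L 0 Zp Zc) (w := wt) (by intro a _; simp [wt])
  | one =>
    have h1 : Pp L (X : ℕ[X]) Zp ^ (1 / 2) * Cn L (X : ℕ[X]) Zc ^ (1 % 2)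
        = Cn L (X : ℕ[X]) Zc := by simp
    rw [h1, Cn]
    refine GF_fiber _ (fun a => a 0) ?_ _ ?_
    · intro a ha
      rw [mem_RS] at ha
      exact Finset.mem_range.mpr (ha.1 _)
    · intro k _
      split_ifs with h
      · have := GF_shift (S := (RS L 1 Zp Zc).filter (fun a => a 0 = k)) (w := wt)
          (T := (Finset.univ : Finset Unit)) (w' := fun _ => 0) (k + 1) (fun _ => ())
          (by simp) (by
            intro a ha b hb _
            simp only [Finset.coe_filter, Set.mem_ofPred_eq] at ha hb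
            funext i
            rw [Subsingleton.elim i 0, ha.2, hb.2])
          (by
            intro a ha
            simp only [Finset.mem_filter] at ha
            simp [wt, ha.2])
        refine this.trans ?_
        have h1 : GF (Finset.univ : Finset Unit) (fun _ => 0) = 1 := by simp [GF]
        rw [h1, mul_one]
        exact PLE.refl _
      · rw [GF_empty]
        · exact PLE.zero_le _
        · intro a ha
          rw [Finset.mem_filter, mem_RS] at ha
          obtain ⟨⟨_, _, hs⟩, rfl⟩ := ha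
          exact h (hs 0 (by simp))
  | more N ih _ =>
    have h1 : (N + 2) / 2 = N / 2 + 1 := by omega
    have h2 : (N + 2) % 2 = N % 2 := by omega
    rw [h1, h2, pow_succ]
    have h3 : Pp L (X : ℕ[X]) Zp ^ (N / 2) * Pp L (X : ℕ[X]) Zp * Cn L (X : ℕ[X]) Zc ^ (N % 2)
      = Pp L (X : ℕ[X]) Zp * (Pp L (X : ℕ[X]) Zp ^ (N / 2) * Cn L (X : ℕ[X]) Zc ^ (N % 2)) := by
      ring
    rw [h3]
    refine PLE.trans ?_ ((PLE.refl _).mul ih)
    rw [Pp, Finset.sum_mul]
    refine GF_fiber _ (fun a => (a 0, a (Fin.last (N + 1)))) ?_ _ ?_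
    · intro a ha
      rw [mem_RS] at ha
      simp only [Finset.mem_product, Finset.mem_range]
      exact ⟨ha.1 _, ha.1 _⟩
    · rintro ⟨c, d⟩ _
      split_ifs with h
      · refine GF_shift (c + d + 2) (fun a => (fun i => a (mid i))) ?_ ?_ ?_
        · intro a ha
          rw [Finset.mem_filter, mem_RS] at ha
          obtain ⟨⟨hP, hp, hc⟩, _⟩ := ha
          rw [mem_RS]
          refine ⟨fun i => hP _, fun i hi => ?_, fun i hi => ?_⟩
          · have := hp (mid i) (by simp only [mid_val]; omega)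
            rwa [rev_mid] at this
          · exact hc (mid i) (by simp only [mid_val]; omega)
        · intro a ha b hb hab
          simp only [Finset.coe_filter, Set.mem_ofPred_eq, Prod.mk.injEq] at ha hb
          exact peel_inj (ha.2.1.trans hb.2.1.symm) (ha.2.2.trans hb.2.2.symm) hab
        · intro a ha
          simp only [Finset.mem_filter, Prod.mk.injEq] at ha
          rw [wt_peel, ha.2.1, ha.2.2]
      · rw [GF_empty]
        · exact PLE.zero_le _
        · intro a ha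
          rw [Finset.mem_filter, mem_RS] at ha
          simp only [Prod.mk.injEq] at ha
          obtain ⟨⟨hP, hp, hc⟩, rfl, rfl⟩ := ha
          apply h
          have := hp 0 (by simp)
          rwa [Fin.rev_zero] at this

open Classical in
/-- strip words of case II -/
noncomputable def VS (L N d e : ℕ) : Finset (Fin N → ℕ) :=
  (Wd L N).filter fun v => (∀ i, L ≤ v i + v (Fin.rev i) + 2) ∧
    (∀ i j : Fin N, (j : ℕ) = i + d → v j ≤ v i + 1) ∧
    (∀ i : Fin N, (i : ℕ) + 1 < e → 1 ≤ v i) ∧ (∀ i : Fin N, (i : ℕ) + 1 = e → v i = 0)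

theorem mem_VS {L N d e : ℕ} {v : Fin N → ℕ} :
    v ∈ VS L N d e ↔ (∀ i, v i < L) ∧ (∀ i, L ≤ v i + v (Fin.rev i) + 2) ∧
    (∀ i j : Fin N, (j : ℕ) = i + d → v j ≤ v i + 1) ∧
    (∀ i : Fin N, (i : ℕ) + 1 < e → 1 ≤ v i) ∧ (∀ i : Fin N, (i : ℕ) + 1 = e → v i = 0) := by
  simp [VS, mem_Wd]

theorem VS_peel (L N d e : ℕ) :
    PLE (GF (VS L (N + 2) d (e + 1)) wt)
      (Pp L (X : ℕ[X]) (if e = 0 then zl1 L else zl2 L) * GF (VS L N d e) wt) := by
  classical
  rw [Pp, Finset.sum_mul]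
  refine GF_fiber _ (fun a => (a 0, a (Fin.last (N + 1)))) ?_ _ ?_
  · intro a ha
    rw [mem_VS] at ha
    simp only [Finset.mem_product, Finset.mem_range]
    exact ⟨ha.1 _, ha.1 _⟩
  · rintro ⟨c, c'⟩ _
    by_cases h : (if e = 0 then zl1 L else zl2 L) c c' = true
    · rw [if_pos h]
      refine GF_shift (c + c' + 2) (fun a => (fun i => a (mid i))) ?_ ?_ ?_
      · intro a ha
        rw [Finset.mem_filter, mem_VS] at ha
        obtain ⟨⟨hP, hr, hc, hg, he⟩, _⟩ := ha
        rw [mem_VS]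
        refine ⟨fun i => hP _, fun i => ?_, fun i j hij => hc _ _ ?_, fun i hi => hg _ ?_,
          fun i hi => he _ ?_⟩
        · have := hr (mid i)
          rwa [rev_mid] at this
        · simp only [mid_val]; omega
        · simp only [mid_val]; omega
        · simp only [mid_val]; omega
      · intro a ha b hb hab
        simp only [Finset.coe_filter, Set.mem_ofPred_eq, Prod.mk.injEq] at ha hb
        exact peel_inj (ha.2.1.trans hb.2.1.symm) (ha.2.2.trans hb.2.2.symm) hab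
      · intro a ha
        simp only [Finset.mem_filter, Prod.mk.injEq] at ha
        rw [wt_peel, ha.2.1, ha.2.2]
    · rw [if_neg h, zero_mul, GF_empty]
      · exact PLE.zero_le _
      · intro a ha
        rw [Finset.mem_filter, mem_VS] at ha
        simp only [Prod.mk.injEq] at ha
        obtain ⟨⟨hP, hr, hc, hg, he⟩, rfl, rfl⟩ := ha
        apply h
        have h0 := hr 0
        rw [Fin.rev_zero] at h0
        by_cases h' : e = 0
        · rw [if_pos h']
          simp only [zl1, decide_eq_true_eq]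
          exact ⟨h0, he 0 (by simp [h'])⟩
        · rw [if_neg h']
          simp only [zl2, decide_eq_true_eq]
          exact ⟨h0, hg 0 (by simp; omega)⟩

theorem VS_zero (L N d : ℕ) : PLE (GF (VS L N d 0) wt) (GF (RegS L N d (fun _ => tt)) wt) := by
  refine GF_le id ?_ (Set.injOn_id _) (fun _ _ => rfl)
  intro v hv
  rw [mem_VS] at hv
  rw [id, mem_RegS]
  exact ⟨hv.1, hv.2.1, hv.2.2.1, fun _ _ => rfl⟩

theorem VS_le (L N d e : ℕ) :
    PLE (GF (VS L (N + 2 * (e + 1)) d (e + 1)) wt)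
      (Pp L (X : ℕ[X]) (zl2 L) ^ e * Pp L (X : ℕ[X]) (zl1 L) *
        GF (RegS L N d (fun _ => tt)) wt) := by
  induction e generalizing N with
  | zero =>
    refine (VS_peel L N d 0).trans ?_
    rw [if_pos rfl, pow_zero, one_mul]
    exact (PLE.refl _).mul (VS_zero L N d)
  | succ e ih =>
    have h1 : N + 2 * (e + 1 + 1) = (N + 2 * (e + 1)) + 2 := by ring
    rw [h1]
    refine (VS_peel L _ d (e + 1)).trans ?_
    rw [if_neg (by omega), pow_succ]
    have h2 : Pp L (X : ℕ[X]) (zl2 L) ^ e * Pp L (X : ℕ[X]) (zl2 L) * Pp L (X : ℕ[X]) (zl1 L) *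
        GF (RegS L N d (fun _ => tt)) wt = Pp L (X : ℕ[X]) (zl2 L) *
        (Pp L (X : ℕ[X]) (zl2 L) ^ e * Pp L (X : ℕ[X]) (zl1 L) *
        GF (RegS L N d (fun _ => tt)) wt) := by ring
    rw [h2]
    exact (PLE.refl _).mul (ih N)

theorem sum_free_le (L A d : ℕ) (hd : 1 ≤ d) :
    PLE (∑ n ∈ range (A + 1), GF (RegS L n d (fun _ => tt)) wt) (Sg L (X : ℕ[X]) A d) := by
  have h : Sg L (X : ℕ[X]) A d = ∑ p ∈ ((range (A + 1)).filter (fun a => a * d ≤ A)) ×ˢ range d,
      Grp L (X : ℕ[X]) tt (p.1 + 1) p.2 * Grp L (X : ℕ[X]) tt p.1 (d - p.2) := by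
    rw [Sg, Finset.sum_product, Finset.sum_filter]
    rfl
  rw [h]
  refine PLE.sum_inj (fun n => (n / d, n % d)) ?_ ?_ ?_
  · intro n hn
    rw [Finset.mem_range] at hn
    have h1 : n / d * d ≤ n := Nat.div_mul_le_self n d
    have h2 : n / d ≤ n := Nat.div_le_self n d
    rw [Finset.mem_product, Finset.mem_filter, Finset.mem_range, Finset.mem_range]
    exact ⟨⟨by show n / d < A + 1; omega, by show n / d * d ≤ A; omega⟩, Nat.mod_lt _ hd⟩
  · intro n _ n' _ h
    simp only [Prod.mk.injEq] at h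
    rw [← Nat.div_add_mod n d, ← Nat.div_add_mod n' d, h.1, h.2]
  · intro n _
    exact free_le L n d (n / d) (n % d) (Nat.div_add_mod n d).symm (Nat.mod_lt _ hd)

theorem sum_flag_le (L A d : ℕ) (hd : 1 ≤ d) :
    PLE (∑ n ∈ Icc d A, GF (RegS L n d (Za d)) wt) (Sa L (X : ℕ[X]) A d) := by
  have h : Sa L (X : ℕ[X]) A d =
      ∑ p ∈ ((range (A + 1)).filter (fun a => 1 ≤ a ∧ a * d ≤ A)) ×ˢ range d,
      Grp L (X : ℕ[X]) t2 (p.1 + 1) p.2 * GrpS L (X : ℕ[X]) t2 e1 p.1 (d - p.2) := by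
    rw [Sa, Finset.sum_product, Finset.sum_filter]
    rfl
  rw [h]
  refine PLE.sum_inj (fun n => (n / d, n % d)) ?_ ?_ ?_
  · intro n hn
    rw [Finset.mem_Icc] at hn
    have h1 : n / d * d ≤ n := Nat.div_mul_le_self n d
    have h2 : n / d ≤ n := Nat.div_le_self n d
    have h3 : 1 ≤ n / d := by
      rw [Nat.one_le_div_iff (by omega)]; exact hn.1
    rw [Finset.mem_product, Finset.mem_filter, Finset.mem_range, Finset.mem_range]
    exact ⟨⟨by show n / d < A + 1; omega, h3, by show n / d * d ≤ A; omega⟩, Nat.mod_lt _ hd⟩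
  · intro n _ n' _ h
    simp only [Prod.mk.injEq] at h
    rw [← Nat.div_add_mod n d, ← Nat.div_add_mod n' d, h.1, h.2]
  · intro n _
    exact flag_le L n d (n / d) (n % d) (Nat.div_add_mod n d).symm (Nat.mod_lt _ hd)

end Pool.Agent.H502R2
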